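import Mathlib
import Pool.Agent.Lib_helper21.TR.Defs
import Pool.Agent.ACC.Defs

/-!
# Randomised machines with random access to the input graph and to a memory whose registers have
prices
-/

open MeasureTheory

namespace Pool.Agent.RAC

open Pool.Agent.TS Pool.Agent.TR Pool.Agent.ACC

/-- A randomised, nonuniform machine with random access to a graph on `Fin n` and to a work memory,
with control states in `Q`, one register, with content in `Γ`, for every member of `A`, and random
seeds in `Ω`. With seed `ω` it starts in the state `start ω` with the contents `init ω` of the
registers. If at time `t` it is in the state `q`, it reads the register `rd ω t q` (or none); `γ`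
being the content read, it asks the question `ask ω t q γ` about the graph; `a` being the answer and
`(q', w) = next ω t q γ a`, it goes to the state `q'` and, if `w = some (x, v)`, writes `v` into the
register `x` (arbitrary functions). `output q = some b`: in the state `q` the machine stops with the
answer `b` (`true`: there is a triangle). -/
structure RMachine (n : ℕ) (Q A Γ Ω : Type) where
  start : Ω → Q
  init : Ω → A → Γ
  rd : Ω → ℕ → Q → Option A
  ask : Ω → ℕ → Q → Option Γ → Query n
  next : Ω → ℕ → Q → Option Γ → Option (Fin n) → Q × Option (A × Γ)
  output : Q → Option Bool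

variable {n : ℕ} {Q A Γ Ω : Type}

/-- The next state and the write in the step at time `t` on the graph `G` with seed `ω`, if the
state and the contents of the registers at time `t` are `x.1` and `x.2`. -/
noncomputable def RMachine.move (M : RMachine n Q A Γ Ω) (ω : Ω) (G : SimpleGraph (Fin n)) (t : ℕ)
    (x : Q × (A → Γ)) : Q × Option (A × Γ) :=
  M.next ω t x.1 ((M.rd ω t x.1).map x.2)
    (answer G (M.ask ω t x.1 ((M.rd ω t x.1).map x.2)))

/-- The state and the contents of the registers after `t` steps on the graph `G` with seed `ω`; a
machine that has answered does not change them any more. -/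
noncomputable def RMachine.run (M : RMachine n Q A Γ Ω) (ω : Ω) (G : SimpleGraph (Fin n)) :
    ℕ → Q × (A → Γ)
  | 0 => (M.start ω, M.init ω)
  | t + 1 =>
    if (M.output (M.run ω G t).1).isSome then M.run ω G t
    else ((M.move ω G t (M.run ω G t)).1,
      write (M.run ω G t).2 (M.move ω G t (M.run ω G t)).2)

/-- The answer given by time `t`, if any. -/
noncomputable def RMachine.out (M : RMachine n Q A Γ Ω) (ω : Ω) (G : SimpleGraph (Fin n))
    (t : ℕ) : Option Bool := M.output (M.run ω G t).1

/-- The register read (if `b = false`), respectively written (if `b = true`), in the step at time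
`t`, if any; none if the machine has answered. -/
noncomputable def RMachine.access (M : RMachine n Q A Γ Ω) (b : Bool) (ω : Ω)
    (G : SimpleGraph (Fin n)) (t : ℕ) : Option A :=
  if (M.out ω G t).isSome then none
  else if b then (M.move ω G t (M.run ω G t)).2.map Prod.fst
  else M.rd ω t (M.run ω G t).1

/-- On every graph with degree sequence `δ` the machine answers correctly whether there is a
triangle with probability at least `2 / 3`, the seed being distributed according to `μ`. (First two
clauses: the state and the registers read and written at every time are random variables.) -/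
def RMachine.DetectsTriangles [MeasurableSpace Ω] (M : RMachine n Q A Γ Ω) (μ : Measure Ω)
    (δ : Fin n → ℕ) : Prop :=
  ∀ G : SimpleGraph (Fin n), HasDegrees G δ →
    (∀ t x, MeasurableSet {ω | (M.run ω G t).1 = x}) ∧
    (∀ b t y, MeasurableSet {ω | M.access b ω G t = y}) ∧
    2 / 3 ≤ μ.real {ω | ∃ t b, M.out ω G t = some b ∧ (b = true ↔ ¬ G.CliqueFree 3)}

/-- The cost of the steps made before time `m` if the reads (`b = false`), respectively the writes
(`b = true`), are paid and `f a` is the price of the register `a`: a step costs `1`, and in addition
the price of the register read, respectively written, in this step. -/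
noncomputable def RMachine.cost (M : RMachine n Q A Γ Ω) (f : A → ℝ) (b : Bool) (ω : Ω)
    (G : SimpleGraph (Fin n)) (m : ℕ) : ℝ :=
  ∑ t ∈ Finset.range m, ((if M.out ω G t = none then 1 else 0) + (M.access b ω G t).elim 0 f)

/-- The expected cost on every graph with degree sequence `δ` is at most `T`. -/
def RMachine.ExpectedCostLE [MeasurableSpace Ω] (M : RMachine n Q A Γ Ω) (μ : Measure Ω)
    (δ : Fin n → ℕ) (f : A → ℝ) (b : Bool) (T : ℝ) : Prop :=
  ∀ G : SimpleGraph (Fin n), HasDegrees G δ → ∀ m : ℕ,
    ∫⁻ ω, ENNReal.ofReal (M.cost f b ω G m) ∂μ ≤ ENNReal.ofReal T

end Pool.Agent.RAC
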