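import Mathlib
import Pool.Agent.RAC.Defs
import Pool.Agent.ACC.Hybrid
import Pool.Agent.ACC.Ram
import Pool.Agent.Lib_helper21.HR.Assembly
import Pool.Agent.Lib_helper21.HR.Final

/-!
# Randomised machines whose memory accesses have a price: statements

Architect: helper21 (project RAC, MP_ad5e8e_lc, hand-in RandomizedAccessCost).

MAIN THEOREM (`S_MAIN`). Bounded error, expected cost: a machine with random access to the graph and to
its memory, `s ^ κ` states, registers of `g` words, such that the registers of price less than `φ g`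
hold at most `s ^ (1 - ε)` words, needs expected cost `c s m / log m` with `m = min (log s) (log φ)`.

Every module proves one theorem `t_XXX : S_XXX` or `t_XXX (h : S_YYY) ... : S_XXX`. The complete paper
proof is in the comment at the statement. Namespace `Pool.Agent.RAC`; prefix helper lemmas by the name
of the module.
-/

set_option autoImplicit false
set_option linter.unusedVariables false

open MeasureTheory

namespace Pool.Agent.RAC

open Finset Equiv Pool.Agent.TS Pool.Agent.TR Pool.Agent.HR Pool.Agent.ACC Pool.Agent.HM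

/-! ### the main theorem -/

/-- MAIN THEOREM. -/
def S_MAIN : Prop :=
  ∀ (κ : ℕ) (ε : ℝ), 0 < ε → ∃ c : ℝ, 0 < c ∧ ∃ s₀ : ℕ, ∀ (s : ℕ) (φ : ℝ), s₀ ≤ s →
    (s₀ : ℝ) ≤ φ → ∃ (n : ℕ) (δ : Fin n → ℕ), 2 * n + ∑ v, δ v = 2 * s ∧
      ∀ (Q A Γ Ω : Type) [Fintype Q] [Fintype A] [Fintype Γ] [MeasurableSpace Ω]
        (μ : Measure Ω) [IsProbabilityMeasure μ] (M : RMachine n Q A Γ Ω) (g : ℕ) (f : A → ℝ)
        (b : Bool) (T : ℝ), 1 ≤ g → Fintype.card Q ≤ s ^ κ → Fintype.card A ≤ s ^ κ →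
        Fintype.card Γ ≤ s ^ (κ * g) → (∀ a, 0 ≤ f a) →
        (Nat.card {a : A // f a < φ * g} : ℝ) * g ≤ (s : ℝ) ^ (1 - ε) →
        M.DetectsTriangles μ δ → M.ExpectedCostLE μ δ f b T →
        c * s * (min (Real.log s) (Real.log φ) / Real.log (min (Real.log s) (Real.log φ))) ≤ T

/-! ### locally sparse regular bipartite graphs -/

/-- The bipartite graph with the edges `b — σ c b` is simple. -/
def Simp {B C : Type} (σ : C → Perm B) : Prop := ∀ b, Function.Injective fun c => σ c b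

open Classical in
/-- The number of edges between the sets `X` (left side) and `Y` (right side). -/
noncomputable def edg {B C : Type} [Fintype B] [Fintype C] (σ : C → Perm B) (X Y : Finset B) : ℕ :=
  ((Finset.univ : Finset (B × C)).filter fun p => p.1 ∈ X ∧ σ p.2 p.1 ∈ Y).card

/-- Small sets span few edges: `M |X| ≤ |B|` and `M |Y| ≤ |B|` imply `e(X, Y) ≤ 4 max(|X|, |Y|)`. -/
def Sparse {B C : Type} [Fintype B] [Fintype C] (σ : C → Perm B) (M : ℕ) : Prop :=
  ∀ X Y : Finset B, M * X.card ≤ Fintype.card B → M * Y.card ≤ Fintype.card B →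
    edg σ X Y ≤ 4 * max X.card Y.card

open Classical in
/-- Module PERM (about 80 lines). The number of permutations that map a set `A` into a set `Y`.
PROOF. Let `a = |A|`, `y = |Y|`, `n = |α|`. If `y < a` there is none. The map `ρ ↦ ρ|_A` from the
permutations to the injections `A ↪ α` has fibres of equal size (for two injections `i, j` there is a
permutation `π` with `π ∘ i = j`, and `ρ ↦ π ρ` maps one fibre onto the other), so
`#{ρ | ρ A ⊆ Y} / n! = #(A ↪ Y) / #(A ↪ α) = y (y-1) ... (y-a+1) / (n (n-1) ... (n-a+1)) ≤ (y/n)^a`,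
because `(y-i)/(n-i) ≤ y/n`. (Or: induction on `A`, removing one element, with the same fibres; or use
`Fintype.card_embedding_eq`, `Nat.descFactorial`.) -/
def S_PERM : Prop :=
  ∀ (α : Type) [Fintype α] [DecidableEq α] (A Y : Finset α),
    ((Finset.univ : Finset (Perm α)).filter fun ρ => ∀ a ∈ A, ρ a ∈ Y).card *
      Fintype.card α ^ A.card ≤ Y.card ^ A.card * (Fintype.card α).factorial

/-- The random lift of the complete bipartite graph: the permutation `ρ (a, c)` of the first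
coordinate is used on the fibre `a`, and the second coordinate is shifted by `c`. -/
def lift {α C : Type} [AddCommGroup C] (ρ : C × C → Perm α) (c : C) : Perm (α × C) where
  toFun p := (ρ (p.2, c) p.1, p.2 + c)
  invFun p := ((ρ (p.2 - c, c)).symm p.1, p.2 - c)
  left_inv p := by simp
  right_inv p := by simp

open Classical in
/-- Module LIFT (about 120 lines). The number of lifts for which a given set `S` of edges at vertices
goes into a set `Y`.
PROOF. For `(a, c) : C × C` let `S_{ac} = {x | ((x, a), c) ∈ S}` and `Y_{ac} = {y | (y, a + c) ∈ Y}`.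
The condition says: for all `(a, c)` the permutation `ρ (a, c)` maps `S_{ac}` into `Y_{ac}`; so the
number of lifts is the product over `(a, c)` of the numbers in `S_PERM` (`Fintype.card_piFinset`, or
`Fintype.piFinset`). Multiply the inequalities `S_PERM`; `|Y_{ac}| ≤ |Y|` and `∑ |S_{ac}| = |S|`, and
the number of all lifts is `(|α|!) ^ (|C|^2) = Fintype.card (C × C → Perm α)`. -/
def S_LIFT : Prop :=
  ∀ (α C : Type) [Fintype α] [Fintype C] [AddCommGroup C] (S : Finset ((α × C) × C))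
    (Y : Finset (α × C)),
    ((Finset.univ : Finset (C × C → Perm α)).filter fun ρ =>
      ∀ p ∈ S, lift ρ p.2 p.1 ∈ Y).card * Fintype.card α ^ S.card ≤
      Y.card ^ S.card * Fintype.card (C × C → Perm α)

/-- Module EXP (about 200 lines). Existence of locally sparse simple regular bipartite graphs.
PROOF. Let `C = ZMod D`, `α = Fin m`, `n = |α × C| = m D`. `Simp (lift ρ)` holds for every `ρ`, look at
the second coordinate. Suppose that no `ρ` is sparse with constant `M = 3 D ^ 4`: for every `ρ` there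
are `X`, `Y` with `M |X|, M |Y| ≤ n` and more than `4 max(|X|, |Y|)` edges; enlarge the smaller of the
two sets: we may assume `|X| = |Y| = x`, and `x ≥ 1` since there is an edge. Then there is a set `S` of
exactly `4 x` pairs `p ∈ X × C` all of whose edges go into `Y`. By `S_LIFT` the number of `ρ` with this
property for given `X, Y, S` is at most `(x / m)^{4x} = (D x / n)^{4 x}` times the number of all `ρ`
(the case `m = 0` is trivial). Summing over `X`, `Y` (`C(n, x)^2` pairs) and `S` (`C(D x, 4 x)` sets):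
`1 ≤ ∑_{1 ≤ x ≤ n/M} C(n,x)^2 C(Dx,4x) (Dx/n)^{4x}`. Now `C(n,x) ≤ (e n/x)^x` and
`C(Dx,4x) ≤ (e D/4)^{4x}` (`Nat.choose_le_pow_div` and `x! ≥ (x/e)^x`), so the term is at most
`[(e n/x)^2 (e D/4)^4 (D x/n)^4]^x = [(e^6/256) D^8 (x/n)^2]^x ≤ [(e^6/256)/9]^x ≤ (1/4)^x`
(`e^6 ≤ 404`), and `∑_{x ≥ 1} (1/4)^x = 1/3 < 1`, a contradiction. -/
def S_EXP : Prop :=
  ∀ (m D : ℕ) [NeZero D], ∃ σ : ZMod D → Perm (Fin m × ZMod D), Simp σ ∧ Sparse σ (3 * D ^ 4)

/-! ### locations of the block graph -/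

section BGs

variable {J B U C : Type}

/-- The bipartite graph of permutation indices for the block graph `σ`. -/
def HS (J : Type) {B C : Type} (σ : C → Perm B) (hσ : Simp σ) :
    BG (Bool × (J × B)) ((J × B) × C) where
  sd κ := κ.1
  ky b ε := (b, (ε.1.1, if b then ε.1.2 else σ ε.2 ε.1.2))
  hsd := fun _ _ => rfl
  inj := by
    rintro ⟨⟨j, b⟩, c⟩ ⟨⟨j', b'⟩, c'⟩ h1 h2
    simp only [if_true, Bool.false_eq_true, if_false, Prod.mk.injEq, true_and] at h1 h2
    obtain ⟨rfl, rfl⟩ := h1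
    have := hσ b h2.2
    simp only [Prod.mk.injEq, true_and]
    exact this

/-- The graph between the two sides `X` and `Y`. -/
def ES (σ : C → Perm B) (adj : U → U → Prop) : B × U → B × U → Prop :=
  fun p q => ∃ c, q.1 = σ c p.1 ∧ adj p.2 q.2

end BGs

open Classical in
/-- Module BOTH (about 120 lines). Locations with both endpoints in a set, or with an endpoint in the
set and many neighbours of this type in the set.
PROOF. For a centre `(j, u)` and a side `b` let `Z_b = {x | ((b, (j, x)), u) ∈ hs}` (`TR.blk`); by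
`TR.sum_blk` the sum over the centres of `|Z_true| + |Z_false|` is `|hs|`, in particular all of them
have at most `|hs| ≤ L` elements and the sparsity applies. (1) The locations at the centre with both
endpoints in `hs` are the pairs `(x, c)` with `x ∈ Z_true`, `σ c x ∈ Z_false`: at most
`4 max ≤ 4 (|Z_true| + |Z_false|)`; sum over the centres. (2) Let `b` be given, `Z = Z_b`, and let `W`
be the set of the vertices of the other side with more than `4` neighbours in `Z`. If `|W| > |Z|`, choose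
`W' ⊆ W` with `|W'| = |Z|` (`≥ 1`, otherwise `W` is empty): there are more than `4 |W'|` edges between
`W'` and `Z`, against the sparsity. So `|W| ≤ |Z|` and there are at most `4 |Z|` edges between `W` and
`Z`. A location `ℓ` at this centre with `pt b ℓ ∈ hs` and with more than `4` members `i2` of `nb ℓ` of
side `b` in `hs` is such an edge: a member `i2` of `nb ℓ` of side `b` is `pt b ℓ'` where `ℓ'` has the
same endpoint of the other side (see the proof of `TR.deg_count_loc`, which is the same computation for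
Cayley graphs). Sum over the centres. -/
def S_BOTH : Prop :=
  ∀ (J B U C : Type) [Fintype J] [Fintype B] [Fintype U] [Fintype C] [DecidableEq J]
    [DecidableEq B] [DecidableEq U] [DecidableEq C] (σ : C → Perm B) (hσ : Simp σ) (M0 L : ℕ),
    Sparse σ M0 → M0 * L ≤ Fintype.card B →
    ∀ hs : Finset ((Bool × (J × B)) × U), hs.card ≤ L →
      ((Finset.univ : Finset (((J × B) × C) × U)).filter fun ℓ =>
        ∀ b, (HS J σ hσ).pt b ℓ ∈ hs).card ≤ 4 * hs.card ∧
      ∀ b : Bool, ((Finset.univ : Finset (((J × B) × C) × U)).filter fun ℓ =>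
        (HS J σ hσ).pt b ℓ ∈ hs ∧
        4 < ((nb (HS J σ hσ) ℓ).filter fun i2 => (HS J σ hσ).sd i2.1 = b ∧ i2 ∈ hs).card).card ≤
        4 * hs.card

/-- Module GOOD (about 250 lines; assumes `S_BOTH`). The sum of the probabilities is large.
PROOF. Copy `Pool/Agent/Lib_helper21/HR/Good.lean` (`bad_often`, `bad_meet`, `bad_deg`, `good_sum`) and
`lnb`, `lnb_spec`, `nb_card` of `TR/Good.lean`, with the block graph `HS J σ hσ` instead of `HH γ J hγ`
(the location with the same endpoint of type `false` as `ℓ` and label `c` is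
`(((ℓ.1.1.1, (σ c).symm (σ ℓ.1.2 ℓ.1.1.2)), c), ℓ.2)`) and `S_BOTH` instead of `both_count` and
`deg_count_loc`, `τ1 = 4`: `bad_often` gives at most `|C| Tt / k` locations for each side, `bad_meet` at
most `4 Tt`, `bad_deg` at most `4 Tt` for each side, and the rest of the proof (with `TR.pr_mat`) is
unchanged. -/
def S_GOOD : Prop :=
  ∀ (J B U C X : Type) [Fintype J] [Fintype B] [Fintype U] [Fintype C] [DecidableEq J]
    [DecidableEq B] [DecidableEq U] [DecidableEq C] (σ : C → Perm B) (hσ : Simp σ) (M0 r : ℕ)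
    (Y : DS (Bool × (J × B)) U X r) (L Tt k g V f : ℕ) (ηb ηw : ℝ),
    Sparse σ M0 → M0 * L ≤ Fintype.card B → 0 < k → (g + 2) ^ k ≤ V → 2 ≤ g → k ≤ g + 2 → 0 < f →
    ηw ≤ 1 → 0 ≤ ηb → 0 ≤ ηw →
    2 * ((Fintype.card C : ℝ) * Tt / k) + 12 * Tt ≤ ηb * Fintype.card (((J × B) × C) × U) →
    (2 * (Fintype.card C : ℝ) + 8 * k * ((g : ℝ) + 2) ^ k) / V +
      (2 + 8 * (Fintype.card ((Bool × (J × B)) × U) : ℝ) / V + 2 * k * L) / f ≤ ηw →
    ∀ z : Bool × (J × B) → Perm U, (∀ j, (Y.hit z j).card ≤ L) → ∑ j, (Y.hit z j).card ≤ Tt →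
      (1 - (ηb + ηw)) * Fintype.card (((J × B) × C) × U) *
        (nTh r g V (Bool × (J × B)) U / (V : ℝ) ^ 2) ≤
        ∑ ℓ : ((J × B) × C) × U, prb (HS J σ hσ) Y k f g V z ℓ

open Classical in
/-- Module TFC (about 150 lines). Triangle-free inputs, their number, and the number of the fixed edges.
PROOF. Copy `tfree_iff_tri`, `forb_row'`, `forb_col'`, `tf_count'` of `TR/Encode.lean` and `card_EE` of
`TR/Final.lean` with `σ c p.1` instead of `p.1 + γ c` (and `(σ c).symm κ.2` instead of `κ.2 - γ c`). The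
fourth clause is the hypothesis of `TR.ot_bound`, see the proof of `TR.no_ram`. -/
def S_TFC : Prop :=
  ∀ (J B U C : Type) [Fintype J] [Fintype B] [Fintype U] [Fintype C] [DecidableEq J]
    [DecidableEq B] [DecidableEq U] [DecidableEq C] (σ : C → Perm B) (hσ : Simp σ)
    (adj : U → U → Prop) (d1 : ℕ),
    (∀ y, ((Finset.univ : Finset U).filter fun x => adj x y).card ≤ d1) →
    (∀ x, ((Finset.univ : Finset U).filter fun y => adj x y).card ≤ d1) →
    (∀ z : Bool × (J × B) → Perm U, TFree (ES σ adj) (toInp z).1 (toInp z).2 ↔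
      ∀ ℓ : ((J × B) × C) × U, ¬ tri (HS J σ hσ) adj z ℓ) ∧
    (2 * (Fintype.card C * d1) ≤ Fintype.card U →
      Fintype.card (Bool × (J × B) → Perm U) ≤
        (Fintype.card U) ^ (2 * (Fintype.card C * d1) * Fintype.card (J × B)) *
        ((Finset.univ : Finset (Bool × (J × B) → Perm U)).filter fun z =>
          ∀ ℓ : ((J × B) × C) × U, ¬ tri (HS J σ hσ) adj z ℓ).card) ∧
    ((Finset.univ : Finset ((B × U) × (B × U))).filter fun x => ES σ adj x.1 x.2).card ≤
      Fintype.card B * Fintype.card U * (Fintype.card C * d1) ∧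
    (∀ κ, ((Finset.univ : Finset ((J × B) × C)).filter fun ε =>
      (HS J σ hσ).ky true ε = κ).card ≤ Fintype.card C)

/-! ### deterministic machines with priced registers -/

/-- Deterministic machines reading permutations, with registers `A` of content `Γ`. -/
structure DFM (K U Q A Γ : Type) where
  start : Q
  init : A → Γ
  rd : ℕ → Q → Option A
  ask : ℕ → Q → Option Γ → Option (K × Bool × U)
  step : ℕ → Q → Option Γ → Option U → Q × Option (A × Γ)

section Det

variable {K U Q A Γ : Type}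

/-- The content read. -/
def DFM.val (M : DFM K U Q A Γ) (τ : ℕ) (p : Q × (A → Γ)) : Option Γ := (M.rd τ p.1).map p.2

/-- The question. -/
def DFM.qu (M : DFM K U Q A Γ) (τ : ℕ) (p : Q × (A → Γ)) : Option (K × Bool × U) :=
  M.ask τ p.1 (M.val τ p)

/-- The next state and the write. -/
def DFM.mv (M : DFM K U Q A Γ) (z : K → Perm U) (τ : ℕ) (p : Q × (A → Γ)) : Q × Option (A × Γ) :=
  M.step τ p.1 (M.val τ p) ((M.qu τ p).map (qans z))

/-- The run. -/
noncomputable def DFM.run (M : DFM K U Q A Γ) (z : K → Perm U) : ℕ → Q × (A → Γ)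
  | 0 => (M.start, M.init)
  | τ + 1 => ((M.mv z τ (M.run z τ)).1, write (M.run z τ).2 (M.mv z τ (M.run z τ)).2)

/-- The register read (`b = false`) or written (`b = true`) in step `τ`. -/
def DFM.acs (M : DFM K U Q A Γ) (b : Bool) (τ : ℕ) (z : K → Perm U) (p : Q × (A → Γ)) : Option A :=
  if b then (M.mv z τ p).2.map Prod.fst else M.rd τ p.1

open Classical in
/-- The number of accesses of kind `b` outside `P` before time `N`. -/
noncomputable def DFM.cnt (M : DFM K U Q A Γ) (P : A → Prop) (b : Bool) (z : K → Perm U) (N : ℕ) :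
    ℕ :=
  ((range N).filter fun τ => ∃ a, M.acs b τ z (M.run z τ) = some a ∧ ¬ P a).card

/-- Module DS (about 350 lines). A machine with at most `F` accesses of kind `b` is an abstract
computation with few transcripts.
PROOF. Let `q τ = (M.run z τ).1`, `w τ = (M.mv z τ (M.run z τ)).2`; then `(M.run z τ).2 = memo M.init w
τ` (`ACC.memo`). Put `Fm : ACC.FM Unit Unit Unit Q A Γ` with the same `init` and `rd` (the other fields
are arbitrary); `Fm.val q w τ` is the content read and `Fm.recd b q w τ` the record of step `τ`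
(`ACC.recd`: of the write if `b`, of the read with the time of the last write if not `b`).
`X := Q × (Fin r → Q) × Finset (Σ _ : ℕ, Option ℕ × A × Γ)`,
`tr z := (q (r L), fun j => q ((j+1) L), grph (r L) (Fm.recd b q w))`, `st := Prod.fst`,
`hit z j := {i | ∃ τ < r L, τ / L = j ∧ ∃ p, M.qu τ (M.run z τ) = some p ∧ qsrc z p = i}` (as `TR.hit`),
`tg := univ ×ˢ univ ×ˢ smallSets (ACC.recSpace A Γ (r L)) F` (the first component is the last one of the
second if `r > 0`, so that `tg` may be chosen with at most `|Q| ^ (r + 1) * ...` elements in any case).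
Closure (`cl`), as `ACC.hybrid` and `TR.mix_run`: let `tr z = tr z'`, let `z, z'` agree off `F`, `c` a
colouring of the segments. `hrec : ∀ τ < r L, Fm.recd b q w τ = Fm.recd b q' w' τ` by `ACC.grph_inj`.
Claim: for `τ ≤ r L` the run on `mix sd z z'` has the state `mixf c L q q' τ` and its writes before `τ`
are `mixf c L w w'`. Induction: the state by the induction hypothesis; the content read is correct by
`ACC.val_mix`; the answer is correct because the coordinate read is not in `F` if its side is the wrong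
one; at a segment end `q (τ+1) = q' (τ+1)`. Then `tr (mix) = tr z` (the records of the mixture are those
of `z`: for `b = true` the writes agree; for `b = false` the registers read agree, the time of the last
write into the register read is the same for the mixture, `lastw`, and so is the content, by
`memo_mix`), and `hit (mix) j` is `hit z j` or `hit z' j`. `mem_tg`: `grph_sub`, and the number of the
records is the number of the accesses of kind `b` (`grph_card`), at most `F`. The bounds for `hit` are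
as in `TR.hit_card`, `TR.sum_seg_card`; `recSpace_card`, `smallSets_card` for the last clause. -/
def S_DS : Prop :=
  ∀ (K U Q A Γ : Type) [Fintype K] [Fintype U] [DecidableEq K] [DecidableEq U] [Fintype Q]
    [Fintype A] [Fintype Γ] (M : DFM K U Q A Γ) (b : Bool) (L r F : ℕ), 0 < L →
    (∀ z, M.cnt (fun _ => False) b z (r * L) ≤ F) →
    ∃ (X : Type) (Y : DS K U X r) (st : X → Q), (∀ z, st (Y.tr z) = (M.run z (r * L)).1) ∧
      (∀ z j, (Y.hit z j).card ≤ L) ∧ (∀ z, ∑ j, (Y.hit z j).card ≤ r * L) ∧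
      Y.tg.card ≤ Fintype.card Q ^ (r + 1) *
        ((r * L) * ((r * L + 1) * (Fintype.card A * Fintype.card Γ)) + 1) ^ F

variable (M : DFM K U Q A Γ) (P : A → Prop) [DecidablePred P] (b : Bool) (F : ℕ)

/-- The machine with the registers in `P` as a part of the state, stopped (state `none`) before the
access number `F + 1` of kind `b` outside `P`. -/
noncomputable def capm : DFM K U (Option (Fin (F + 1) × Q × ({a : A // P a} → Γ))) A Γ where
  start := some (0, M.start, fun a => M.init a.1)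
  init := M.init
  rd τ s := match s with
    | none => none
    | some (i, q, _) => if b = false ∧ (i : ℕ) = F then none else farR P (M.rd τ q)
  ask τ s γ := match s with
    | none => none
    | some (i, q, ν) =>
      if b = false ∧ (i : ℕ) = F ∧ (farR P (M.rd τ q)).isSome then none
      else M.ask τ q (valOf P (M.rd τ q) ν γ)
  step τ s γ a := match s with
    | none => (none, none)
    | some (i, q, ν) =>
      if ((if b then (farW P (M.step τ q (valOf P (M.rd τ q) ν γ) a).2).isSome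
        else (farR P (M.rd τ q)).isSome) : Bool) then
        (if h : (i : ℕ) + 1 < F + 1 then
          (some (⟨i + 1, h⟩, (M.step τ q (valOf P (M.rd τ q) ν γ) a).1,
            nearW P ν (M.step τ q (valOf P (M.rd τ q) ν γ) a).2),
            farW P (M.step τ q (valOf P (M.rd τ q) ν γ) a).2)
        else (none, none))
      else (some (i, (M.step τ q (valOf P (M.rd τ q) ν γ) a).1,
            nearW P ν (M.step τ q (valOf P (M.rd τ q) ν γ) a).2),
            farW P (M.step τ q (valOf P (M.rd τ q) ν γ) a).2)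

end Det

/-- Module CAP (about 200 lines). The stopped machine.
PROOF. (1) Claim, by induction on `τ`: if `M.cnt P b z τ ≤ F` then `(capm M P b F).run z τ = (some (i,
(M.run z τ).1, ν), c')` with `i = M.cnt P b z τ`, `cont P ν c' = (M.run z τ).2` (`ACC.cont`,
`ACC.valOf_eq`, `ACC.cont_write`); as long as no access number `F + 1` occurs the content given to
`M.ask` and `M.step` is `(M.rd τ q).map (cont P ν c')`. Note: if `b = false`, `i = F` and the read is
not far (`farR = none`), then `rd` is `none` in both cases. (2) If `F < M.cnt P b z τ` then the state of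
the stopped machine at time `τ` is `none`. (3) The number of the accesses of kind `b` made by the
stopped machine before `τ` is at most its counter `i` (at most `F` if it is stopped): an access in the
step at time `τ` increases the counter, and none is made in the step which stops the machine or
later. -/
def S_CAP : Prop :=
  ∀ (K U Q A Γ : Type) (M : DFM K U Q A Γ) (P : A → Prop) [DecidablePred P] (b : Bool) (F : ℕ)
    (z : K → Perm U) (N : ℕ),
    (capm M P b F).cnt (fun _ => False) b z N ≤ F ∧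
    ∀ R : Q → Prop, (∃ i q ν, ((capm M P b F).run z N).1 = some (i, q, ν) ∧ R q) ↔
      (M.cnt P b z N ≤ F ∧ R (M.run z N).1)

section Enc

variable {J B U : Type} {t d w pad : ℕ} (eJ : J ≃ Fin t) (eB : B ≃ Fin d) (eU : U ≃ Fin w)
  {Q A Γ Ω : Type}

open Classical in
/-- The deterministic machine of a seed. -/
noncomputable def dfm (E : B × U → B × U → Prop)
    (M : RMachine (t * w + (d * w + (d * w + pad))) Q A Γ Ω)
    (ω : Ω) : DFM (Bool × (J × B)) U Q A Γ where
  start := M.start ω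
  init := M.init ω
  rd i x := if (M.output x).isSome then none else M.rd ω i x
  ask i x γ := (tr eJ eB eU pad (M.ask ω i x γ)).map qconv
  step i x γ a := if (M.output x).isSome then (x, none) else
    if h : ∃ z : Bool × (J × B) → Perm U,
      ((tr eJ eB eU pad (M.ask ω i x γ)).map qconv).map (qans z) = a then
      M.next ω i x γ (answer (theGraph eJ eB eU pad E (toInp h.choose)) (M.ask ω i x γ))
    else (x, none)

end Enc

/-- Module ENC (about 90 lines). The runs of the two machines agree.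
PROOF. As `HR.dm_run` (`Pool/Agent/Lib_helper21/HR/Encode.lean`): induction on `i` for the first
equation; `answer_eq`, `map_conv`. The second one by unfolding `acs`, `access`, `out` with the first. -/
def S_ENC : Prop :=
  ∀ (J B U : Type) (t d w pad : ℕ) (eJ : J ≃ Fin t) (eB : B ≃ Fin d) (eU : U ≃ Fin w)
    (Q A Γ Ω : Type) (E : B × U → B × U → Prop)
    (M : RMachine (t * w + (d * w + (d * w + pad))) Q A Γ Ω) (ω : Ω)
    (z : Bool × (J × B) → Perm U) (i : ℕ),
    (dfm eJ eB eU E M ω).run z i = M.run ω (theGraph eJ eB eU pad E (toInp z)) i ∧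
    ∀ b, (dfm eJ eB eU E M ω).acs b i z ((dfm eJ eB eU E M ω).run z i) =
      M.access b ω (theGraph eJ eB eU pad E (toInp z)) i

/-! ### probabilities -/

open Classical in
/-- The number of accesses of kind `b` outside `P` before time `N`. -/
noncomputable def fcnt {n : ℕ} {Q A Γ Ω : Type} (M : RMachine n Q A Γ Ω) (P : A → Prop) (b : Bool)
    (ω : Ω) (G : SimpleGraph (Fin n)) (N : ℕ) : ℕ :=
  ((range N).filter fun t => ∃ a, M.access b ω G t = some a ∧ ¬ P a).card

/-- The event: few accesses and the answer `no triangle` by time `N`. -/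
def AE {n : ℕ} {Q A Γ Ω : Type} (M : RMachine n Q A Γ Ω) (P : A → Prop) (b : Bool)
    (G : SimpleGraph (Fin n)) (N F : ℕ) : Set Ω :=
  {ω | fcnt M P b ω G N ≤ F} ∩ {ω | M.out ω G N = some false}

/-- Module RND (about 220 lines). The probability of the event `AE`.
PROOF. As `Pool/Agent/Lib_helper21/HR/Rand.lean`. Measurability: finitely many states and registers
(`HR.meas_pred`, `HR.meas_pair`), `out` is a function of the state. The output is stable (`run` does not
change once the machine has answered). (1) Second clause: `M.cost f b ω G N ≥ N` if `out = none` at `N`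
(every earlier `out` is `none`, all prices are `≥ 0`), so `N P(out N = none) ≤ T ≤ N/20` (Markov; use
`lintegral`), hence `P(out N = none) ≤ 1/20`. (2) `M.cost f b ω G N ≥ φ' * fcnt M P b ω G N`, so
`φ' (F + 1) P(fcnt N ≥ F + 1) ≤ N/20` and `P(fcnt N > F) ≤ 1/10` by `N ≤ 2 φ' (F + 1)`. (3) With
probability at least `2/3` the machine gives the right answer `false`; so
`P(AE) ≥ 2/3 - 1/20 - 1/10 ≥ 1/2`. Third clause: `AE` is contained in the event that the answer is
`false`, which is wrong. -/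
def S_RND : Prop :=
  ∀ (n : ℕ) (Q A Γ Ω : Type) [Fintype Q] [Fintype A] [Fintype Γ] [MeasurableSpace Ω]
    (μ : Measure Ω) [IsProbabilityMeasure μ] (M : RMachine n Q A Γ Ω) (f : A → ℝ) (P : A → Prop)
    (φ' : ℝ) (b : Bool) (G : SimpleGraph (Fin n)) (N F : ℕ), 0 < φ' → (∀ a, 0 ≤ f a) →
    (∀ a, ¬ P a → φ' ≤ f a) → 0 < N → (N : ℝ) ≤ 2 * φ' * (F + 1) →
    (∀ t x, MeasurableSet {ω | (M.run ω G t).1 = x}) →
    (∀ b t y, MeasurableSet {ω | M.access b ω G t = y}) →
    2 / 3 ≤ μ.real {ω | ∃ t b, M.out ω G t = some b ∧ (b = true ↔ ¬ G.CliqueFree 3)} →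
    (∀ m : ℕ, ∫⁻ ω, ENNReal.ofReal (M.cost f b ω G m) ∂μ ≤ ENNReal.ofReal (N / 20)) →
    MeasurableSet (AE M P b G N F) ∧
    (G.CliqueFree 3 → 1 / 2 ≤ μ.real (AE M P b G N F)) ∧
    (¬ G.CliqueFree 3 → μ.real (AE M P b G N F) ≤ 1 / 3)

/-! ### the combined statement -/

/-- The bound for the number of transcripts. -/
def cTr (q γ a near L r F : ℕ) : ℕ :=
  ((F + 1) * (q * γ ^ near) + 1) ^ (r + 1) * ((r * L) * ((r * L + 1) * (a * γ)) + 1) ^ F

/-- Module COMB (about 300 lines; assumes the modules above). No fast machine, under numerical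
conditions.
PROOF. Copy the proof of `HR.no_hr` (`Pool/Agent/Lib_helper21/HR/Combine.lean`), which is the same
statement for another machine: `H = HS J σ hσ`, `N = r * L`; for every seed `ω` the machine
`capm (dfm eJ eB eU (ES σ adj) M ω) P b F` and its abstract computation from `S_DS` (the hypothesis is
the first clause of `S_CAP`); `Acc x := ∃ i q ν, st x = some (i, q, ν) ∧ M.output q = some false`, by
`S_CAP` and `S_ENC` `Acc (Y.tr z) ↔ ω ∈ AE M P b (Gr z) N F`; `HR.det_ineq'` with `δ = 1/60`, `η = 1/20`,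
`S_GOOD`; averaging with `TR.avg_ineq`; `S_RND` for the probabilities (`P(AE) ≥ 1/2` on triangle-free
inputs, no offset is needed, `≤ 1/3` on inputs with one triangle), `TR.ot_bound` and `S_TFC`. The final
inequality is as in `no_hr`. -/
def S_COMB : Prop :=
  ∀ (J B U C CU Q A Γ Ω : Type) [Fintype J] [Fintype B] [AddCommGroup U] [Fintype U] [Fintype C]
    [Fintype CU] [DecidableEq J] [DecidableEq B] [DecidableEq U] [DecidableEq C] [Fintype Q]
    [Fintype A] [Fintype Γ] [MeasurableSpace Ω] (μ : Measure Ω) [IsProbabilityMeasure μ]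
    (σ : C → Perm B) (M0 : ℕ) (γU : CU → U) (t d w pad : ℕ) (eJ : J ≃ Fin t) (eB : B ≃ Fin d)
    (eU : U ≃ Fin w) (M : RMachine (t * w + (d * w + (d * w + pad))) Q A Γ Ω)
    (dg' : Fin (t * w + (d * w + (d * w + pad))) → ℕ) (f : A → ℝ) (P : A → Prop) (φ' : ℝ)
    (b : Bool) (T : ℝ) (near : ℕ) (lamU : ℝ) (L r k g V fF h0 F : ℕ) (Λ : ℝ),
    Simp σ → Sparse σ M0 → Function.Injective γU →
    M.DetectsTriangles μ dg' → M.ExpectedCostLE μ dg' f b T →
    0 < φ' → (∀ a, 0 ≤ f a) → (∀ a, ¬ P a → φ' ≤ f a) → Nat.card {a : A // P a} = near →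
    (∀ z : Inp J B U, HasDegrees (theGraph eJ eB eU pad (ES σ (adjU γU)) z) dg') →
    0 ≤ lamU → (∀ ψ : AddChar U ℂ, ψ ≠ 0 → ‖∑ k, ψ (γU k)‖ ≤ lamU) →
    0 < L → 0 < r → 0 < k → 2 ≤ g → k ≤ g + 2 → (g + 2) ^ k ≤ V → 0 < fF → 0 < Λ →
    M0 * L ≤ Fintype.card B → ((r * L : ℕ) : ℝ) ≤ 2 * φ' * (F + 1) →
    0 < Fintype.card U → 0 < Fintype.card J → 0 < Fintype.card B → 0 < Fintype.card C →
    0 < Fintype.card CU →
    120 * (Fintype.card CU : ℝ) ≤ Fintype.card U → 60 * (lamU * Λ) ≤ Fintype.card CU →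
    2 * ((Fintype.card C : ℝ) * ((r * L : ℕ) : ℝ) / k) + 12 * ((r * L : ℕ) : ℝ) ≤
      1 / 40 * (Fintype.card J * Fintype.card B * Fintype.card C * Fintype.card U) →
    (2 * (Fintype.card C : ℝ) + 8 * k * ((g : ℝ) + 2) ^ k) / V +
      (2 + 8 * (2 * ((Fintype.card J : ℝ) * Fintype.card B) * Fintype.card U) / V +
        2 * k * L) / fF ≤ 1 / 40 →
    40 * ((Fintype.card C : ℝ) * Fintype.card CU) ≤ Fintype.card U →
    480 * (V : ℝ) ^ 2 * ((h0 + 2 * ((Fintype.card J : ℝ) * Fintype.card B) * Fintype.card U /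
        Real.sqrt Λ) + HR.nDesc fF V (cTr (Fintype.card Q) (Fintype.card Γ) (Fintype.card A) near
          L r F) (2 * (Fintype.card J * Fintype.card B) * Fintype.card U) *
        (fF * (2 ^ fF * ((Real.exp 1 / Real.sqrt Λ) ^ h0 *
          (Fintype.card U : ℝ) ^ (2 * (Fintype.card C * Fintype.card CU) *
            (Fintype.card J * Fintype.card B)))))) ≤
      1 / 20 * (Fintype.card J * Fintype.card B * Fintype.card C * Fintype.card U) →
    ((r * L : ℕ) : ℝ) < 20 * T

/-! ### numbers -/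

/-- The exponent of `V`. -/
def K0 : ℕ := 500000000000

/-- Module HM (about 150 lines). The main numerical condition of `S_COMB`.
PROOF. Let `N = t Bc q^3`, `ν = N / D`, `Λ = (q - 1)/120`; `V ^ K0 ≤ Λ` and `V ≥ 2560`. The factor is
`480 V^2 = 49152000 D^2`. (1) `480 V^2 h0 ≤ 0.0164 N D`. (2) `√Λ ≥ V^5 ≥ 10^12 D`, so
`480 V^2 * 2 N/√Λ ≤ 0.001 N D`. (3) The last term: `nDesc * (fF * ...) ≤ 1`, then
`480 V^2 ≤ 0.001 N D` because `N ≥ q^3 ≥ 10^12 D`. For (3) use `TR.prod_le_one` as in `HR.params`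
(`Pool/Agent/Lib_helper21/HR/Params.lean`, end of the proof; `TR.num_ml`, `TR.num_log` are the old
versions): the logarithm of the product is at most
`log cX + fF log V + N/(80 D) + log fF + fF log 2 + h0 - (h0/2) log Λ + 2 (D (q-1) q) (t Bc) 3 log q`,
where `fF log V ≤ 5 ν log V`, `log fF + fF log 2 ≤ 2 fF ≤ 10 ν`, `h0 ≤ ν`, the last term is at most `ν`
(`6 D^2 log q ≤ q`, because `q ≥ 121 V^K0`, `log q ≤ 2 √q`), so the sum of the positive terms without
`log cX` is at most `ν (5 log V + 13) ≤ 18 ν log V`, and `(h0/2) log Λ ≥ ν/(12 * 10^9) log Λ`, half of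
which pays `log cX`, and the other half is `ν/(24 * 10^9) log Λ ≥ ν/(24 * 10^9) K0 log V ≥ 20 ν log V`.
(Check the signs in `TR.prod_le_one` for the exact form of the hypothesis.) -/
def S_HM : Prop :=
  ∀ (t Bc D q V fF h0 cX : ℕ), 0 < t → 0 < Bc → 8 ≤ D → V = 320 * D → 121 * V ^ K0 ≤ q →
    0 < fF → 1 ≤ cX →
    ((t : ℝ) * Bc * q ^ 3 / D) / (6 * 10 ^ 9) ≤ h0 →
    (h0 : ℝ) ≤ ((t : ℝ) * Bc * q ^ 3 / D) / (3 * 10 ^ 9) →
    17 / 4 * ((t : ℝ) * Bc * q ^ 3 / D) ≤ fF → (fF : ℝ) ≤ 5 * ((t : ℝ) * Bc * q ^ 3 / D) →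
    Real.log cX ≤ ((t : ℝ) * Bc * q ^ 3 / D) / (24 * 10 ^ 9) * Real.log (((q : ℝ) - 1) / 120) →
    480 * (V : ℝ) ^ 2 * ((h0 + 2 * ((t : ℝ) * Bc) * (q ^ 3 : ℕ) /
        Real.sqrt (((q : ℝ) - 1) / 120)) + HR.nDesc fF V cX (2 * (t * Bc) * q ^ 3) *
        (fF * (2 ^ fF * ((Real.exp 1 / Real.sqrt (((q : ℝ) - 1) / 120)) ^ h0 *
          ((q ^ 3 : ℕ) : ℝ) ^ (2 * (D * ((q - 1) * q)) * (t * Bc)))))) ≤
      1 / 20 * ((t : ℝ) * Bc * D * (q ^ 3 : ℕ))

/-- Module CX (about 100 lines). The logarithm of the number of transcripts.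
PROOF. `(F+1) (q γ^near) + 1 ≤ s^2 s^κ s^(κ g near) + 1 ≤ s^(3 + κ + κ g near)`, with
`g near ≤ S0`, `1 ≤ S0`: its logarithm is at most `(3 + 2 κ) S0 log s ≤ 2 (κ + 4) S0 log s`.
`(r L)((r L + 1)(a γ)) + 1 ≤ s^(5 + κ + κ g)`, logarithm at most `(5 + 2 κ) g log s`, and
`F (5 + 2 κ) g log s ≤ (r L)/(2 φ) (5 + 2 κ) log s ≤ (r L)/φ (κ + 3) log s`. -/
def S_CX : Prop :=
  ∀ (κ s q γ a near L r F g : ℕ) (S0 φ : ℝ), 3 ≤ s → 1 ≤ g → q ≤ s ^ κ → a ≤ s ^ κ →
    γ ≤ s ^ (κ * g) → (near : ℝ) * g ≤ S0 → 1 ≤ S0 → 0 < φ → r * L + 1 ≤ s ^ 2 →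
    F ≤ r * L → (F : ℝ) ≤ ((r * L : ℕ) : ℝ) / (2 * (φ * g)) →
    1 ≤ cTr q γ a near L r F ∧
    Real.log (cTr q γ a near L r F) ≤ ((r : ℝ) + 1) * (2 * ((κ : ℝ) + 4) * S0 * Real.log s) +
      ((r * L : ℕ) : ℝ) / φ * (((κ : ℝ) + 3) * Real.log s)

/-- The statement `machine is slow` for a number of vertices, a degree sequence and numbers. -/
def Slow (κ s : ℕ) (φ S0 : ℝ) (n : ℕ) (δ : Fin n → ℕ) (x : ℝ) : Prop :=
  ∀ (Q A Γ Ω : Type) [Fintype Q] [Fintype A] [Fintype Γ] [MeasurableSpace Ω]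
    (μ : Measure Ω) [IsProbabilityMeasure μ] (M : RMachine n Q A Γ Ω) (g : ℕ) (f : A → ℝ)
    (b : Bool) (T : ℝ), 1 ≤ g → Fintype.card Q ≤ s ^ κ → Fintype.card A ≤ s ^ κ →
    Fintype.card Γ ≤ s ^ (κ * g) → (∀ a, 0 ≤ f a) →
    (Nat.card {a : A // f a < φ * g} : ℝ) * g ≤ S0 →
    M.DetectsTriangles μ δ → M.ExpectedCostLE μ δ f b T → x ≤ T

/-- The numerical conditions for the parameters `k = gg + 2`, `D`, `q` and the number `Bc` of the
blocks. -/
def Cond (κ s : ℕ) (φ S0 : ℝ) (gg D q Bc : ℕ) : Prop :=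
  2 ≤ gg ∧ 8 * (gg + 2) ^ (gg + 3) ≤ D ∧ 121 * (320 * D) ^ K0 ≤ q ∧ 1 ≤ φ ∧ 1 ≤ S0 ∧
  4 * 10 ^ 9 * (((κ : ℝ) + 4) * ((gg : ℝ) + 2) * D ^ 5 * S0 * Real.log s) ≤
    Bc * Real.log (((q : ℝ) - 1) / 120) ∧
  2 * 10 ^ 8 * (((κ : ℝ) + 3) * ((gg : ℝ) + 2) * D * Real.log s) ≤
    φ * Real.log (((q : ℝ) - 1) / 120)

/-- Module PAR (about 250 lines; assumes `S_COMB`, `S_HM`, `S_CX`). The lower bound for given
parameters.
PROOF. As `HR.params`. `J = Fin t`, `B = Fin m × ZMod D`, `C = ZMod D`, `U = Blk q 0 × Inn q`,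
`CU = Gen q`, `γU = gen` (`gen_inj0`, `char_sum_gen`, `card_BI q 0`, `card_gen`), `lamU = 2 q` (in the
form of `HR.params`: `((0 : ℕ) + 2) * q`), `Λ = (q-1)/120`, `V = 320 D`, `k = gg + 2`, `M0 = 3 D^4`,
`N := t (m D) q^3` (number of coordinates of a side), `ν = N / D`. By `TR.exists_half`: `L` with
`m D/(6 D^4) ≤ L ≤ m D/(3 D^4)` (`m D ≥ 3 D^4` by the sixth condition, since `log ((q-1)/120) ≤ log s`
because `q ≤ N ≤ s`), then `r` with `k N/(640 L) ≤ r ≤ k N/(320 L)`, so `k N ≤ 640 r L`,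
`320 r L ≤ k N`; `h0` with `ν/(6*10^9) ≤ h0 ≤ ν/(3*10^9)`; `fF = ⌊5 ν⌋`. For a machine let
`P a := f a < φ g`, `φ' = φ g`, `near = Nat.card {a // P a}`, `F = ⌊r L/(2 φ g)⌋`. The conditions of
`S_COMB`: `2 (D rL/k) + 12 rL ≤ N D/40` since `12 k ≤ 6 D`; `(2 D + 8 k (gg+2)^k)/V ≤ 3/320`,
`(2 + 16 N/V + 2 k L)/fF ≤ (N/(20 D) + small)/fF ≤ 4/340 + 0.002`; `40 D (q-1) q ≤ q^3`; `hmain` by
`S_HM` with `cX = cTr ...`, where by `S_CX`
`log cX ≤ (r+1) 2 (κ+4) S0 log s + (rL/φ) (κ+3) log s`, `r + 1 ≤ 2 r ≤ 2 (k N/320) 6 D^4/(m D)`, and the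
two terms are at most `ν/(48*10^9) log Λ` each by the sixth and the seventh condition. Conclusion
`r L < 20 T`, hence `k N ≤ 12800 T`. -/
def S_PAR : Prop :=
  ∀ (κ s : ℕ) (φ S0 : ℝ) (gg D q m t pad d w : ℕ) [NeZero D] [Fact q.Prime]
    (σ : ZMod D → Perm (Fin m × ZMod D)) (eB : (Fin m × ZMod D) ≃ Fin d)
    (eU : (Blk q 0 × Inn q) ≃ Fin w) (dg' : Fin (t * w + (d * w + (d * w + pad))) → ℕ),
    Simp σ → Sparse σ (3 * D ^ 4) → 3 ≤ s → 0 < m → 0 < t → Cond κ s φ S0 gg D q (m * D) →
    t * (m * D) * q ^ 3 ≤ s →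
    (∀ z : Inp (Fin t) (Fin m × ZMod D) (Blk q 0 × Inn q),
      HasDegrees (theGraph (Equiv.refl (Fin t)) eB eU pad
        (ES σ (adjU (gen : Gen q → Blk q 0 × Inn q))) z) dg') →
    Slow κ s φ S0 (t * w + (d * w + (d * w + pad))) dg'
      (((gg : ℝ) + 2) * (t * (m * D) * (q : ℝ) ^ 3) / 12800)

/-- Module SIZ (about 130 lines; assumes `S_PAR`, `S_EXP`, `S_TFC`). Graphs of every size.
PROOF. As `HR.bound_primes` (`Pool/Agent/Lib_helper21/HR/Final.lean`): `σ` from `S_EXP`,
`b = (m D) q^3`, `t = s / (8 b)`, `s ≤ 16 t b`, `E = ES σ (adjU gen)` has at most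
`(m D) q^3 (D (q-1) q) ≤ (m D) D q^5 ≤ s/16` edges, `pad = s - base`, the degree sequence `dg` and
`sum_dg`. -/
def S_SIZ : Prop :=
  ∀ (κ s : ℕ) (φ S0 : ℝ) (gg D q m : ℕ) [Fact q.Prime], 3 ≤ s → 0 < m → 0 < D →
    Cond κ s φ S0 gg D q (m * D) → 16 * ((m * D) * D * q ^ 5) ≤ s →
    ∃ (n : ℕ) (δ : Fin n → ℕ), 2 * n + ∑ v, δ v = 2 * s ∧
      Slow κ s φ S0 n δ (((gg : ℝ) + 2) * s / 204800)

/-- Module CHO (about 250 lines). The choice of the parameters.
PROOF. Let `M = min (log s) (log φ)`, large (`≥ M₀(κ, ε)`); `c3 = ε / (40 K0)`,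
`k = ⌊c3 M / log M⌋ ≥ 4`, `gg = k - 2`, `D = 8 k^(k+1)`. As `k ≤ M` and `k log k ≤ c3 M`:
`D ≤ 8 M exp (c3 M)`. Let `q` be a prime with `s^(ε/10) ≤ q ≤ 4 s^(ε/10)` (`Nat.exists_prime_lt_and_le_two_mul`
for `⌈s^(ε/10)⌉`). (1) `121 (320 D)^K0 ≤ 121 (2560 M)^K0 exp (c3 K0 M) ≤ exp (ε M/10) ≤ s^(ε/10)`
for large `M`, since `c3 K0 = ε/40` and `log s ≥ M`. (2) `log ((q-1)/120) ≥ (ε/20) log s` for large `s`.
(3) `S0 = s^(1-ε)`, `m := ⌈(80 * 10^9/ε) (κ+4) k D^4 s^(1-ε)⌉`, which gives the sixth condition.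
(4) Seventh condition: `(4 * 10^9/ε)(κ+3) k D ≤ exp M ≤ φ`: the left side is at most
`C M^2 exp (c3 M)`. (5) Size: `m D ≤ 2 (80 * 10^9/ε) (κ+4) k D^5 s^(1-ε)`, `q^5 ≤ 1024 s^(ε/2)`, so
`16 (m D) D q^5 ≤ C' k D^6 s^(1 - ε/2) ≤ s` since `C' k D^6 ≤ C' M (8 M)^6 exp (6 c3 M) ≤ s^(ε/2)`.
(6) `k ≥ (c3/2) M/log M`. Take `c = c3/2`. -/
def S_CHO : Prop :=
  ∀ (κ : ℕ) (ε : ℝ), 0 < ε → ε ≤ 1 → ∃ c : ℝ, 0 < c ∧ ∃ s₀ : ℕ, 3 ≤ s₀ ∧
    ∀ (s : ℕ) (φ : ℝ), s₀ ≤ s → (s₀ : ℝ) ≤ φ → ∃ gg D q m : ℕ, q.Prime ∧ 0 < m ∧ 0 < D ∧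
      Cond κ s φ ((s : ℝ) ^ (1 - ε)) gg D q (m * D) ∧ 16 * ((m * D) * D * q ^ 5) ≤ s ∧
      c * (min (Real.log s) (Real.log φ) / Real.log (min (Real.log s) (Real.log φ))) ≤
        (gg : ℝ) + 2

end Pool.Agent.RAC
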