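import Mathlib
import Pool.Agent.RAC.Stmts

/-!
# Existence of locally sparse simple regular bipartite graphs
-/

set_option autoImplicit false

namespace Pool.Agent.RAC

open Finset Equiv

private lemma EXP_choose (a b : ℕ) (hb : 0 < b) :
    (a.choose b : ℝ) ≤ (Real.exp 1 * a / b) ^ b := by
  have h1 : (a.choose b : ℝ) ≤ (a : ℝ) ^ b / (b.factorial : ℝ) := Nat.choose_le_pow_div b a
  have h2 : (b : ℝ) ^ b / (b.factorial : ℝ) ≤ Real.exp b :=
    Real.pow_div_factorial_le_exp (b : ℝ) (by positivity) b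
  have hb' : (0 : ℝ) < b := by exact_mod_cast hb
  have hf : (0 : ℝ) < (b.factorial : ℝ) := by exact_mod_cast Nat.factorial_pos b
  have h3 : (Real.exp 1 * a / b) ^ b = (a : ℝ) ^ b * Real.exp b / (b : ℝ) ^ b := by
    rw [div_pow, mul_pow, ← Real.exp_nat_mul]
    rw [mul_one]
    ring
  rw [h3]
  refine h1.trans ?_
  rw [div_le_div_iff₀ hf (by positivity)]
  rw [div_le_iff₀ hf] at h2
  nlinarith [mul_le_mul_of_nonneg_left h2 (by positivity : (0 : ℝ) ≤ (a : ℝ) ^ b)]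

private lemma EXP_e6 : Real.exp 1 ^ 6 ≤ 576 := by
  have h := Real.exp_one_lt_d9
  have h1 : Real.exp 1 ≤ 2.72 := by linarith
  have h0 : 0 ≤ Real.exp 1 := (Real.exp_pos 1).le
  calc Real.exp 1 ^ 6 ≤ 2.72 ^ 6 := pow_le_pow_left₀ h0 h1 6
    _ ≤ 576 := by norm_num

private lemma EXP_term (m D x : ℕ) (hm : 0 < m) (hD : 0 < D) (hx : 0 < x)
    (h : 3 * D ^ 4 * x ≤ m * D) :
    (((m * D).choose x : ℕ) : ℝ) * (((m * D).choose x : ℕ) : ℝ) *
      ((((x * D).choose (4 * x) : ℕ) : ℝ) * ((x : ℝ) / m) ^ (4 * x)) ≤ (1 / 4) ^ x := by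
  have hm' : (0 : ℝ) < m := by exact_mod_cast hm
  have hD' : (0 : ℝ) < D := by exact_mod_cast hD
  have hx' : (0 : ℝ) < x := by exact_mod_cast hx
  have h1 := EXP_choose (m * D) x hx
  have h2 := EXP_choose (x * D) (4 * x) (by omega)
  have h3 : 3 * (D : ℝ) ^ 3 * x ≤ m := by
    have h4 : 3 * (D : ℝ) ^ 4 * x ≤ m * D := by exact_mod_cast h
    have h5 : 3 * (D : ℝ) ^ 3 * x * D ≤ m * D := by nlinarith [h4]
    exact le_of_mul_le_mul_right h5 hD'
  have hin : (Real.exp 1 * ((m * D : ℕ) : ℝ) / x) ^ 2 *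
      ((Real.exp 1 * ((x * D : ℕ) : ℝ) / ((4 * x : ℕ) : ℝ)) ^ 4 * ((x : ℝ) / m) ^ 4) ≤ 1 / 4 := by
    have he : (Real.exp 1 * ((m * D : ℕ) : ℝ) / x) ^ 2 *
      ((Real.exp 1 * ((x * D : ℕ) : ℝ) / ((4 * x : ℕ) : ℝ)) ^ 4 * ((x : ℝ) / m) ^ 4) =
        Real.exp 1 ^ 6 / 256 * ((D : ℝ) ^ 3 * x / m) ^ 2 := by
      push_cast
      field_simp
      ring
    rw [he]
    have h6 : (D : ℝ) ^ 3 * x / m ≤ 1 / 3 := by
      rw [div_le_div_iff₀ hm' (by norm_num)]
      linarith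
    have h7 : ((D : ℝ) ^ 3 * x / m) ^ 2 ≤ (1 / 3) ^ 2 :=
      pow_le_pow_left₀ (by positivity) h6 2
    calc Real.exp 1 ^ 6 / 256 * ((D : ℝ) ^ 3 * x / m) ^ 2 ≤ 576 / 256 * (1 / 3) ^ 2 := by
          apply mul_le_mul _ h7 (by positivity) (by norm_num)
          have := EXP_e6
          linarith
      _ = 1 / 4 := by norm_num
  calc (((m * D).choose x : ℕ) : ℝ) * (((m * D).choose x : ℕ) : ℝ) *
      ((((x * D).choose (4 * x) : ℕ) : ℝ) * ((x : ℝ) / m) ^ (4 * x))
      ≤ (Real.exp 1 * ((m * D : ℕ) : ℝ) / x) ^ x * (Real.exp 1 * ((m * D : ℕ) : ℝ) / x) ^ x *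
        ((Real.exp 1 * ((x * D : ℕ) : ℝ) / ((4 * x : ℕ) : ℝ)) ^ (4 * x) *
          ((x : ℝ) / m) ^ (4 * x)) := by
        gcongr
    _ = ((Real.exp 1 * ((m * D : ℕ) : ℝ) / x) ^ 2 *
      ((Real.exp 1 * ((x * D : ℕ) : ℝ) / ((4 * x : ℕ) : ℝ)) ^ 4 * ((x : ℝ) / m) ^ 4)) ^ x := by
        rw [mul_pow, mul_pow, ← pow_mul, ← pow_mul, ← pow_mul, ← pow_add, two_mul]
    _ ≤ (1 / 4) ^ x := pow_le_pow_left₀ (by positivity) hin x

private lemma EXP_geom (K : ℕ) : ∑ y ∈ range K, (1 / 4 : ℝ) ^ (y + 1) = (1 - (1 / 4) ^ K) / 3 := by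
  induction K with
  | zero => simp
  | succ K ih => rw [sum_range_succ, ih]; ring

private lemma EXP_edg_mono {B C : Type} [Fintype B] [Fintype C] (σ : C → Perm B)
    {X X' Y Y' : Finset B} (hX : X ⊆ X') (hY : Y ⊆ Y') : edg σ X Y ≤ edg σ X' Y' := by
  unfold edg
  apply card_le_card
  intro p hp
  simp only [mem_filter, mem_univ, true_and] at hp ⊢
  exact ⟨hX hp.1, hY hp.2⟩

/-- The bad sets. -/
private lemma EXP_bad {B C : Type} [Fintype B] [Fintype C] [DecidableEq B] [DecidableEq C]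
    (σ : C → Perm B) (M : ℕ) (hM : 0 < M) (h : ¬ Sparse σ M) :
    ∃ (y : ℕ) (X Y : Finset B) (S : Finset (B × C)), M * (y + 1) ≤ Fintype.card B ∧
      X.card = y + 1 ∧ Y.card = y + 1 ∧ S ⊆ X ×ˢ univ ∧ S.card = 4 * (y + 1) ∧
      ∀ p ∈ S, σ p.2 p.1 ∈ Y := by
  unfold Sparse at h
  push Not at h
  obtain ⟨X, Y, hX, hY, hXY⟩ := h
  obtain ⟨x, hx⟩ : ∃ x, x = max X.card Y.card := ⟨_, rfl⟩
  have hxM : M * x ≤ Fintype.card B := by
    rw [hx]
    rcases le_total X.card Y.card with h | h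
    · rwa [max_eq_right h]
    · rwa [max_eq_left h]
  have hxB : x ≤ (univ : Finset B).card := by
    rw [card_univ]
    exact (Nat.le_mul_of_pos_left x hM).trans hxM
  obtain ⟨X', hXX, -, hX'⟩ := exists_subsuperset_card_eq (subset_univ X)
    (hx ▸ le_max_left _ _ : X.card ≤ x) hxB
  obtain ⟨Y', hYY, -, hY'⟩ := exists_subsuperset_card_eq (subset_univ Y)
    (hx ▸ le_max_right _ _ : Y.card ≤ x) hxB
  have h1 : 4 * x < edg σ X' Y' := by
    rw [hx]
    exact hXY.trans_le (EXP_edg_mono σ hXX hYY)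
  have hx0 : x ≠ 0 := by
    intro h0
    have h2 : X' = ∅ := by
      rw [← card_eq_zero, hX', h0]
    rw [h2] at h1
    simp [edg] at h1
  obtain ⟨y, rfl⟩ := Nat.exists_eq_succ_of_ne_zero hx0
  obtain ⟨S, hS, hSc⟩ := exists_subset_card_eq h1.le
  refine ⟨y, X', Y', S, hxM, hX', hY', ?_, hSc, ?_⟩
  · intro p hp
    have := hS hp
    simp only [mem_filter, mem_univ, true_and] at this
    simp [this.1]
  · intro p hp
    have := hS hp
    simp only [mem_filter, mem_univ, true_and] at this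
    exact this.2

private lemma EXP_simp {α C : Type} [AddCommGroup C] (ρ : C × C → Perm α) :
    Simp (fun c => lift ρ c) := by
  intro b c c' h
  have h1 := congrArg Prod.snd h
  simpa [lift] using h1

open Classical in
private lemma EXP_main (h : S_LIFT) (α C : Type) [Fintype α] [Fintype C] [AddCommGroup C]
    (m D : ℕ) (hα : Fintype.card α = m) (hC : Fintype.card C = D) (hD : 0 < D) :
    ∃ ρ : C × C → Perm α, Sparse (fun c => lift ρ c) (3 * D ^ 4) := by
  by_contra hcon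
  push Not at hcon
  have hM : 0 < 3 * D ^ 4 := by positivity
  have hcardB : Fintype.card (α × C) = m * D := by
    rw [Fintype.card_prod, hα, hC]
  have hm : 0 < m := by
    by_contra h0
    obtain ⟨y, X, Y, S, h1, -⟩ := EXP_bad _ _ hM (hcon fun _ => 1)
    rw [hcardB] at h1
    have h2 : m = 0 := by omega
    rw [h2, zero_mul] at h1
    have h3 : 0 < 3 * D ^ 4 * (y + 1) := by positivity
    omega
  let bad : Finset ((α × C) × C) → Finset (α × C) → Finset (C × C → Perm α) := fun S Y =>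
    (univ : Finset (C × C → Perm α)).filter fun ρ => ∀ p ∈ S, lift ρ p.2 p.1 ∈ Y
  let R : Finset ℕ := (range (m * D)).filter fun y => 3 * D ^ 4 * (y + 1) ≤ m * D
  let PP : ℕ → Finset (Finset (α × C) × Finset (α × C)) := fun y =>
    powersetCard (y + 1) univ ×ˢ powersetCard (y + 1) univ
  let SS : ℕ → Finset (α × C) → Finset (Finset ((α × C) × C)) := fun y X =>
    powersetCard (4 * (y + 1)) (X ×ˢ univ)
  have hcov : (univ : Finset (C × C → Perm α)) ⊆
      R.biUnion fun y => (PP y).biUnion fun XY => (SS y XY.1).biUnion fun S => bad S XY.2 := by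
    intro ρ _
    obtain ⟨y, X, Y, S, h1, h2, h3, h4, h5, h6⟩ := EXP_bad _ _ hM (hcon ρ)
    rw [hcardB] at h1
    simp only [mem_biUnion]
    refine ⟨y, ?_, (X, Y), ?_, S, ?_, ?_⟩
    · simp only [R, mem_filter, mem_range]
      refine ⟨?_, h1⟩
      have := Nat.le_mul_of_pos_left (y + 1) hM
      omega
    · simp only [PP, mem_product, mem_powersetCard]
      exact ⟨⟨subset_univ _, h2⟩, subset_univ _, h3⟩
    · simp only [SS, mem_powersetCard]
      exact ⟨h4, h5⟩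
    · simp only [bad, mem_filter, mem_univ, true_and]
      exact h6
  obtain ⟨N, hN⟩ : ∃ N : ℕ, N = Fintype.card (C × C → Perm α) := ⟨_, rfl⟩
  have hN0 : (0 : ℝ) < N := by
    rw [hN]
    exact_mod_cast Fintype.card_pos
  have hm' : (0 : ℝ) < m := by exact_mod_cast hm
  have hone : ∀ y, ∀ XY ∈ PP y, ∀ S ∈ SS y XY.1,
      ((bad S XY.2).card : ℝ) ≤ (((y + 1 : ℕ) : ℝ) / m) ^ (4 * (y + 1)) * N := by
    intro y XY hXY S hS
    simp only [PP, mem_product, mem_powersetCard] at hXY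
    simp only [SS, mem_powersetCard] at hS
    have h1 := h α C S XY.2
    rw [hα, hS.2, hXY.2.2, ← hN] at h1
    have h2 : ((bad S XY.2).card : ℝ) * (m : ℝ) ^ (4 * (y + 1)) ≤
        ((y + 1 : ℕ) : ℝ) ^ (4 * (y + 1)) * N := by
      exact_mod_cast h1
    rw [div_pow, div_mul_eq_mul_div, le_div_iff₀ (by positivity)]
    exact h2
  have hsum : (N : ℝ) ≤ ∑ y ∈ R, (1 / 4 : ℝ) ^ (y + 1) * N := by
    have h1 : (N : ℝ) ≤ ∑ y ∈ R, ∑ XY ∈ PP y, ∑ S ∈ SS y XY.1, ((bad S XY.2).card : ℝ) := by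
      have h2 : N ≤ ∑ y ∈ R, ∑ XY ∈ PP y, ∑ S ∈ SS y XY.1, (bad S XY.2).card := by
        rw [hN, ← card_univ]
        refine (card_le_card hcov).trans ?_
        refine card_biUnion_le.trans ?_
        refine sum_le_sum fun y _ => ?_
        refine card_biUnion_le.trans ?_
        refine sum_le_sum fun XY _ => ?_
        exact card_biUnion_le
      exact_mod_cast h2
    refine h1.trans ?_
    refine sum_le_sum fun y hy => ?_
    simp only [R, mem_filter, mem_range] at hy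
    have h3 : ∀ XY ∈ PP y, ∑ S ∈ SS y XY.1, ((bad S XY.2).card : ℝ) ≤
        ((((y + 1) * D).choose (4 * (y + 1)) : ℕ) : ℝ) *
          ((((y + 1 : ℕ) : ℝ) / m) ^ (4 * (y + 1)) * N) := by
      intro XY hXY
      refine (sum_le_sum fun S hS => hone y XY hXY S hS).trans ?_
      rw [sum_const, nsmul_eq_mul]
      have h4 : (SS y XY.1).card = ((y + 1) * D).choose (4 * (y + 1)) := by
        simp only [PP, mem_product, mem_powersetCard] at hXY
        simp only [SS]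
        rw [card_powersetCard, card_product, hXY.1.2, card_univ, hC]
      rw [h4]
    refine (sum_le_sum h3).trans ?_
    rw [sum_const, nsmul_eq_mul]
    have h5 : (PP y).card = (m * D).choose (y + 1) * (m * D).choose (y + 1) := by
      simp only [PP]
      rw [card_product, card_powersetCard, card_univ, hcardB]
    rw [h5]
    have h6 := EXP_term m D (y + 1) hm hD (by omega) hy.2
    have h7 := mul_le_mul_of_nonneg_right h6 hN0.le
    push_cast at h7 ⊢
    calc _ = _ := ?_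
      _ ≤ _ := h7
    ring
  rw [← sum_mul] at hsum
  have h8 : ∑ y ∈ R, (1 / 4 : ℝ) ^ (y + 1) ≤ ∑ y ∈ range (m * D), (1 / 4 : ℝ) ^ (y + 1) :=
    sum_le_sum_of_subset_of_nonneg (filter_subset _ _) fun _ _ _ => by positivity
  rw [EXP_geom] at h8
  have h9 : (0 : ℝ) ≤ (1 / 4) ^ (m * D) := by positivity
  nlinarith

theorem t_EXP (h : S_LIFT) : S_EXP := by
  intro m D _
  obtain ⟨ρ, hρ⟩ := EXP_main h (Fin m) (ZMod D) m D (Fintype.card_fin m) (ZMod.card D)
    (Nat.pos_of_ne_zero (NeZero.ne D))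
  exact ⟨_, EXP_simp ρ, hρ⟩

end Pool.Agent.RAC
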