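import Mathlib
import Pool.Agent.RAC.Stmts

/-!
# The number of lifts for which a given set of edges goes into a given set (`S_LIFT`)
-/

set_option autoImplicit false

namespace Pool.Agent.RAC

open Finset Equiv

open Classical in
private theorem lift_aux_card {α C : Type} [Fintype α] [Fintype C] (S : Finset ((α × C) × C)) :
    S.card = ∑ κ : C × C, ((Finset.univ : Finset α).filter fun x => ((x, κ.1), κ.2) ∈ S).card := by
  have h := Finset.card_eq_sum_card_fiberwise (f := fun p : (α × C) × C => (p.1.2, p.2))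
    (s := S) (t := (Finset.univ : Finset (C × C))) (fun _ _ => Finset.mem_coe.2 (Finset.mem_univ _))
  rw [h]
  refine Finset.sum_congr rfl fun κ _ => ?_
  refine Finset.card_bij' (fun p _ => p.1.1) (fun x _ => ((x, κ.1), κ.2)) ?_ ?_ ?_ ?_
  · rintro ⟨⟨x, a⟩, c⟩ hp
    rw [Finset.mem_filter] at hp
    obtain ⟨h1, h2⟩ := hp
    obtain rfl := h2
    exact Finset.mem_filter.2 ⟨Finset.mem_univ _, h1⟩
  · intro x hx
    rw [Finset.mem_filter] at hx ⊢
    exact ⟨hx.2, rfl⟩
  · rintro ⟨⟨x, a⟩, c⟩ hp
    rw [Finset.mem_filter] at hp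
    obtain ⟨h1, h2⟩ := hp
    obtain rfl := h2
    rfl
  · intro x hx
    rfl

/-- Module LIFT. -/
theorem t_LIFT (h : S_PERM) : S_LIFT := by
  classical
  intro α C _ _ _ S Y
  set A : C × C → Finset α := fun κ => Finset.univ.filter fun x => ((x, κ.1), κ.2) ∈ S with hA
  set B : C × C → Finset α := fun κ => Finset.univ.filter fun y => (y, κ.1 + κ.2) ∈ Y with hB
  have hBY : ∀ κ, (B κ).card ≤ Y.card := by
    intro κ
    refine Finset.card_le_card_of_injOn (fun y => (y, κ.1 + κ.2)) ?_ ?_
    · intro y hy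
      exact Finset.mem_coe.2 (Finset.mem_filter.1 (Finset.mem_coe.1 hy)).2
    · intro y _ y' _ hyy
      exact (Prod.mk.inj hyy).1
  have hfil : ((Finset.univ : Finset (C × C → Perm α)).filter fun ρ =>
      ∀ p ∈ S, lift ρ p.2 p.1 ∈ Y) =
      Fintype.piFinset (fun κ => (Finset.univ : Finset (Perm α)).filter fun ρ =>
        ∀ a ∈ A κ, ρ a ∈ B κ) := by
    ext ρ
    simp only [Finset.mem_filter, Finset.mem_univ, true_and, Fintype.mem_piFinset, hA, hB]
    constructor
    · intro hρ κ a ha
      exact hρ ((a, κ.1), κ.2) ha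
    · rintro hρ ⟨⟨x, a⟩, c⟩ hp
      exact hρ (a, c) x hp
  have hSc : S.card = ∑ κ : C × C, (A κ).card := lift_aux_card S
  have hcardU : Fintype.card (C × C → Perm α) = ∏ _κ : C × C, (Fintype.card α).factorial := by
    rw [Fintype.card_pi]
    exact Finset.prod_congr rfl fun _ _ => Fintype.card_perm
  rw [hfil, Fintype.card_piFinset, hSc, ← Finset.prod_pow_eq_pow_sum, ← Finset.prod_pow_eq_pow_sum,
    ← Finset.prod_mul_distrib, hcardU, ← Finset.prod_mul_distrib]
  refine Finset.prod_le_prod' fun κ _ => ?_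
  calc ((Finset.univ : Finset (Perm α)).filter fun ρ => ∀ a ∈ A κ, ρ a ∈ B κ).card *
        Fintype.card α ^ (A κ).card
      ≤ (B κ).card ^ (A κ).card * (Fintype.card α).factorial := by
        have := h α (A κ) (B κ)
        convert this using 2
    _ ≤ Y.card ^ (A κ).card * (Fintype.card α).factorial :=
        Nat.mul_le_mul_right _ (Nat.pow_le_pow_left (hBY κ) _)

end Pool.Agent.RAC
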