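import Mathlib
import Pool.Agent.RAC.Stmts

/-!
# RAC, module PERM: the number of permutations mapping a set into a set
-/

set_option autoImplicit false

namespace Pool.Agent.RAC

open Finset Equiv

private lemma perm_above {α : Type} [Fintype α] [DecidableEq α] (A Y : Finset α) (ρ : Perm α)
    (h : ∀ a ∈ A, ρ a ∈ Y) :
    ((Finset.univ \ A).filter fun b => ρ b ∈ Y).card = Y.card - A.card := by
  have h1 : ((Finset.univ \ A).filter fun b => ρ b ∈ Y) = (Y.map ρ.symm.toEmbedding) \ A := by
    ext b
    simp only [Finset.mem_filter, Finset.mem_sdiff, Finset.mem_univ, true_and, Finset.mem_map,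
      Equiv.coe_toEmbedding]
    constructor
    · rintro ⟨h1, h2⟩
      exact ⟨⟨ρ b, h2, by simp⟩, h1⟩
    · rintro ⟨⟨y, hy, rfl⟩, h2⟩
      exact ⟨h2, by simpa using hy⟩
  have h2 : A ⊆ Y.map ρ.symm.toEmbedding := by
    intro a ha
    rw [Finset.mem_map]
    exact ⟨ρ a, h a ha, by simp⟩
  rw [h1, Finset.card_sdiff_of_subset h2, Finset.card_map]

private lemma perm_below {α : Type} [Fintype α] [DecidableEq α] (A Y : Finset α) (a b : α)
    (ha : a ∉ A) (hb : b ∉ A) :
    (((Finset.univ : Finset (Perm α)).filter fun ρ => ∀ x ∈ A, ρ x ∈ Y).filter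
      fun ρ => ρ b ∈ Y).card =
    ((Finset.univ : Finset (Perm α)).filter fun ρ => ∀ x ∈ insert a A, ρ x ∈ Y).card := by
  refine Finset.card_bij' (fun ρ _ => ρ * swap a b) (fun ρ _ => ρ * swap a b) ?_ ?_ ?_ ?_
  · intro ρ hρ
    simp only [Finset.mem_filter, Finset.mem_univ, true_and] at hρ ⊢
    intro x hx
    rcases Finset.mem_insert.mp hx with rfl | hx
    · simpa using hρ.2
    · have h1 : x ≠ a := fun h => ha (h ▸ hx)
      have h2 : x ≠ b := fun h => hb (h ▸ hx)
      rw [Perm.mul_apply, swap_apply_of_ne_of_ne h1 h2]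
      exact hρ.1 x hx
  · intro ρ hρ
    simp only [Finset.mem_filter, Finset.mem_univ, true_and] at hρ ⊢
    constructor
    · intro x hx
      have h1 : x ≠ a := fun h => ha (h ▸ hx)
      have h2 : x ≠ b := fun h => hb (h ▸ hx)
      rw [Perm.mul_apply, swap_apply_of_ne_of_ne h1 h2]
      exact hρ x (Finset.mem_insert_of_mem hx)
    · rw [Perm.mul_apply, swap_apply_right]
      exact hρ a (Finset.mem_insert_self a A)
  · intro ρ _
    simp [mul_assoc]
  · intro ρ _
    simp [mul_assoc]

private lemma perm_step {α : Type} [Fintype α] [DecidableEq α] (A Y : Finset α) (a : α)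
    (ha : a ∉ A) :
    (Y.card - A.card) * ((Finset.univ : Finset (Perm α)).filter fun ρ => ∀ x ∈ A, ρ x ∈ Y).card =
    (Fintype.card α - A.card) *
      ((Finset.univ : Finset (Perm α)).filter fun ρ => ∀ x ∈ insert a A, ρ x ∈ Y).card := by
  have h := Finset.sum_card_bipartiteAbove_eq_sum_card_bipartiteBelow
    (s := (Finset.univ : Finset (Perm α)).filter fun ρ => ∀ x ∈ A, ρ x ∈ Y)
    (t := Finset.univ \ A) (fun (ρ : Perm α) (b : α) => ρ b ∈ Y)
  have h1 : ∀ ρ ∈ (Finset.univ : Finset (Perm α)).filter (fun ρ => ∀ x ∈ A, ρ x ∈ Y),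
      (Finset.bipartiteAbove (fun (ρ : Perm α) (b : α) => ρ b ∈ Y) (Finset.univ \ A) ρ).card =
        Y.card - A.card := by
    intro ρ hρ
    rw [Finset.mem_filter] at hρ
    exact perm_above A Y ρ hρ.2
  have h2 : ∀ b ∈ (Finset.univ \ A : Finset α),
      (Finset.bipartiteBelow (fun (ρ : Perm α) (b : α) => ρ b ∈ Y)
        ((Finset.univ : Finset (Perm α)).filter (fun ρ => ∀ x ∈ A, ρ x ∈ Y)) b).card =
      ((Finset.univ : Finset (Perm α)).filter fun ρ => ∀ x ∈ insert a A, ρ x ∈ Y).card := by
    intro b hb
    rw [Finset.mem_sdiff] at hb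
    exact perm_below A Y a b ha hb.2
  rw [Finset.sum_congr rfl h1, Finset.sum_congr rfl h2, Finset.sum_const, Finset.sum_const,
    smul_eq_mul, smul_eq_mul, Finset.card_sdiff_of_subset (Finset.subset_univ A),
    Finset.card_univ] at h
  rw [mul_comm, h]

private lemma perm_main {α : Type} [Fintype α] [DecidableEq α] (Y : Finset α) (A : Finset α) :
    ((Finset.univ : Finset (Perm α)).filter fun ρ => ∀ a ∈ A, ρ a ∈ Y).card *
      Fintype.card α ^ A.card ≤ Y.card ^ A.card * (Fintype.card α).factorial := by
  induction A using Finset.induction_on with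
  | empty =>
    simp [Fintype.card_perm]
  | insert a A ha ih =>
    have hst := perm_step A Y a ha
    set F := ((Finset.univ : Finset (Perm α)).filter fun ρ => ∀ x ∈ A, ρ x ∈ Y).card with hF
    set G := ((Finset.univ : Finset (Perm α)).filter fun ρ => ∀ x ∈ insert a A, ρ x ∈ Y).card
      with hG
    have hyn : Y.card ≤ Fintype.card α := Finset.card_le_univ Y
    have hAn : A.card < Fintype.card α := by
      have h := Finset.card_le_univ (insert a A)
      rw [Finset.card_insert_of_notMem ha] at h
      omega
    -- n * G ≤ y * F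
    have hkey : Fintype.card α * G ≤ Y.card * F := by
      have hpos : 0 < Fintype.card α - A.card := by omega
      have h1 : Fintype.card α * (Y.card - A.card) ≤ Y.card * (Fintype.card α - A.card) := by
        rw [Nat.mul_sub, Nat.mul_sub, mul_comm (Fintype.card α) Y.card]
        exact Nat.sub_le_sub_left (Nat.mul_le_mul_right _ hyn) _
      have h2 : (Fintype.card α - A.card) * (Fintype.card α * G) ≤
          (Fintype.card α - A.card) * (Y.card * F) := by
        calc (Fintype.card α - A.card) * (Fintype.card α * G)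
            = Fintype.card α * ((Fintype.card α - A.card) * G) := by ring
          _ = Fintype.card α * ((Y.card - A.card) * F) := by rw [hst]
          _ = (Fintype.card α * (Y.card - A.card)) * F := by ring
          _ ≤ (Y.card * (Fintype.card α - A.card)) * F := Nat.mul_le_mul_right _ h1
          _ = (Fintype.card α - A.card) * (Y.card * F) := by ring
      exact Nat.le_of_mul_le_mul_left h2 hpos
    rw [Finset.card_insert_of_notMem ha, pow_succ, pow_succ]
    calc G * (Fintype.card α ^ A.card * Fintype.card α)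
        = (Fintype.card α * G) * Fintype.card α ^ A.card := by ring
      _ ≤ (Y.card * F) * Fintype.card α ^ A.card := Nat.mul_le_mul_right _ hkey
      _ = Y.card * (F * Fintype.card α ^ A.card) := by ring
      _ ≤ Y.card * (Y.card ^ A.card * (Fintype.card α).factorial) := Nat.mul_le_mul_left _ ih
      _ = Y.card ^ A.card * Y.card * (Fintype.card α).factorial := by ring

theorem t_PERM : S_PERM := by
  intro α _ _ A Y
  exact perm_main Y A

end Pool.Agent.RAC
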