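import Mathlib
import Pool.Agent.RAC.Stmts

/-!
# Module BOTH: locations with both endpoints in a set, or with many neighbours in the set
-/

set_option autoImplicit false

namespace Pool.Agent.RAC

open Finset Equiv Pool.Agent.TS Pool.Agent.TR Pool.Agent.HR Pool.Agent.ACC Pool.Agent.HM

section Both

variable {J B U C : Type} [Fintype J] [Fintype B] [Fintype U] [Fintype C]
  [DecidableEq J] [DecidableEq B] [DecidableEq U] [DecidableEq C]

omit [Fintype C] [DecidableEq C] in
private lemma BOTH_sum (hs : Finset ((Bool × (J × B)) × U)) :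
    ∑ c : J × U, ((TR.blk hs true c).card + (TR.blk hs false c).card) = hs.card := by
  classical
  have h1 : hs.card = ∑ i : (Bool × (J × B)) × U, if i ∈ hs then 1 else 0 := by
    simp
  rw [h1]
  have e : ∀ b (c : J × U), (TR.blk hs b c).card =
      ∑ x : B, if ((b, (c.1, x)), c.2) ∈ hs then 1 else 0 := by
    intro b c
    rw [TR.blk, Finset.card_filter]
  simp_rw [e]
  simp only [Fintype.sum_prod_type, Fintype.sum_bool]
  rw [← Finset.sum_add_distrib]
  refine Finset.sum_congr rfl fun j _ => ?_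
  rw [Finset.sum_add_distrib]
  congr 1 <;> exact Finset.sum_comm

omit [Fintype C] [DecidableEq C] in
private lemma BOTH_sum_le (hs : Finset ((Bool × (J × B)) × U)) (b : Bool) :
    ∑ c : J × U, (TR.blk hs b c).card ≤ hs.card := by
  rw [← BOTH_sum hs, Finset.sum_add_distrib]
  cases b
  · exact Nat.le_add_left _ _
  · exact Nat.le_add_right _ _

omit [Fintype C] [DecidableEq C] in
private lemma BOTH_blk_le (hs : Finset ((Bool × (J × B)) × U)) (b : Bool) (c : J × U) :
    (TR.blk hs b c).card ≤ hs.card :=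
  (Finset.single_le_sum (f := fun c => (TR.blk hs b c).card) (fun _ _ => Nat.zero_le _)
    (Finset.mem_univ c)).trans (BOTH_sum_le hs b)

/-- the permutations seen from the other side -/
private def BOTH_s (σ : C → Perm B) (b : Bool) : C → Perm B :=
  if b then fun c => (σ c).symm else σ

omit [DecidableEq B] [DecidableEq C] in
private lemma BOTH_sym (σ : C → Perm B) (X Y : Finset B) :
    edg (fun c => (σ c).symm) X Y = edg σ Y X := by
  classical
  unfold edg
  refine Finset.card_bij' (fun p _ => ((σ p.2).symm p.1, p.2)) (fun p _ => (σ p.2 p.1, p.2))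
    ?_ ?_ ?_ ?_
  · intro p hp
    rw [mem_filter] at hp ⊢
    refine ⟨mem_univ _, hp.2.2, ?_⟩
    simpa using hp.2.1
  · intro p hp
    rw [mem_filter] at hp ⊢
    refine ⟨mem_univ _, hp.2.2, ?_⟩
    simpa using hp.2.1
  · intro p _
    simp
  · intro p _
    simp

omit [DecidableEq B] [DecidableEq C] in
private lemma BOTH_sp {σ : C → Perm B} {M : ℕ} (h : Sparse σ M) (b : Bool) :
    Sparse (BOTH_s σ b) M := by
  cases b
  · exact h
  · intro X Y hX hY
    have h1 := h Y X hY hX
    have h2 : edg (BOTH_s σ true) X Y = edg σ Y X := BOTH_sym σ X Y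
    rw [h2, max_comm]
    exact h1

omit [DecidableEq C] in
private lemma BOTH_edg (σ : C → Perm B) (X Y : Finset B) :
    edg σ X Y = ∑ y ∈ X, ((univ : Finset C).filter fun c => σ c y ∈ Y).card := by
  classical
  unfold edg
  rw [Finset.card_filter, Fintype.sum_prod_type, ← Finset.sum_subset (Finset.subset_univ X)]
  · refine Finset.sum_congr rfl fun y hy => ?_
    rw [Finset.card_filter]
    refine Finset.sum_congr rfl fun c _ => ?_
    simp only [hy, true_and]
  · intro b _ hb
    refine Finset.sum_eq_zero fun c _ => ?_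
    rw [if_neg (fun h => hb h.1)]

omit [DecidableEq C] in
private lemma BOTH_deg {σ : C → Perm B} {M : ℕ} (h : Sparse σ M) (Z : Finset B)
    (hZ : M * Z.card ≤ Fintype.card B) :
    ((univ : Finset (B × C)).filter fun p => σ p.2 p.1 ∈ Z ∧
      4 < ((univ : Finset C).filter fun c => σ c p.1 ∈ Z).card).card ≤ 4 * Z.card := by
  obtain ⟨W, hW⟩ : ∃ W : Finset B, W = (univ : Finset B).filter fun y =>
      4 < ((univ : Finset C).filter fun c => σ c y ∈ Z).card := ⟨_, rfl⟩
  have hWm : ∀ y, y ∈ W ↔ 4 < ((univ : Finset C).filter fun c => σ c y ∈ Z).card := by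
    intro y
    rw [hW, mem_filter]
    simp
  have h1 : ((univ : Finset (B × C)).filter fun p => σ p.2 p.1 ∈ Z ∧
      4 < ((univ : Finset C).filter fun c => σ c p.1 ∈ Z).card).card = edg σ W Z := by
    unfold edg
    congr 1
    ext p
    simp only [mem_filter, mem_univ, true_and, hWm]
    tauto
  rw [h1]
  have h2 : W.card ≤ Z.card := by
    by_contra hlt
    push Not at hlt
    obtain ⟨W', hW', hc⟩ := Finset.exists_subset_card_eq hlt.le
    have h3 := h W' Z (by rw [hc]; exact hZ) hZ
    rw [hc, max_self, BOTH_edg] at h3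
    have h4 : ∑ _y ∈ W', 5 ≤ ∑ y ∈ W', ((univ : Finset C).filter fun c => σ c y ∈ Z).card :=
      Finset.sum_le_sum fun y hy => (hWm y).1 (hW' hy)
    rw [Finset.sum_const, smul_eq_mul, hc] at h4
    have h5 : Z.card = 0 := by omega
    have h6 : Z = ∅ := Finset.card_eq_zero.1 h5
    have h7 : 0 < W.card := by omega
    obtain ⟨y, hy⟩ := Finset.card_pos.1 h7
    have h8 := (hWm y).1 hy
    rw [h6] at h8
    simp at h8
  have h3 := h W Z ((Nat.mul_le_mul_left M h2).trans hZ) hZ
  rwa [max_eq_right h2] at h3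

/-- Module BOTH. Locations with both endpoints in a set, or with an endpoint in the set and many
neighbours of this type in the set. -/
theorem t_BOTH : S_BOTH := by
  classical
  intro J B U C _ _ _ _ _ _ _ _ σ hσ M0 L hSp hL hs hhs
  have hMb : ∀ (b : Bool) (c : J × U), M0 * (TR.blk hs b c).card ≤ Fintype.card B := fun b c =>
    (Nat.mul_le_mul_left M0 ((BOTH_blk_le hs b c).trans hhs)).trans hL
  refine ⟨?_, fun b => ?_⟩
  · -- both endpoints
    have h1 : ((univ : Finset (((J × B) × C) × U)).filter fun ℓ =>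
        ∀ b, (HS J σ hσ).pt b ℓ ∈ hs).card ≤
        ((univ : Finset (J × U)).sigma fun c => (univ : Finset (B × C)).filter fun p =>
          p.1 ∈ TR.blk hs true c ∧ σ p.2 p.1 ∈ TR.blk hs false c).card := by
      refine Finset.card_le_card_of_injOn
        (fun ℓ => (⟨(ℓ.1.1.1, ℓ.2), (ℓ.1.1.2, ℓ.1.2)⟩ : (_ : J × U) × (B × C))) ?_ ?_
      · intro ℓ hℓ
        rw [Finset.mem_coe, Finset.mem_filter] at hℓ
        rw [Finset.mem_coe, Finset.mem_sigma, Finset.mem_filter]
        refine ⟨Finset.mem_univ _, Finset.mem_univ _, ?_, ?_⟩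
        · rw [TR.blk, Finset.mem_filter]
          exact ⟨Finset.mem_univ _, hℓ.2 true⟩
        · rw [TR.blk, Finset.mem_filter]
          exact ⟨Finset.mem_univ _, hℓ.2 false⟩
      · rintro ⟨⟨⟨j, x⟩, c⟩, u⟩ _ ⟨⟨⟨j', x'⟩, c'⟩, u'⟩ _ h
        simp only [Sigma.mk.injEq, Prod.mk.injEq] at h
        obtain ⟨⟨rfl, rfl⟩, h⟩ := h
        have h := eq_of_heq h
        simp only [Prod.mk.injEq] at h
        obtain ⟨rfl, rfl⟩ := h
        rfl
    rw [Finset.card_sigma] at h1
    refine h1.trans ?_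
    have h2 : ∀ c ∈ (univ : Finset (J × U)), ((univ : Finset (B × C)).filter fun p =>
          p.1 ∈ TR.blk hs true c ∧ σ p.2 p.1 ∈ TR.blk hs false c).card ≤
        4 * ((TR.blk hs true c).card + (TR.blk hs false c).card) := by
      intro c _
      have h3 := hSp (TR.blk hs true c) (TR.blk hs false c) (hMb true c) (hMb false c)
      have h4 : edg σ (TR.blk hs true c) (TR.blk hs false c) = ((univ : Finset (B × C)).filter fun p =>
          p.1 ∈ TR.blk hs true c ∧ σ p.2 p.1 ∈ TR.blk hs false c).card := by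
        unfold edg
        congr 1
        ext p
        simp only [mem_filter, mem_univ, true_and]
      rw [← h4]
      refine h3.trans (Nat.mul_le_mul_left 4 (max_le ?_ ?_)) <;> omega
    refine (Finset.sum_le_sum h2).trans ?_
    rw [← Finset.mul_sum, BOTH_sum hs]
  · -- many neighbours
    obtain ⟨oth, hoth⟩ : ∃ oth : ((J × B) × C) × U → B,
        oth = fun ℓ => if b then σ ℓ.1.2 ℓ.1.1.2 else ℓ.1.1.2 := ⟨_, rfl⟩
    have hpt : ∀ ℓ : ((J × B) × C) × U, (HS J σ hσ).pt b ℓ =
        ((b, (ℓ.1.1.1, BOTH_s σ b ℓ.1.2 (oth ℓ))), ℓ.2) := by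
      intro ℓ
      cases hb : b <;> simp [HS, BG.pt, hoth, BOTH_s, hb]
    have hnb : ∀ ℓ : ((J × B) × C) × U, ((nb (HS J σ hσ) ℓ).filter fun i2 =>
        (HS J σ hσ).sd i2.1 = b ∧ i2 ∈ hs).card ≤
        ((univ : Finset C).filter fun c => BOTH_s σ b c (oth ℓ) ∈
          TR.blk hs b (ℓ.1.1.1, ℓ.2)).card := by
      intro ℓ
      have : ((nb (HS J σ hσ) ℓ).filter fun i2 => (HS J σ hσ).sd i2.1 = b ∧ i2 ∈ hs) ⊆
          ((univ : Finset C).filter fun c => BOTH_s σ b c (oth ℓ) ∈
            TR.blk hs b (ℓ.1.1.1, ℓ.2)).image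
            fun c => ((b, (ℓ.1.1.1, BOTH_s σ b c (oth ℓ))), ℓ.2) := by
        intro i2 hi2
        rw [Finset.mem_filter, mem_nb] at hi2
        obtain ⟨⟨ℓ', b', hne, hsame, rfl⟩, hsd, hin⟩ := hi2
        rw [BG.sd_pt] at hsd
        have hb' : b' = !b := by rw [← hsd, Bool.not_not]
        subst hb'
        rw [Bool.not_not] at hin ⊢
        have h1 : ℓ'.1.1.1 = ℓ.1.1.1 ∧ ℓ'.2 = ℓ.2 ∧ oth ℓ' = oth ℓ := by
          cases hb : b <;> simp [HS, BG.pt, hb] at hsame <;>
            simp [hoth, hb, hsame]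
        rw [hpt ℓ', h1.1, h1.2.1, h1.2.2] at hin ⊢
        rw [Finset.mem_image]
        refine ⟨ℓ'.1.2, ?_, rfl⟩
        rw [Finset.mem_filter, TR.blk, Finset.mem_filter]
        exact ⟨Finset.mem_univ _, Finset.mem_univ _, hin⟩
      exact (Finset.card_le_card this).trans Finset.card_image_le
    have h2 : ((univ : Finset (((J × B) × C) × U)).filter fun ℓ =>
        (HS J σ hσ).pt b ℓ ∈ hs ∧ 4 < ((nb (HS J σ hσ) ℓ).filter fun i2 =>
          (HS J σ hσ).sd i2.1 = b ∧ i2 ∈ hs).card).card ≤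
        ((univ : Finset (J × U)).sigma fun c => (univ : Finset (B × C)).filter fun p =>
          BOTH_s σ b p.2 p.1 ∈ TR.blk hs b c ∧
          4 < ((univ : Finset C).filter fun c' => BOTH_s σ b c' p.1 ∈ TR.blk hs b c).card).card := by
      refine Finset.card_le_card_of_injOn
        (fun ℓ => (⟨(ℓ.1.1.1, ℓ.2), (oth ℓ, ℓ.1.2)⟩ : (_ : J × U) × (B × C))) ?_ ?_
      · intro ℓ hℓ
        rw [Finset.mem_coe, Finset.mem_filter] at hℓ
        rw [Finset.mem_coe, Finset.mem_sigma, Finset.mem_filter]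
        refine ⟨Finset.mem_univ _, Finset.mem_univ _, ?_, hℓ.2.2.trans_le ?_⟩
        · rw [TR.blk, Finset.mem_filter]
          refine ⟨Finset.mem_univ _, ?_⟩
          have := hℓ.2.1
          rw [hpt ℓ] at this
          exact this
        · convert hnb ℓ
      · rintro ⟨⟨⟨j, x⟩, c⟩, u⟩ _ ⟨⟨⟨j', x'⟩, c'⟩, u'⟩ _ h
        simp only [Sigma.mk.injEq, Prod.mk.injEq] at h
        obtain ⟨⟨rfl, rfl⟩, h⟩ := h
        have h := eq_of_heq h
        simp only [hoth, Prod.mk.injEq] at h
        obtain ⟨h, rfl⟩ := h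
        cases hb : b <;> simp [hb] at h <;> rw [h]
    rw [Finset.card_sigma] at h2
    refine h2.trans ?_
    have h3 : ∀ c ∈ (univ : Finset (J × U)), ((univ : Finset (B × C)).filter fun p =>
          BOTH_s σ b p.2 p.1 ∈ TR.blk hs b c ∧
          4 < ((univ : Finset C).filter fun c' => BOTH_s σ b c' p.1 ∈ TR.blk hs b c).card).card ≤
        4 * (TR.blk hs b c).card := by
      intro c _
      have h4 := BOTH_deg (BOTH_sp hSp b) (TR.blk hs b c) (hMb b c)
      convert h4
    refine (Finset.sum_le_sum h3).trans ?_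
    rw [← Finset.mul_sum]
    exact Nat.mul_le_mul_left 4 (BOTH_sum_le hs b)

end Both

end Pool.Agent.RAC
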