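import Mathlib
import Pool.Agent.RAC.Stmts

/-!
# Machines stopped after too many expensive accesses
-/

set_option linter.unusedSectionVars false

namespace Pool.Agent.RAC

open Finset Equiv Pool.Agent.TS Pool.Agent.TR Pool.Agent.HR Pool.Agent.ACC Pool.Agent.HM

section CapSec

variable {K U Q A Γ : Type}

open Classical in
private lemma cap_cnt_succ (M : DFM K U Q A Γ) (P : A → Prop) (b : Bool) (z : K → Perm U)
    (N : ℕ) :
    M.cnt P b z (N + 1) = M.cnt P b z N +
      if (∃ a, M.acs b N z (M.run z N) = some a ∧ ¬ P a) then 1 else 0 := by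
  unfold DFM.cnt
  rw [Finset.range_add_one, Finset.filter_insert]
  split_ifs with h
  · rw [Finset.card_insert_of_notMem (by simp)]
  · simp

variable (M : DFM K U Q A Γ) (P : A → Prop) [DecidablePred P] (b : Bool) (F : ℕ)
  (z : K → Perm U)

/-- The access is expensive. -/
private def cap_far (τ : ℕ) (p : Q × (A → Γ)) : Bool :=
  if b then (farW P (M.mv z τ p).2).isSome else (farR P (M.rd τ p.1)).isSome

private lemma cap_farW_some (w : Option (A × Γ)) :
    (farW P w).isSome = true ↔ ∃ a, w.map Prod.fst = some a ∧ ¬ P a := by
  rcases w with _ | ⟨a, v⟩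
  · simp [farW]
  · by_cases h : P a <;> simp [farW, h]

private lemma cap_farR_some (o : Option A) :
    (farR P o).isSome = true ↔ ∃ a, o = some a ∧ ¬ P a := by
  rcases o with _ | a
  · simp [farR]
  · by_cases h : P a <;> simp [farR, h]

private lemma cap_far_iff (τ : ℕ) (p : Q × (A → Γ)) :
    cap_far M P b z τ p = true ↔ ∃ a, M.acs b τ z p = some a ∧ ¬ P a := by
  cases b
  · simpa [cap_far, DFM.acs] using cap_farR_some P (M.rd τ p.1)
  · simpa [cap_far, DFM.acs] using cap_farW_some P (M.mv z τ p).2

/-- The move of the stopped machine. -/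
private lemma cap_mv (τ : ℕ) (i : Fin (F + 1)) (q : Q) (ν : {a : A // P a} → Γ) (c' : A → Γ)
    (h : ¬ (b = false ∧ (i : ℕ) = F ∧ (farR P (M.rd τ q)).isSome = true)) :
    (capm M P b F).mv z τ (some (i, q, ν), c') =
      if cap_far M P b z τ (q, cont P ν c') = true then
        (if h : (i : ℕ) + 1 < F + 1 then
          (some (⟨i + 1, h⟩, (M.mv z τ (q, cont P ν c')).1,
            nearW P ν (M.mv z τ (q, cont P ν c')).2), farW P (M.mv z τ (q, cont P ν c')).2)
        else (none, none))
      else (some (i, (M.mv z τ (q, cont P ν c')).1,
            nearW P ν (M.mv z τ (q, cont P ν c')).2), farW P (M.mv z τ (q, cont P ν c')).2) := by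
  have hv : (capm M P b F).val τ (some (i, q, ν), c') = (farR P (M.rd τ q)).map c' := by
    show ((if b = false ∧ (i : ℕ) = F then none else farR P (M.rd τ q)) : Option A).map c' = _
    by_cases h1 : b = false ∧ (i : ℕ) = F
    · have h2 : (farR P (M.rd τ q)).isSome ≠ true := fun h2 => h ⟨h1.1, h1.2, h2⟩
      rw [if_pos h1]
      rcases h3 : farR P (M.rd τ q) with _ | a
      · rfl
      · rw [h3] at h2; exact absurd rfl h2
    · rw [if_neg h1]
  have hv2 : valOf P (M.rd τ q) ν ((capm M P b F).val τ (some (i, q, ν), c')) =
      M.val τ (q, cont P ν c') := by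
    rw [hv, valOf_eq]; rfl
  have hq : (capm M P b F).qu τ (some (i, q, ν), c') = M.qu τ (q, cont P ν c') := by
    show (if b = false ∧ (i : ℕ) = F ∧ (farR P (M.rd τ q)).isSome then none
      else M.ask τ q (valOf P (M.rd τ q) ν ((capm M P b F).val τ (some (i, q, ν), c')))) = _
    rw [if_neg h, hv2]; rfl
  have e : (capm M P b F).mv z τ (some (i, q, ν), c') =
      (capm M P b F).step τ (some (i, q, ν)) ((capm M P b F).val τ (some (i, q, ν), c'))
        (((capm M P b F).qu τ (some (i, q, ν), c')).map (qans z)) := rfl
  rw [e, hq]
  show (if ((if b then (farW P (M.step τ q (valOf P (M.rd τ q) ν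
      ((capm M P b F).val τ (some (i, q, ν), c'))) _).2).isSome
        else (farR P (M.rd τ q)).isSome) : Bool) then _ else _) = _
  rw [hv2]
  rfl

private lemma cap_mv_stop (τ : ℕ) (i : Fin (F + 1)) (q : Q) (ν : {a : A // P a} → Γ)
    (c' : A → Γ) (hb : b = false) (hi : (i : ℕ) = F) (hf : (farR P (M.rd τ q)).isSome = true) :
    (capm M P b F).mv z τ (some (i, q, ν), c') = (none, none) := by
  subst hb
  have e : (capm M P false F).mv z τ (some (i, q, ν), c') =
      (capm M P false F).step τ (some (i, q, ν)) ((capm M P false F).val τ (some (i, q, ν), c'))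
        (((capm M P false F).qu τ (some (i, q, ν), c')).map (qans z)) := rfl
  rw [e]
  show (if ((if false then _ else (farR P (M.rd τ q)).isSome) : Bool) then _ else _) = _
  rw [if_neg (by simp : ¬ (false = true))]
  rw [if_pos hf, dif_neg (by omega)]

private lemma cap_mv_none (τ : ℕ) (c' : A → Γ) :
    (capm M P b F).mv z τ (none, c') = (none, none) := rfl

private lemma cap_run_none (τ : ℕ) (h : ((capm M P b F).run z τ).1 = none) :
    ((capm M P b F).run z (τ + 1)).1 = none := by
  obtain ⟨s, c'⟩ : ∃ p, (capm M P b F).run z τ = p := ⟨_, rfl⟩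
  show ((capm M P b F).mv z τ ((capm M P b F).run z τ)).1 = none
  have e : (capm M P b F).run z τ = (none, ((capm M P b F).run z τ).2) := Prod.ext h rfl
  rw [e, cap_mv_none]

/-- As long as there are few accesses the stopped machine follows the machine. -/
private lemma cap_run (τ : ℕ) (h : M.cnt P b z τ ≤ F) :
    ∃ (ν : {a : A // P a} → Γ) (c' : A → Γ), (capm M P b F).run z τ =
      (some (⟨M.cnt P b z τ, Nat.lt_succ_of_le h⟩, (M.run z τ).1, ν), c') ∧
      cont P ν c' = (M.run z τ).2 := by
  induction τ with
  | zero =>
    refine ⟨fun a => M.init a.1, M.init, ?_, ?_⟩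
    · show ((some (0, M.start, fun a => M.init a.1) :
        Option (Fin (F + 1) × Q × ({a : A // P a} → Γ))), M.init) = _
      congr 3
    · funext a
      by_cases ha : P a
      · simp only [cont, dif_pos ha]; rfl
      · simp only [cont, dif_neg ha]; rfl
  | succ τ ih =>
    have hs := cap_cnt_succ M P b z τ
    have hle : M.cnt P b z τ ≤ F := by
      rw [hs] at h; omega
    obtain ⟨ν, c', h1, h2⟩ := ih hle
    have hfi := cap_far_iff M P b z τ (M.run z τ)
    have hp : ((M.run z τ).1, cont P ν c') = M.run z τ := by rw [h2]
    have hrun : (capm M P b F).run z (τ + 1) = (((capm M P b F).mv z τ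
        ((capm M P b F).run z τ)).1, write ((capm M P b F).run z τ).2
          ((capm M P b F).mv z τ ((capm M P b F).run z τ)).2) := rfl
    by_cases hf : cap_far M P b z τ (M.run z τ) = true
    · rw [if_pos (hfi.1 hf)] at hs
      have hlt : M.cnt P b z τ < F := by omega
      have hmv := cap_mv M P b F z τ ⟨M.cnt P b z τ, Nat.lt_succ_of_le hle⟩ (M.run z τ).1 ν c'
        (by rintro ⟨_, h3, _⟩; simp only at h3; omega)
      rw [hp, if_pos hf, dif_pos (by simp only; omega)] at hmv
      refine ⟨nearW P ν (M.mv z τ (M.run z τ)).2, write c' (farW P (M.mv z τ (M.run z τ)).2),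
        ?_, ?_⟩
      · rw [hrun, h1, hmv]
        simp only [hs]
        rfl
      · rw [cont_write, h2]; rfl
    · have hs' : M.cnt P b z (τ + 1) = M.cnt P b z τ := by
        rw [if_neg (fun h3 => hf (hfi.2 h3))] at hs
        simpa using hs
      have hmv := cap_mv M P b F z τ ⟨M.cnt P b z τ, Nat.lt_succ_of_le hle⟩ (M.run z τ).1 ν c'
        (by
          rintro ⟨h3, _, h4⟩
          apply hf
          subst h3
          simpa [cap_far] using h4)
      rw [hp, if_neg hf] at hmv
      refine ⟨nearW P ν (M.mv z τ (M.run z τ)).2, write c' (farW P (M.mv z τ (M.run z τ)).2),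
        ?_, ?_⟩
      · rw [hrun, h1, hmv]
        simp only [hs']
        rfl
      · rw [cont_write, h2]; rfl

/-- The stopped machine is stopped when there are too many accesses. -/
private lemma cap_dead (τ : ℕ) (h : F < M.cnt P b z τ) : ((capm M P b F).run z τ).1 = none := by
  induction τ with
  | zero => simp [DFM.cnt] at h
  | succ τ ih =>
    by_cases h0 : F < M.cnt P b z τ
    · exact cap_run_none M P b F z τ (ih h0)
    · have hle : M.cnt P b z τ ≤ F := by omega
      have hs := cap_cnt_succ M P b z τ
      have hex : ∃ a, M.acs b τ z (M.run z τ) = some a ∧ ¬ P a := by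
        by_contra h1
        rw [if_neg h1] at hs
        omega
      rw [if_pos hex] at hs
      have hF : M.cnt P b z τ = F := by omega
      obtain ⟨ν, c', h1, h2⟩ := cap_run M P b F z τ hle
      have hf := (cap_far_iff M P b z τ (M.run z τ)).2 hex
      have hp : ((M.run z τ).1, cont P ν c') = M.run z τ := by rw [h2]
      show ((capm M P b F).mv z τ ((capm M P b F).run z τ)).1 = none
      rw [h1]
      by_cases hc : b = false ∧ (farR P (M.rd τ (M.run z τ).1)).isSome = true
      · rw [cap_mv_stop M P b F z τ _ _ _ _ hc.1 (by simpa using hF) hc.2]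
      · rw [cap_mv M P b F z τ _ _ _ _ (fun h3 => hc ⟨h3.1, h3.2.2⟩), hp, if_pos hf,
          dif_neg (by simp only; omega)]

/-- The accesses of the stopped machine. -/
private lemma cap_cnt (τ : ℕ) :
    (∀ i q ν, ((capm M P b F).run z τ).1 = some (i, q, ν) →
      (capm M P b F).cnt (fun _ => False) b z τ ≤ (i : ℕ)) ∧
    (capm M P b F).cnt (fun _ => False) b z τ ≤ F := by
  induction τ with
  | zero =>
    have h0 : (capm M P b F).cnt (fun _ => False) b z 0 = 0 := by simp [DFM.cnt]
    rw [h0]
    exact ⟨fun _ _ _ _ => Nat.zero_le _, Nat.zero_le _⟩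
  | succ τ ih =>
    have hs := cap_cnt_succ (capm M P b F) (fun _ => False) b z τ
    have hnext : ((capm M P b F).run z (τ + 1)).1 =
      ((capm M P b F).mv z τ ((capm M P b F).run z τ)).1 := rfl
    rcases hst : ((capm M P b F).run z τ).1 with _ | ⟨i, q, ν⟩
    · have e : (capm M P b F).run z τ = (none, ((capm M P b F).run z τ).2) := Prod.ext hst rfl
      have hno : ¬ ∃ a, (capm M P b F).acs b τ z ((capm M P b F).run z τ) = some a ∧
          ¬ False := by
        rintro ⟨a, h1, -⟩
        rw [e] at h1
        unfold DFM.acs at h1
        rw [cap_mv_none] at h1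
        cases b
        · exact absurd h1 (by simp [capm])
        · simp at h1
      rw [if_neg hno] at hs
      refine ⟨fun i q ν h => ?_, by rw [hs]; simpa using ih.2⟩
      rw [cap_run_none M P b F z τ hst] at h
      exact absurd h (by simp)
    · have e : (capm M P b F).run z τ = (some (i, q, ν), ((capm M P b F).run z τ).2) :=
        Prod.ext hst rfl
      have hi := ih.1 i q ν hst
      have hiF : (i : ℕ) ≤ F := Nat.le_of_lt_succ i.2
      by_cases hc : b = false ∧ (i : ℕ) = F ∧ (farR P (M.rd τ q)).isSome = true
      · -- the machine stops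
        obtain ⟨hb, h3, h4⟩ := hc
        have hno : ¬ ∃ a, (capm M P b F).acs b τ z ((capm M P b F).run z τ) = some a ∧
            ¬ False := by
          rintro ⟨a, h1, -⟩
          rw [e] at h1
          subst hb
          have h5 : (capm M P false F).rd τ (some (i, q, ν)) = none := by
            show ((if false = false ∧ (i : ℕ) = F then none else farR P (M.rd τ q)) :
              Option A) = none
            rw [if_pos ⟨rfl, h3⟩]
          unfold DFM.acs at h1
          rw [if_neg (by simp)] at h1
          rw [h5] at h1
          simp at h1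
        rw [if_neg hno] at hs
        refine ⟨fun i' q' ν' h => ?_, by rw [hs]; simpa using ih.2⟩
        rw [hnext, e, cap_mv_stop M P b F z τ i q ν _ hb h3 h4] at h
        exact absurd h (by simp)
      · have hmv := cap_mv M P b F z τ i q ν ((capm M P b F).run z τ).2 hc
        by_cases hf : cap_far M P b z τ (q, cont P ν ((capm M P b F).run z τ).2) = true
        · rw [if_pos hf] at hmv
          by_cases h6 : (i : ℕ) + 1 < F + 1
          · rw [dif_pos h6] at hmv
            refine ⟨fun i' q' ν' h => ?_, ?_⟩
            · rw [hnext, e, hmv] at h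
              simp only [Option.some.injEq, Prod.mk.injEq] at h
              rw [← h.1, hs]
              simp only
              split_ifs <;> omega
            · rw [hs]
              split_ifs <;> omega
          · rw [dif_neg h6] at hmv
            -- only for `b = true`
            have hb : b = true := by
              cases b
              · exfalso
                apply hc
                refine ⟨rfl, by omega, ?_⟩
                simpa [cap_far] using hf
              · rfl
            have hno : ¬ ∃ a, (capm M P b F).acs b τ z ((capm M P b F).run z τ) = some a ∧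
                ¬ False := by
              rintro ⟨a, h1, -⟩
              rw [e] at h1
              unfold DFM.acs at h1
              rw [if_pos hb, hmv] at h1
              simp at h1
            rw [if_neg hno] at hs
            refine ⟨fun i' q' ν' h => ?_, by rw [hs]; simpa using ih.2⟩
            rw [hnext, e, hmv] at h
            exact absurd h (by simp)
        · rw [if_neg hf] at hmv
          have hno : ¬ ∃ a, (capm M P b F).acs b τ z ((capm M P b F).run z τ) = some a ∧
              ¬ False := by
            rintro ⟨a, h1, -⟩
            apply hf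
            rw [e] at h1
            unfold DFM.acs at h1
            cases b
            · rw [if_neg (by simp)] at h1
              have h7 : (if false = false ∧ (i : ℕ) = F then none else farR P (M.rd τ q)) =
                some a := h1
              split_ifs at h7
              simp [cap_far, h7]
            · rw [if_pos rfl, hmv] at h1
              simp only at h1
              rcases h8 : farW P (M.mv z τ (q, cont P ν ((capm M P true F).run z τ).2)).2 with
                _ | x
              · rw [h8] at h1; simp at h1
              · simp [cap_far, h8]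
          rw [if_neg hno] at hs
          refine ⟨fun i' q' ν' h => ?_, by rw [hs]; simpa using ih.2⟩
          rw [hnext, e, hmv] at h
          simp only [Option.some.injEq, Prod.mk.injEq] at h
          rw [← h.1, hs]
          simpa using hi

end CapSec

theorem t_CAP : S_CAP := by
  intro K U Q A Γ M P _ b F z N
  refine ⟨(cap_cnt M P b F z N).2, fun R => ⟨?_, ?_⟩⟩
  · rintro ⟨i, q, ν, h, hR⟩
    by_cases hle : M.cnt P b z N ≤ F
    · refine ⟨hle, ?_⟩
      obtain ⟨ν', c', h1, -⟩ := cap_run M P b F z N hle
      rw [h1] at h
      simp only [Option.some.injEq, Prod.mk.injEq] at h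
      rw [h.2.1]
      exact hR
    · exfalso
      rw [cap_dead M P b F z N (by omega)] at h
      exact absurd h (by simp)
  · rintro ⟨hle, hR⟩
    obtain ⟨ν', c', h1, -⟩ := cap_run M P b F z N hle
    exact ⟨_, _, ν', by rw [h1], hR⟩

end Pool.Agent.RAC
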