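import Mathlib
import Pool.Agent.RAC.Stmts

/-!
# RAC, module CHO: the choice of the parameters
-/

set_option autoImplicit false

open Filter Topology

namespace Pool.Agent.RAC

/-- Polynomials are smaller than exponentials. -/
private theorem cho_ev (C a : ℝ) (ha : 0 < a) (p : ℕ) :
    ∀ᶠ x : ℝ in atTop, C * x ^ p ≤ Real.exp (a * x) := by
  have h := (isLittleO_pow_exp_pos_mul_atTop (k := p) ha).bound
    (show (0:ℝ) < 1 / (|C| + 1) by positivity)
  filter_upwards [h, eventually_ge_atTop (0:ℝ)] with x hx h0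
  rw [Real.norm_of_nonneg (by positivity), Real.norm_of_nonneg (Real.exp_pos _).le] at hx
  have hC : 0 < |C| + 1 := by positivity
  have h1 : (|C| + 1) * x ^ p ≤ Real.exp (a * x) := by
    rw [one_div, inv_mul_eq_div, le_div_iff₀ hC] at hx
    linarith
  have h2 : C * x ^ p ≤ (|C| + 1) * x ^ p :=
    mul_le_mul_of_nonneg_right (by linarith [le_abs_self C]) (by positivity)
  linarith

private theorem cho_log (a : ℝ) (ha : 0 < a) : ∀ᶠ x : ℝ in atTop, Real.log x ≤ a * x := by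
  have h := Real.isLittleO_log_id_atTop.bound ha
  filter_upwards [h, eventually_ge_atTop (1:ℝ)] with x hx h1
  rw [Real.norm_of_nonneg (Real.log_nonneg h1), id, Real.norm_of_nonneg (by linarith)] at hx
  exact hx

/-- The real conditions on `M`. -/
private theorem cho_M (K κ : ℕ) (hK : 0 < K) (ε : ℝ) (h0 : 0 < ε) :
    ∃ M₀ : ℝ, 3 ≤ M₀ ∧ ∀ M : ℝ, M₀ ≤ M →
      Real.log M ≤ (ε / (40 * K) / 4) * M ∧
      121 * 2560 ^ K * M ^ K ≤ Real.exp (3 / 40 * ε * M) ∧
      120 ≤ Real.exp (ε / 20 * M) ∧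
      32 * 10 ^ 9 / ε * ((κ : ℝ) + 3) * M ^ 2 ≤ Real.exp (1 / 2 * M) ∧
      (16 * 2 * (80 * 10 ^ 9) * 1024 / ε * ((κ : ℝ) + 4) * 8 ^ 6) * M ^ 7 ≤
        Real.exp (ε / 4 * M) := by
  have hK' : (0:ℝ) < K := by exact_mod_cast hK
  have e1 := cho_log (ε / (40 * K) / 4) (by positivity)
  have e2 := cho_ev (121 * 2560 ^ K) (3 / 40 * ε) (by positivity) K
  have e3 := cho_ev 120 (ε / 20) (by positivity) 0
  have e4 := cho_ev (32 * 10 ^ 9 / ε * ((κ : ℝ) + 3)) (1 / 2) (by positivity) 2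
  have e5 := cho_ev (16 * 2 * (80 * 10 ^ 9) * 1024 / ε * ((κ : ℝ) + 4) * 8 ^ 6) (ε / 4)
    (by positivity) 7
  obtain ⟨M₁, hM₁⟩ := eventually_atTop.1 (e1.and (e2.and (e3.and (e4.and e5))))
  refine ⟨max 3 M₁, le_max_left _ _, fun M hM => ?_⟩
  obtain ⟨a1, a2, a3, a4, a5⟩ := hM₁ M ((le_max_right _ _).trans hM)
  refine ⟨a1, a2, ?_, a4, a5⟩
  simpa using a3

private theorem cho_main (K : ℕ) (hK : 0 < K) (κ : ℕ) (ε : ℝ) (h0 : 0 < ε) (h1 : ε ≤ 1) :
    ∃ c : ℝ, 0 < c ∧ ∃ s₀ : ℕ, 3 ≤ s₀ ∧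
    ∀ (s : ℕ) (φ : ℝ), s₀ ≤ s → (s₀ : ℝ) ≤ φ → ∃ gg D q m : ℕ, q.Prime ∧ 0 < m ∧ 0 < D ∧
      (2 ≤ gg ∧ 8 * (gg + 2) ^ (gg + 3) ≤ D ∧ 121 * (320 * D) ^ K ≤ q ∧ 1 ≤ φ ∧
        1 ≤ (s : ℝ) ^ (1 - ε) ∧
        4 * 10 ^ 9 * (((κ : ℝ) + 4) * ((gg : ℝ) + 2) * D ^ 5 * (s : ℝ) ^ (1 - ε) * Real.log s) ≤
          (m * D : ℕ) * Real.log (((q : ℝ) - 1) / 120) ∧
        2 * 10 ^ 8 * (((κ : ℝ) + 3) * ((gg : ℝ) + 2) * D * Real.log s) ≤
          φ * Real.log (((q : ℝ) - 1) / 120)) ∧ 16 * ((m * D) * D * q ^ 5) ≤ s ∧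
      c * (min (Real.log s) (Real.log φ) / Real.log (min (Real.log s) (Real.log φ))) ≤
        (gg : ℝ) + 2 := by
  have hK' : (0:ℝ) < K := by exact_mod_cast hK
  have hK1 : (1:ℝ) ≤ K := by exact_mod_cast hK
  obtain ⟨M₀, hM₀, hM⟩ := cho_M K κ hK ε h0
  set c3 : ℝ := ε / (40 * K) with hc3
  have hc3p : 0 < c3 := by positivity
  have hc3K : c3 * K = ε / 40 := by rw [hc3]; field_simp
  have hc3l : c3 ≤ ε / 40 := by
    rw [← hc3K]
    nlinarith
  refine ⟨c3 / 2, by positivity, max 3 ⌈Real.exp M₀⌉₊, le_max_left _ _, ?_⟩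
  intro s φ hs hφ
  have hs3 : 3 ≤ s := (le_max_left _ _).trans hs
  have hse : Real.exp M₀ ≤ s := by
    refine (Nat.le_ceil _).trans ?_
    exact_mod_cast (le_max_right 3 ⌈Real.exp M₀⌉₊).trans hs
  have hφe : Real.exp M₀ ≤ φ := by
    refine (Nat.le_ceil _).trans (le_trans ?_ hφ)
    exact_mod_cast le_max_right _ _
  have hspos : (0:ℝ) < s := (Real.exp_pos _).trans_le hse
  have hφpos : (0:ℝ) < φ := (Real.exp_pos _).trans_le hφe
  have hls : M₀ ≤ Real.log s := (Real.le_log_iff_exp_le hspos).2 hse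
  have hlφ : M₀ ≤ Real.log φ := (Real.le_log_iff_exp_le hφpos).2 hφe
  set M : ℝ := min (Real.log s) (Real.log φ) with hMdef
  have hMM : M₀ ≤ M := le_min hls hlφ
  have hMs : M ≤ Real.log s := min_le_left _ _
  have hMφ : M ≤ Real.log φ := min_le_right _ _
  obtain ⟨a1, a2, a3, a4, a5⟩ := hM M hMM
  have hM3 : (3:ℝ) ≤ M := hM₀.trans hMM
  have hMpos : 0 < M := by linarith
  have hlogM : 1 ≤ Real.log M := by
    rw [Real.le_log_iff_exp_le hMpos]
    linarith [Real.exp_one_lt_d9]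
  have hlogMpos : 0 < Real.log M := by linarith
  -- the number `x = c3 M / log M`
  set x : ℝ := c3 * M / Real.log M with hx
  have hx4 : 4 ≤ x := by
    rw [hx, le_div_iff₀ hlogMpos]
    have : Real.log M ≤ c3 / 4 * M := a1
    linarith
  set k : ℕ := ⌊x⌋₊ with hk
  have hkx : (k : ℝ) ≤ x := Nat.floor_le (by linarith)
  have hxk : x < k + 1 := Nat.lt_floor_add_one x
  have hk4 : 4 ≤ k := Nat.le_floor (by exact_mod_cast hx4)
  have hxM : x ≤ M := by
    rw [hx, div_le_iff₀ hlogMpos]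
    have h2 : c3 * M ≤ 1 * M := mul_le_mul_of_nonneg_right (by linarith) hMpos.le
    have h3 : M * 1 ≤ M * Real.log M := mul_le_mul_of_nonneg_left hlogM hMpos.le
    linarith
  have hkM : (k : ℝ) ≤ M := hkx.trans hxM
  have hkpos : (0:ℝ) < k := by
    have : 0 < k := by omega
    exact_mod_cast this
  -- `k ^ k ≤ exp (c3 M)`
  have hkk : (k : ℝ) ^ k ≤ Real.exp (c3 * M) := by
    have h2 : Real.log k ≤ Real.log M := Real.log_le_log hkpos hkM
    have h3 : (k : ℝ) * Real.log k ≤ c3 * M := by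
      calc (k : ℝ) * Real.log k ≤ k * Real.log M := mul_le_mul_of_nonneg_left h2 hkpos.le
        _ ≤ x * Real.log M := mul_le_mul_of_nonneg_right hkx hlogMpos.le
        _ = c3 * M := by rw [hx]; field_simp
    calc (k : ℝ) ^ k = Real.exp (Real.log ((k : ℝ) ^ k)) := (Real.exp_log (by positivity)).symm
      _ = Real.exp (k * Real.log k) := by rw [Real.log_pow]
      _ ≤ _ := Real.exp_le_exp.2 h3
  obtain ⟨gg, hgg⟩ : ∃ gg, k = gg + 2 := ⟨k - 2, by omega⟩
  set D : ℕ := 8 * k ^ (k + 1) with hD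
  have hDpos : 0 < D := by
    have : 0 < k := by omega
    positivity
  have hDR : (D : ℝ) ≤ 8 * M * Real.exp (c3 * M) := by
    have h2 : (D : ℝ) = 8 * (k ^ k * k) := by rw [hD]; push_cast; ring
    rw [h2]
    have h3 : (k : ℝ) ^ k * k ≤ Real.exp (c3 * M) * M :=
      mul_le_mul hkk hkM hkpos.le (Real.exp_pos _).le
    linarith
  have hDR0 : (0:ℝ) < D := by exact_mod_cast hDpos
  have hDR1 : (1:ℝ) ≤ D := by exact_mod_cast hDpos
  -- powers of `s`
  have hsp : ∀ y : ℝ, (s : ℝ) ^ y = Real.exp (y * Real.log s) := fun y => by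
    rw [Real.rpow_def_of_pos hspos, mul_comm]
  have hs1 : (1:ℝ) ≤ s := by exact_mod_cast (show 1 ≤ s by omega)
  set S : ℝ := (s : ℝ) ^ (ε / 10) with hS
  have hS1 : 1 ≤ S := Real.one_le_rpow hs1 (by positivity)
  obtain ⟨q, hqp, hq1, hq2⟩ := Nat.exists_prime_lt_and_le_two_mul ⌈S⌉₊
    (by
      have : 0 < ⌈S⌉₊ := Nat.ceil_pos.2 (by linarith)
      omega)
  have hqS : S ≤ (q : ℝ) - 1 := by
    have h2 : (⌈S⌉₊ : ℝ) + 1 ≤ q := by exact_mod_cast hq1
    have h3 := Nat.le_ceil S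
    linarith
  have hqS4 : (q : ℝ) ≤ 4 * S := by
    have h2 : (q : ℝ) ≤ 2 * ⌈S⌉₊ := by exact_mod_cast hq2
    have h3 := (Nat.ceil_lt_add_one (show 0 ≤ S by linarith)).le
    linarith
  have hexpS : Real.exp (ε / 10 * M) ≤ S := by
    rw [hS, hsp]
    exact Real.exp_le_exp.2 (mul_le_mul_of_nonneg_left hMs (by positivity))
  -- `log ((q - 1) / 120) ≥ (ε / 20) log s`
  have hlogq : ε / 20 * Real.log s ≤ Real.log (((q : ℝ) - 1) / 120) := by
    have hq0 : 0 < ((q : ℝ) - 1) / 120 := by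
      apply div_pos _ (by norm_num)
      linarith
    rw [Real.le_log_iff_exp_le hq0, le_div_iff₀ (by norm_num)]
    have h2 : (120:ℝ) ≤ Real.exp (ε / 20 * Real.log s) :=
      a3.trans (Real.exp_le_exp.2 (mul_le_mul_of_nonneg_left hMs (by positivity)))
    calc Real.exp (ε / 20 * Real.log s) * 120
        ≤ Real.exp (ε / 20 * Real.log s) * Real.exp (ε / 20 * Real.log s) :=
          mul_le_mul_of_nonneg_left h2 (Real.exp_pos _).le
      _ = S := by
          rw [← Real.exp_add, hS, hsp]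
          congr 1
          ring
      _ ≤ (q : ℝ) - 1 := hqS
  have hlogs : 0 < Real.log s := by linarith
  -- the number of blocks
  set X : ℝ := 80 * 10 ^ 9 / ε * ((κ : ℝ) + 4) * k * D ^ 4 * (s : ℝ) ^ (1 - ε) with hX
  have hSe1 : 1 ≤ (s : ℝ) ^ (1 - ε) := Real.one_le_rpow hs1 (by linarith)
  have hX1 : 1 ≤ X := by
    have h2 : (1:ℝ) ≤ 80 * 10 ^ 9 / ε := by
      rw [le_div_iff₀ h0]
      linarith
    have h3 : (1:ℝ) ≤ (κ : ℝ) + 4 := by
      have : (0:ℝ) ≤ κ := Nat.cast_nonneg _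
      linarith
    have h4 : (1:ℝ) ≤ k := by exact_mod_cast (show 1 ≤ k by omega)
    have h5 : (1:ℝ) ≤ (D : ℝ) ^ 4 := one_le_pow₀ hDR1
    calc (1:ℝ) = 1 * 1 * 1 * 1 * 1 := by ring
      _ ≤ X := by
        rw [hX]
        gcongr
  set m : ℕ := ⌈X⌉₊ with hm
  have hmpos : 0 < m := Nat.ceil_pos.2 (by linarith)
  have hmX : X ≤ m := Nat.le_ceil X
  have hm2 : (m : ℝ) ≤ 2 * X := by
    have h3 := (Nat.ceil_lt_add_one (show 0 ≤ X by linarith)).le
    linarith
  have hggk : (gg : ℝ) + 2 = k := by rw [hgg]; push_cast; ring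
  have hκ0 : (0:ℝ) ≤ κ := Nat.cast_nonneg _
  refine ⟨gg, D, q, m, hqp, hmpos, hDpos, ⟨by omega, ?_, ?_, ?_, hSe1, ?_, ?_⟩, ?_, ?_⟩
  · rw [hD, hgg]
  · -- `121 (320 D) ^ K ≤ q`
    have h2 : ((121 * (320 * D) ^ K : ℕ) : ℝ) ≤ q := by
      push_cast
      have h3 : (320 * (D : ℝ)) ^ K ≤ (2560 * M * Real.exp (c3 * M)) ^ K := by
        apply pow_le_pow_left₀ (by positivity)
        calc 320 * (D : ℝ) ≤ 320 * (8 * M * Real.exp (c3 * M)) := by linarith
          _ = 2560 * M * Real.exp (c3 * M) := by ring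
      have h4 : (2560 * M * Real.exp (c3 * M)) ^ K =
          2560 ^ K * M ^ K * Real.exp (ε / 40 * M) := by
        rw [mul_pow, mul_pow, ← Real.exp_nat_mul]
        congr 2
        rw [← hc3K]
        ring
      calc 121 * (320 * (D : ℝ)) ^ K ≤ 121 * (2560 ^ K * M ^ K * Real.exp (ε / 40 * M)) := by
            rw [← h4]
            linarith
        _ = (121 * 2560 ^ K * M ^ K) * Real.exp (ε / 40 * M) := by ring
        _ ≤ Real.exp (3 / 40 * ε * M) * Real.exp (ε / 40 * M) :=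
            mul_le_mul_of_nonneg_right a2 (Real.exp_pos _).le
        _ = Real.exp (ε / 10 * M) := by
            rw [← Real.exp_add]
            congr 1
            ring
        _ ≤ S := hexpS
        _ ≤ q := by linarith
    exact_mod_cast h2
  · -- `1 ≤ φ`
    have : (1:ℝ) ≤ Real.exp M₀ := Real.one_le_exp (by linarith)
    linarith
  · -- the sixth condition
    rw [hggk]
    push_cast
    calc 4 * 10 ^ 9 * (((κ : ℝ) + 4) * k * D ^ 5 * (s : ℝ) ^ (1 - ε) * Real.log s)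
        = X * D * (ε / 20 * Real.log s) := by
          rw [hX]
          field_simp
          ring
      _ ≤ m * D * (ε / 20 * Real.log s) := by
          apply mul_le_mul_of_nonneg_right _ (by positivity)
          exact mul_le_mul_of_nonneg_right hmX hDR0.le
      _ ≤ m * D * Real.log (((q : ℝ) - 1) / 120) :=
          mul_le_mul_of_nonneg_left hlogq (by positivity)
  · -- the seventh condition
    rw [hggk]
    have h2 : 4 * 10 ^ 9 / ε * (((κ : ℝ) + 3) * k * D) ≤ φ := by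
      have hkD : (k : ℝ) * D ≤ M * (8 * M * Real.exp (c3 * M)) :=
        mul_le_mul hkM hDR hDR0.le hMpos.le
      calc 4 * 10 ^ 9 / ε * (((κ : ℝ) + 3) * k * D)
          = 4 * 10 ^ 9 / ε * ((κ : ℝ) + 3) * (k * D) := by ring
        _ ≤ 4 * 10 ^ 9 / ε * ((κ : ℝ) + 3) * (M * (8 * M * Real.exp (c3 * M))) :=
            mul_le_mul_of_nonneg_left hkD (by positivity)
        _ = (32 * 10 ^ 9 / ε * ((κ : ℝ) + 3) * M ^ 2) * Real.exp (c3 * M) := by ring
        _ ≤ Real.exp (1 / 2 * M) * Real.exp (c3 * M) :=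
            mul_le_mul_of_nonneg_right a4 (Real.exp_pos _).le
        _ = Real.exp ((1 / 2 + c3) * M) := by
            rw [← Real.exp_add]
            congr 1
            ring
        _ ≤ Real.exp (Real.log φ) := by
            apply Real.exp_le_exp.2
            have : (1 / 2 + c3) * M ≤ 1 * M := mul_le_mul_of_nonneg_right (by linarith) hMpos.le
            linarith
        _ = φ := Real.exp_log hφpos
    calc 2 * 10 ^ 8 * (((κ : ℝ) + 3) * k * D * Real.log s)
        = (4 * 10 ^ 9 / ε * (((κ : ℝ) + 3) * k * D)) * (ε / 20 * Real.log s) := by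
          field_simp
          ring
      _ ≤ φ * (ε / 20 * Real.log s) := mul_le_mul_of_nonneg_right h2 (by positivity)
      _ ≤ φ * Real.log (((q : ℝ) - 1) / 120) := mul_le_mul_of_nonneg_left hlogq hφpos.le
  · -- the size
    have h2 : ((16 * ((m * D) * D * q ^ 5) : ℕ) : ℝ) ≤ s := by
      push_cast
      have hq5 : (q : ℝ) ^ 5 ≤ 1024 * (s : ℝ) ^ (ε / 2) := by
        calc (q : ℝ) ^ 5 ≤ (4 * S) ^ 5 := pow_le_pow_left₀ (Nat.cast_nonneg _) hqS4 5
          _ = 1024 * S ^ 5 := by ring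
          _ = 1024 * (s : ℝ) ^ (ε / 2) := by
              congr 1
              rw [hS, ← Real.rpow_natCast, ← Real.rpow_mul hspos.le]
              congr 1
              push_cast
              ring
      set Z : ℝ := 16 * 2 * (80 * 10 ^ 9) * 1024 / ε * ((κ : ℝ) + 4) with hZ
      have hZ0 : 0 ≤ Z := by positivity
      have hkD6 : (k : ℝ) * D ^ 6 ≤ M * (8 * M * Real.exp (c3 * M)) ^ 6 :=
        mul_le_mul hkM (pow_le_pow_left₀ hDR0.le hDR 6) (by positivity) hMpos.le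
      have hbig : Z * (k * D ^ 6) ≤ (s : ℝ) ^ (ε / 2) := by
        calc Z * (k * D ^ 6) ≤ Z * (M * (8 * M * Real.exp (c3 * M)) ^ 6) :=
              mul_le_mul_of_nonneg_left hkD6 hZ0
          _ = (Z * 8 ^ 6 * M ^ 7) * Real.exp (6 * c3 * M) := by
              rw [show 6 * c3 * M = ((6:ℕ) : ℝ) * (c3 * M) by push_cast; ring, Real.exp_nat_mul]
              ring
          _ ≤ Real.exp (ε / 4 * M) * Real.exp (6 * c3 * M) := by
              apply mul_le_mul_of_nonneg_right _ (Real.exp_pos _).le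
              rw [hZ]
              exact a5
          _ = Real.exp ((ε / 4 + 6 * c3) * M) := by
              rw [← Real.exp_add]
              congr 1
              ring
          _ ≤ Real.exp (ε / 2 * Real.log s) := by
              apply Real.exp_le_exp.2
              calc (ε / 4 + 6 * c3) * M ≤ (ε / 2) * M :=
                    mul_le_mul_of_nonneg_right (by linarith) hMpos.le
                _ ≤ ε / 2 * Real.log s := mul_le_mul_of_nonneg_left hMs (by positivity)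
          _ = (s : ℝ) ^ (ε / 2) := (hsp _).symm
      have hsplit : (s : ℝ) = (s : ℝ) ^ (1 - ε) * (s : ℝ) ^ (ε / 2) * (s : ℝ) ^ (ε / 2) := by
        rw [← Real.rpow_add hspos, ← Real.rpow_add hspos]
        rw [show 1 - ε + ε / 2 + ε / 2 = (1:ℝ) by ring, Real.rpow_one]
      calc 16 * ((m : ℝ) * D * D * q ^ 5)
          ≤ 16 * ((2 * X) * D * D * (1024 * (s : ℝ) ^ (ε / 2))) := by
            gcongr
        _ = (s : ℝ) ^ (1 - ε) * (s : ℝ) ^ (ε / 2) * (Z * (k * D ^ 6)) := by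
            rw [hX, hZ]
            field_simp
        _ ≤ (s : ℝ) ^ (1 - ε) * (s : ℝ) ^ (ε / 2) * (s : ℝ) ^ (ε / 2) :=
            mul_le_mul_of_nonneg_left hbig (by positivity)
        _ = s := hsplit.symm
    exact_mod_cast h2
  · rw [hggk]
    have : c3 / 2 * (M / Real.log M) = x / 2 := by rw [hx]; ring
    rw [this]
    linarith

theorem t_CHO : S_CHO := by
  intro κ ε h0 h1
  have hK0 : 0 < K0 := by
    unfold K0
    norm_num
  obtain ⟨c, hc, s₀, hs₀, h⟩ := cho_main K0 hK0 κ ε h0 h1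
  refine ⟨c, hc, s₀, hs₀, fun s φ hs hφ => ?_⟩
  obtain ⟨gg, D, q, m, h1, h2, h3, h4, h5, h6⟩ := h s φ hs hφ
  exact ⟨gg, D, q, m, h1, h2, h3, h4, h5, h6⟩

end Pool.Agent.RAC
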