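import Mathlib
import Pool.Agent.RAC.Stmts

/-!
# No fast randomised machine with cheap memory: the combined statement

Module COMB of the project RAC. The proof follows `Pool.Agent.HR.no_hr`.
-/

set_option autoImplicit false
set_option linter.unusedSectionVars false
set_option linter.unusedVariables false

open MeasureTheory

namespace Pool.Agent.RAC

open Finset Equiv Pool.Agent.TS Pool.Agent.TR Pool.Agent.HR Pool.Agent.ACC Pool.Agent.HM

/-- The size of the state set of the stopped machine. -/
private lemma comb_card {Q A Γ : Type} [Fintype Q] [Fintype A] [Fintype Γ] (P : A → Prop)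
    (F near : ℕ) [Fintype (Option (Fin (F + 1) × Q × ({a : A // P a} → Γ)))]
    (hnear : Nat.card {a : A // P a} = near) :
    Fintype.card (Option (Fin (F + 1) × Q × ({a : A // P a} → Γ))) =
      (F + 1) * (Fintype.card Q * Fintype.card Γ ^ near) + 1 := by
  classical
  rw [← Nat.card_eq_fintype_card (α := Option (Fin (F + 1) × Q × ({a : A // P a} → Γ))),
    Finite.card_option, Nat.card_prod, Nat.card_prod, Nat.card_eq_fintype_card (α := Fin (F + 1)),
    Fintype.card_fin, Nat.card_eq_fintype_card (α := Q), Nat.card_fun, hnear,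
    Nat.card_eq_fintype_card (α := Γ)]

/-- The count of the accesses of the deterministic machine. -/
private lemma comb_cnt (h5 : S_ENC) {J B U : Type} {t d w pad : ℕ} (eJ : J ≃ Fin t)
    (eB : B ≃ Fin d) (eU : U ≃ Fin w) {Q A Γ Ω : Type} (E : B × U → B × U → Prop)
    (M : RMachine (t * w + (d * w + (d * w + pad))) Q A Γ Ω) (ω : Ω) (P : A → Prop) (b : Bool)
    (z : Bool × (J × B) → Perm U) (N : ℕ) :
    (dfm eJ eB eU E M ω).cnt P b z N =
      fcnt M P b ω (theGraph eJ eB eU pad E (toInp z)) N := by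
  classical
  unfold DFM.cnt fcnt
  congr 1
  refine Finset.filter_congr fun τ _ => ?_
  rw [(h5 J B U t d w pad eJ eB eU Q A Γ Ω E M ω z τ).2 b]

/-- Acceptance of the stopped machine. -/
private lemma comb_acc (h4 : S_CAP) (h5 : S_ENC) {J B U : Type} {t d w pad : ℕ} (eJ : J ≃ Fin t)
    (eB : B ≃ Fin d) (eU : U ≃ Fin w) {Q A Γ Ω : Type} (E : B × U → B × U → Prop)
    (M : RMachine (t * w + (d * w + (d * w + pad))) Q A Γ Ω) (ω : Ω) (P : A → Prop)
    [DecidablePred P] (b : Bool) (F : ℕ) (z : Bool × (J × B) → Perm U) (N : ℕ) :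
    (∃ i q ν, ((capm (dfm eJ eB eU E M ω) P b F).run z N).1 = some (i, q, ν) ∧
      M.output q = some false) ↔
      ω ∈ AE M P b (theGraph eJ eB eU pad E (toInp z)) N F := by
  have h := (h4 (Bool × (J × B)) U Q A Γ (dfm eJ eB eU E M ω) P b F z N).2
    (fun q => M.output q = some false)
  rw [comb_cnt h5, (h5 J B U t d w pad eJ eB eU Q A Γ Ω E M ω z N).1] at h
  exact h

theorem t_COMB (h1 : S_GOOD) (h2 : S_TFC) (h3 : S_DS) (h4 : S_CAP) (h5 : S_ENC) (h6 : S_RND) :
    S_COMB := by
  intro J B U C CU Q A Γ Ω _ _ _ _ _ _ _ _ _ _ _ _ _ _ μ _ σ M0 γU t d w pad eJ eB eU M dg' f P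
    φ' b T near lamU L r k g V fF h0 F Λ hσ hsp hγU hdet hexp hφ hf0 hfP hnear hdeg hlamU hψU hL
    hr hk hg hkg hV hfF hΛ hM0L hrL hU hJ hB hC hCU hκ hlΛ hbad hw h2D hmain
  by_contra hT
  push Not at hT
  classical
  set H := HS J σ hσ with hH
  set adj := adjU γU with hadj
  set Gr := fun z : Bool × (J × B) → Perm U =>
    theGraph eJ eB eU pad (ES σ adj) (toInp z) with hGr
  have hcU : (0 : ℝ) < Fintype.card U := by exact_mod_cast hU
  have hcJ : (0 : ℝ) < Fintype.card J := by exact_mod_cast hJ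
  have hcC : (0 : ℝ) < Fintype.card C := by exact_mod_cast hC
  have hcCU : (0 : ℝ) < Fintype.card CU := by exact_mod_cast hCU
  have hcB : (0 : ℝ) < Fintype.card B := by exact_mod_cast hB
  set κ₀ : ℝ := (Fintype.card CU : ℝ) / Fintype.card U with hκ₀
  have hκ₀0 : 0 < κ₀ := by positivity
  have cloc : (Fintype.card (((J × B) × C) × U) : ℝ) =
      Fintype.card J * Fintype.card B * Fintype.card C * Fintype.card U := by
    rw [Fintype.card_prod, Fintype.card_prod, Fintype.card_prod]; push_cast; ring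
  have cKU : Fintype.card ((Bool × (J × B)) × U) =
      2 * (Fintype.card J * Fintype.card B) * Fintype.card U := by
    rw [Fintype.card_prod, Fintype.card_prod, Fintype.card_prod, Fintype.card_bool]
  obtain ⟨htri, htf, -, hky⟩ := h2 J B U C σ hσ adj (Fintype.card CU)
    (fun y => by convert adjU_col γU y) (fun x => by convert adjU_row γU x)
  rw [← hH] at htri htf hky
  -- the sets
  set TF := (Finset.univ.filter fun z : Bool × (J × B) → Perm U =>
    ∀ ℓ : ((J × B) × C) × U, ¬ tri H adj z ℓ) with hTF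
  set OT := (Finset.univ.filter fun z : Bool × (J × B) → Perm U =>
    ∃ ℓ : ((J × B) × C) × U, only H adj z ℓ) with hOT
  -- counting of triangle-free inputs
  have htf := htf (by
    have : (2 * (Fintype.card C * Fintype.card CU) : ℝ) ≤ Fintype.card U := by
      have : (0 : ℝ) ≤ Fintype.card C * Fintype.card CU := by positivity
      linarith
    exact_mod_cast this)
  rw [Fintype.card_prod J B] at htf
  have hTF0 : (0 : ℝ) < TF.card := by
    have h1 : 0 < Fintype.card (Bool × (J × B) → Perm U) := Fintype.card_pos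
    have h2 := h1.trans_le htf
    exact_mod_cast Nat.pos_of_mul_pos_left h2
  have htfR : (Fintype.card (Bool × (J × B) → Perm U) : ℝ) ≤
      (Fintype.card U : ℝ) ^ (2 * (Fintype.card C * Fintype.card CU) *
        (Fintype.card J * Fintype.card B)) * TF.card := by exact_mod_cast htf
  set N := r * L with hN
  have hN0 : 0 < N := Nat.mul_pos hr hL
  set EV : (Bool × (J × B) → Perm U) → Set Ω := fun z => AE M P b (Gr z) N F with hEV
  -- probabilities
  have hrnd : ∀ z, MeasurableSet (EV z) ∧ ((Gr z).CliqueFree 3 → 1 / 2 ≤ μ.real (EV z)) ∧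
      (¬ (Gr z).CliqueFree 3 → μ.real (EV z) ≤ 1 / 3) := by
    intro z
    have hd := hdet (Gr z) (hdeg (toInp z))
    exact h6 _ Q A Γ Ω μ M f P φ' b (Gr z) N F hφ hf0 hfP hN0 hrL hd.1 hd.2.1 hd.2.2
      (fun m => (hexp (Gr z) (hdeg (toInp z)) m).trans (ENNReal.ofReal_le_ofReal (by linarith)))
  have ho : (1 / 2 : ℝ) * TF.card ≤ ∑ z ∈ TF, μ.real (EV z) := by
    calc (1 / 2 : ℝ) * TF.card = ∑ _z ∈ TF, (1 / 2 : ℝ) := by
          rw [Finset.sum_const, nsmul_eq_mul]; ring
      _ ≤ _ := by
          refine Finset.sum_le_sum fun z hz => (hrnd z).2.1 ?_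
          exact (cliqueFree_iff eJ eB eU (ES σ adj) (toInp z)).2
            ((htri z).2 (Finset.mem_filter.1 hz).2)
  set c1 : ℝ := κ₀ * ((1 - 3 * (1 / 60)) * ((1 - (1 / 40 + 1 / 40)) *
    Fintype.card (((J × B) × C) × U))) with hc1
  set cX := cTr (Fintype.card Q) (Fintype.card Γ) (Fintype.card A) near L r F with hcX
  set c2 : ℝ := κ₀ * (8 / (1 / 60) * (V : ℝ) ^ 2 * ((TF.card : ℝ) * (h0 +
        Fintype.card ((Bool × (J × B)) × U) / Real.sqrt Λ) +
        HR.nDesc fF V cX (Fintype.card ((Bool × (J × B)) × U)) *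
        (fF * (2 ^ fF * ((Real.exp 1 / Real.sqrt Λ) ^ h0 *
          Fintype.card (Bool × (J × B) → Perm U)))))) with hc2
  -- the deterministic inequality for every seed
  have hdetω : ∀ ω : Ω, c1 * (∑ z ∈ TF, (EV z).indicator (fun _ => (1 : ℝ)) ω) - c2 ≤
      ∑ z ∈ OT, (EV z).indicator (fun _ => (1 : ℝ)) ω := by
    intro ω
    obtain ⟨X, Y, st, hst, hhit, hsum, htg⟩ := h3 (Bool × (J × B)) U
      (Option (Fin (F + 1) × Q × ({a : A // P a} → Γ))) A Γ
      (capm (dfm eJ eB eU (ES σ adj) M ω) P b F) b L r F hL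
      (fun z => (h4 (Bool × (J × B)) U Q A Γ (dfm eJ eB eU (ES σ adj) M ω) P b F z (r * L)).1)
    have hacc : ∀ z, (∃ i q ν, st (Y.tr z) = some (i, q, ν) ∧ M.output q = some false) ↔
        ω ∈ EV z := by
      intro z
      rw [hst z]
      exact comb_acc h4 h5 eJ eB eU (ES σ adj) M ω P b F z (r * L)
    have h := det_ineq' (E := (J × B) × C) H Y
      (fun x => ∃ i q ν, st x = some (i, q, ν) ∧ M.output q = some false) adj k fF hV κ₀ lamU Λ
      (1 / 60) (1 / 40 + 1 / 40)
      (by norm_num) (by norm_num) hκ₀0.le (by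
        rw [hκ₀, div_le_iff₀ hcU]; linarith) hlamU hΛ hU
      (fun a b _ => by
        have := adjU_mix γU hγU lamU hlamU hψU a b
        rw [← hadj, ← hκ₀] at this
        convert this)
      (by
        rw [hκ₀, div_le_iff₀ hcU]
        have : 1 / 60 * ((Fintype.card CU : ℝ) / Fintype.card U) * Fintype.card U =
            1 / 60 * Fintype.card CU := by field_simp
        rw [this]
        linarith) h0
      (fun z => h1 J B U C X σ hσ M0 r Y L N k g V fF (1 / 40) (1 / 40) hsp hM0L hk hV hg hkg hfF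
          (by norm_num) (by norm_num) (by norm_num) (by rw [cloc]; exact hbad)
          (by rw [cKU]; push_cast; exact hw) z (hhit z) (hsum z))
      (TF.filter fun z => ∃ i q ν, st (Y.tr z) = some (i, q, ν) ∧ M.output q = some false)
      (OT.filter fun z => ∃ i q ν, st (Y.tr z) = some (i, q, ν) ∧ M.output q = some false)
      TF (by
        intro z
        simp only [hTF, Finset.mem_filter, Finset.mem_univ, true_and, and_comm]) (by
        intro z
        simp only [hTF, Finset.mem_filter, Finset.mem_univ, true_and]) (by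
        intro z
        simp only [hOT, Finset.mem_filter, Finset.mem_univ, true_and, and_comm])
    rw [card_ind TF _ EV ω (fun z _ => hacc z), card_ind OT _ EV ω (fun z _ => hacc z)] at h
    have htg' : Y.tg.card ≤ cX := by
      refine htg.trans (le_of_eq ?_)
      rw [comb_card P F near hnear]
      rfl
    have hnd : HR.nDesc fF V Y.tg.card (Fintype.card ((Bool × (J × B)) × U)) ≤
        HR.nDesc fF V cX (Fintype.card ((Bool × (J × B)) × U)) := by
      unfold HR.nDesc
      apply mul_le_mul_of_nonneg_right _ (by positivity)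
      exact_mod_cast htg'
    refine le_trans ?_ h
    rw [hc1, hc2]
    have h5 : 8 / (1 / 60) * (V : ℝ) ^ 2 * ((TF.card : ℝ) * (h0 +
        Fintype.card ((Bool × (J × B)) × U) / Real.sqrt Λ) +
        HR.nDesc fF V Y.tg.card (Fintype.card ((Bool × (J × B)) × U)) *
        (fF * (2 ^ fF * ((Real.exp 1 / Real.sqrt Λ) ^ h0 *
          Fintype.card (Bool × (J × B) → Perm U))))) ≤
        8 / (1 / 60) * (V : ℝ) ^ 2 * ((TF.card : ℝ) * (h0 +
        Fintype.card ((Bool × (J × B)) × U) / Real.sqrt Λ) +
        HR.nDesc fF V cX (Fintype.card ((Bool × (J × B)) × U)) *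
        (fF * (2 ^ fF * ((Real.exp 1 / Real.sqrt Λ) ^ h0 *
          Fintype.card (Bool × (J × B) → Perm U))))) := by
      apply mul_le_mul_of_nonneg_left _ (by positivity)
      apply add_le_add le_rfl
      exact mul_le_mul_of_nonneg_right hnd (by positivity)
    have h6 := mul_le_mul_of_nonneg_left h5 hκ₀0.le
    linarith
  -- averaging
  have havg := avg_ineq μ OT TF EV (fun z => (hrnd z).1) c1 c2 hdetω
  -- bounds for the probabilities
  have hp1 : ∀ z ∈ OT, μ.real (EV z) ≤ 1 / 3 := by
    intro z hz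
    obtain ⟨ℓ, hℓ⟩ := (Finset.mem_filter.1 hz).2
    refine (hrnd z).2.2 fun hfree => ?_
    exact (htri z).1 ((cliqueFree_iff eJ eB eU (ES σ adj) (toInp z)).1 hfree) ℓ hℓ.1
  have hs1 : ∑ z ∈ OT, μ.real (EV z) ≤ (1 / 3 : ℝ) * OT.card := by
    calc _ ≤ ∑ _z ∈ OT, (1 / 3 : ℝ) := Finset.sum_le_sum hp1
      _ = _ := by rw [Finset.sum_const, nsmul_eq_mul]; ring
  -- the number of inputs with one triangle
  have hot : (OT.card : ℝ) * ((Fintype.card U : ℝ) - 2 * (Fintype.card C * Fintype.card CU)) ≤
      (TF.card : ℝ) * Fintype.card (((J × B) × C) × U) * Fintype.card CU := by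
    have := ot_bound H adj (Fintype.card C) (Fintype.card CU) (fun κ => by convert hky κ)
      (fun y => by convert adjU_col γU y) (fun x => by convert adjU_row γU x)
    convert this
  have hot2 : (OT.card : ℝ) ≤ 20 / 19 * (κ₀ * Fintype.card (((J × B) × C) × U) * TF.card) := by
    have h1 : (OT.card : ℝ) * (19 / 20 * Fintype.card U) ≤
        (TF.card : ℝ) * Fintype.card (((J × B) × C) × U) * Fintype.card CU := by
      refine le_trans ?_ hot
      apply mul_le_mul_of_nonneg_left _ (by positivity)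
      linarith
    have h2 : (OT.card : ℝ) * (19 / 20 * Fintype.card U) ≤
        (20 / 19 * (κ₀ * Fintype.card (((J × B) × C) × U) * TF.card)) *
          (19 / 20 * Fintype.card U) := by
      refine h1.trans (le_of_eq ?_)
      rw [hκ₀]
      field_simp
    exact le_of_mul_le_mul_right h2 (by positivity)
  -- the error term
  have hloc0 : (0 : ℝ) < Fintype.card (((J × B) × C) × U) := by rw [cloc]; positivity
  have hc2le : c2 ≤ κ₀ * (1 / 20 * Fintype.card (((J × B) × C) × U) * TF.card) := by
    rw [hc2]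
    apply mul_le_mul_of_nonneg_left _ hκ₀0.le
    have hnd : 0 ≤ HR.nDesc fF V cX (Fintype.card ((Bool × (J × B)) × U)) := by
      unfold HR.nDesc; positivity
    calc 8 / (1 / 60) * (V : ℝ) ^ 2 * ((TF.card : ℝ) * (h0 +
        Fintype.card ((Bool × (J × B)) × U) / Real.sqrt Λ) +
        HR.nDesc fF V cX (Fintype.card ((Bool × (J × B)) × U)) *
        (fF * (2 ^ fF * ((Real.exp 1 / Real.sqrt Λ) ^ h0 *
          Fintype.card (Bool × (J × B) → Perm U)))))
        ≤ 8 / (1 / 60) * (V : ℝ) ^ 2 * ((TF.card : ℝ) * (h0 +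
        Fintype.card ((Bool × (J × B)) × U) / Real.sqrt Λ) +
        HR.nDesc fF V cX (Fintype.card ((Bool × (J × B)) × U)) *
        (fF * (2 ^ fF * ((Real.exp 1 / Real.sqrt Λ) ^ h0 *
          ((Fintype.card U : ℝ) ^ (2 * (Fintype.card C * Fintype.card CU) *
        (Fintype.card J * Fintype.card B)) * TF.card))))) := by
          gcongr
      _ = TF.card * (480 * (V : ℝ) ^ 2 * ((h0 + 2 * ((Fintype.card J : ℝ) * Fintype.card B) *
          Fintype.card U / Real.sqrt Λ) + HR.nDesc fF V cX
          (2 * (Fintype.card J * Fintype.card B) * Fintype.card U) *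
        (fF * (2 ^ fF * ((Real.exp 1 / Real.sqrt Λ) ^ h0 *
          (Fintype.card U : ℝ) ^ (2 * (Fintype.card C * Fintype.card CU) *
            (Fintype.card J * Fintype.card B))))))) := by
          rw [cKU]
          push_cast
          ring
      _ ≤ TF.card * (1 / 20 * (Fintype.card J * Fintype.card B * Fintype.card C *
          Fintype.card U)) := mul_le_mul_of_nonneg_left hmain hTF0.le
      _ = _ := by rw [cloc]; ring
  -- conclusion
  have hX : 0 < κ₀ * Fintype.card (((J × B) × C) × U) * TF.card := by positivity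
  have hc10 : 0 ≤ c1 := by
    rw [hc1]
    apply mul_nonneg hκ₀0.le
    apply mul_nonneg (by norm_num)
    apply mul_nonneg (by norm_num) hloc0.le
  have e3 := mul_le_mul_of_nonneg_left ho hc10
  have e4 : c1 * (1 / 2 * TF.card) = (361 / 400 * (1 / 2)) *
      (κ₀ * Fintype.card (((J × B) × C) × U) * TF.card) := by
    rw [hc1]; ring
  rw [e4] at e3
  have e5 : κ₀ * (1 / 20 * (Fintype.card (((J × B) × C) × U) : ℝ) * TF.card) =
      1 / 20 * (κ₀ * Fintype.card (((J × B) × C) × U) * TF.card) := by ring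
  rw [e5] at hc2le
  nlinarith

end Pool.Agent.RAC
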