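import Mathlib
import Pool.Agent.RAC.Stmts

/-!
# The logarithm of the number of transcripts
-/

namespace Pool.Agent.RAC

set_option autoImplicit false

private theorem cx_log_le {x s e : ℕ} (hx : 1 ≤ x) (h : x ≤ s ^ e) :
    Real.log (x : ℝ) ≤ (e : ℝ) * Real.log (s : ℝ) := by
  have h1 : (0 : ℝ) < (x : ℝ) := by exact_mod_cast hx
  have h2 : (x : ℝ) ≤ (s : ℝ) ^ e := by exact_mod_cast h
  have h3 := Real.log_le_log h1 h2
  rwa [Real.log_pow] at h3

private theorem cx_add_one {x s e : ℕ} (hs : 2 ≤ s) (h : x ≤ s ^ e) : x + 1 ≤ s ^ (e + 1) := by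
  have h1 : 1 ≤ s ^ e := Nat.one_le_pow _ _ (by omega)
  calc x + 1 ≤ s ^ e + s ^ e := by omega
    _ = 2 * s ^ e := by ring
    _ ≤ s * s ^ e := Nat.mul_le_mul_right _ hs
    _ = s ^ (e + 1) := by ring

/-- The logarithm of the number of transcripts. -/
theorem t_CX : S_CX := by
  intro κ s q γ a near L r F g S0 φ hs hg hq ha hγ hnear hS0 hφ hrL hF hFr
  have hs2 : 2 ≤ s := by omega
  have hlog : (0 : ℝ) ≤ Real.log (s : ℝ) := Real.log_nonneg (by exact_mod_cast (by omega : 1 ≤ s))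
  have hγn : γ ^ near ≤ s ^ (κ * g * near) := by
    calc γ ^ near ≤ (s ^ (κ * g)) ^ near := Nat.pow_le_pow_left hγ _
      _ = s ^ (κ * g * near) := by rw [← pow_mul]
  have hX : (F + 1) * (q * γ ^ near) + 1 ≤ s ^ (2 + (κ + κ * g * near) + 1) := by
    apply cx_add_one hs2
    calc (F + 1) * (q * γ ^ near) ≤ s ^ 2 * (s ^ κ * s ^ (κ * g * near)) := by
          apply Nat.mul_le_mul
          · exact le_trans (Nat.add_le_add_right hF 1) hrL
          · exact Nat.mul_le_mul hq hγn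
      _ = s ^ (2 + (κ + κ * g * near)) := by rw [← pow_add, ← pow_add]
  have hY : (r * L) * ((r * L + 1) * (a * γ)) + 1 ≤ s ^ (2 + (2 + (κ + κ * g)) + 1) := by
    apply cx_add_one hs2
    calc (r * L) * ((r * L + 1) * (a * γ)) ≤ s ^ 2 * (s ^ 2 * (s ^ κ * s ^ (κ * g))) := by
          apply Nat.mul_le_mul
          · exact le_trans (Nat.le_succ _) hrL
          · apply Nat.mul_le_mul hrL
            exact Nat.mul_le_mul ha hγ
      _ = s ^ (2 + (2 + (κ + κ * g))) := by rw [← pow_add, ← pow_add, ← pow_add]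
  have hX1 : 1 ≤ (F + 1) * (q * γ ^ near) + 1 := Nat.le_add_left _ _
  have hY1 : 1 ≤ (r * L) * ((r * L + 1) * (a * γ)) + 1 := Nat.le_add_left _ _
  refine ⟨?_, ?_⟩
  · unfold cTr
    exact Nat.one_le_iff_ne_zero.mpr (mul_ne_zero (pow_ne_zero _ (by omega)) (pow_ne_zero _ (by omega)))
  · have e1 : Real.log ((cTr q γ a near L r F : ℕ) : ℝ) =
        ((r : ℝ) + 1) * Real.log (((F + 1) * (q * γ ^ near) + 1 : ℕ) : ℝ) +
        (F : ℝ) * Real.log (((r * L) * ((r * L + 1) * (a * γ)) + 1 : ℕ) : ℝ) := by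
      have hXp : (((F + 1) * (q * γ ^ near) + 1 : ℕ) : ℝ) ≠ 0 := by
        exact_mod_cast (by omega : (F + 1) * (q * γ ^ near) + 1 ≠ 0)
      have hYp : (((r * L) * ((r * L + 1) * (a * γ)) + 1 : ℕ) : ℝ) ≠ 0 := by
        exact_mod_cast (by omega : (r * L) * ((r * L + 1) * (a * γ)) + 1 ≠ 0)
      unfold cTr
      rw [Nat.cast_mul, Nat.cast_pow, Nat.cast_pow, Real.log_mul (pow_ne_zero _ hXp)
        (pow_ne_zero _ hYp), Real.log_pow, Real.log_pow]
      push_cast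
      ring
    rw [e1]
    have bX := cx_log_le hX1 hX
    have bY := cx_log_le hY1 hY
    have hκ : (0 : ℝ) ≤ (κ : ℝ) := Nat.cast_nonneg _
    have hg1 : (1 : ℝ) ≤ (g : ℝ) := by exact_mod_cast hg
    -- first factor
    have cX : ((2 + (κ + κ * g * near) + 1 : ℕ) : ℝ) ≤ 2 * ((κ : ℝ) + 4) * S0 := by
      push_cast
      have h1 : (κ : ℝ) * g * near ≤ (κ : ℝ) * S0 := by
        have := mul_le_mul_of_nonneg_left hnear hκ
        nlinarith [this]
      nlinarith [mul_le_mul_of_nonneg_left hS0 hκ]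
    have bX' : Real.log (((F + 1) * (q * γ ^ near) + 1 : ℕ) : ℝ) ≤
        2 * ((κ : ℝ) + 4) * S0 * Real.log (s : ℝ) :=
      le_trans bX (mul_le_mul_of_nonneg_right cX hlog)
    have cY : ((2 + (2 + (κ + κ * g)) + 1 : ℕ) : ℝ) ≤ (5 + 2 * (κ : ℝ)) * g := by
      push_cast
      nlinarith [mul_le_mul_of_nonneg_left hg1 hκ]
    have bY' : Real.log (((r * L) * ((r * L + 1) * (a * γ)) + 1 : ℕ) : ℝ) ≤
        (5 + 2 * (κ : ℝ)) * g * Real.log (s : ℝ) :=
      le_trans bY (mul_le_mul_of_nonneg_right cY hlog)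
    have hr : (0 : ℝ) ≤ (r : ℝ) + 1 := by positivity
    have t1 := mul_le_mul_of_nonneg_left bX' hr
    have hF0 : (0 : ℝ) ≤ (F : ℝ) := Nat.cast_nonneg _
    have t2 : (F : ℝ) * Real.log (((r * L) * ((r * L + 1) * (a * γ)) + 1 : ℕ) : ℝ) ≤
        ((r * L : ℕ) : ℝ) / φ * (((κ : ℝ) + 3) * Real.log (s : ℝ)) := by
      have u1 := mul_le_mul_of_nonneg_left bY' hF0
      have hgp : (0 : ℝ) < (g : ℝ) := by linarith
      have u0 : (0 : ℝ) ≤ (5 + 2 * (κ : ℝ)) * g * Real.log (s : ℝ) := by positivity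
      have u2 := mul_le_mul_of_nonneg_right hFr u0
      have u3 : ((r * L : ℕ) : ℝ) / (2 * (φ * g)) * ((5 + 2 * (κ : ℝ)) * g * Real.log (s : ℝ)) =
          ((r * L : ℕ) : ℝ) / φ * ((5 + 2 * (κ : ℝ)) / 2 * Real.log (s : ℝ)) := by
        field_simp
      have hq0 : (0 : ℝ) ≤ ((r * L : ℕ) : ℝ) / φ := by positivity
      have u4 : ((r * L : ℕ) : ℝ) / φ * ((5 + 2 * (κ : ℝ)) / 2 * Real.log (s : ℝ)) ≤
          ((r * L : ℕ) : ℝ) / φ * (((κ : ℝ) + 3) * Real.log (s : ℝ)) := by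
        apply mul_le_mul_of_nonneg_left _ hq0
        apply mul_le_mul_of_nonneg_right _ hlog
        linarith
      linarith
    linarith

end Pool.Agent.RAC
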