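import Mathlib
import Pool.Agent.RAC.Stmts
import Pool.Agent.ACC.Core

/-!
# A machine with few accesses is an abstract computation with few transcripts
-/

set_option autoImplicit false
set_option linter.unusedVariables false
set_option linter.unusedSectionVars false

namespace Pool.Agent.RAC

open Finset Equiv Pool.Agent.TR Pool.Agent.HR Pool.Agent.ACC Pool.Agent.HM

section DSpre

variable {K U Q A Γ : Type}

/-- The state at time `τ`. -/
noncomputable def DS_q (M : DFM K U Q A Γ) (z : K → Perm U) (τ : ℕ) : Q := (M.run z τ).1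

/-- The write of step `τ`. -/
noncomputable def DS_w (M : DFM K U Q A Γ) (z : K → Perm U) (τ : ℕ) : Option (A × Γ) :=
  (M.mv z τ (M.run z τ)).2

/-- The machine with a far memory that has the same registers and reads. -/
def DS_fm (M : DFM K U Q A Γ) : FM Unit Unit Unit Q A Γ where
  start _ := True
  init := M.init
  rd := M.rd
  ask _ _ _ := none
  step _ _ _ _ _ _ := True
  acc _ := True

lemma DS_memo (M : DFM K U Q A Γ) (z : K → Perm U) (τ : ℕ) :
    (M.run z τ).2 = memo M.init (DS_w M z) τ := by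
  induction τ with
  | zero => rfl
  | succ τ ih =>
    show write (M.run z τ).2 (M.mv z τ (M.run z τ)).2 = _
    rw [memo, ← ih]
    rfl

lemma DS_val (M : DFM K U Q A Γ) (z : K → Perm U) (τ : ℕ) :
    M.val τ (M.run z τ) = (DS_fm M).val (DS_q M z) (DS_w M z) τ := by
  unfold DFM.val FM.val
  rw [DS_memo]
  rfl

/-- Equal states, contents read and answers make equal steps. -/
lemma DS_mv (M : DFM K U Q A Γ) (z1 z2 : K → Perm U) (τ : ℕ) (p1 p2 : Q × (A → Γ))
    (h1 : p1.1 = p2.1) (h2 : M.val τ p1 = M.val τ p2)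
    (h3 : ∀ p, M.qu τ p2 = some p → TR.val z1 (qsrc z2 p) = TR.val z2 (qsrc z2 p)) :
    M.qu τ p1 = M.qu τ p2 ∧ M.mv z1 τ p1 = M.mv z2 τ p2 := by
  have e1 : M.qu τ p1 = M.qu τ p2 := by
    unfold DFM.qu
    rw [h1, h2]
  refine ⟨e1, ?_⟩
  unfold DFM.mv
  rw [e1, h1, h2]
  congr 1
  rcases hq : M.qu τ p2 with _ | p
  · rfl
  · simp only [Option.map_some]
    congr 1
    exact (q_congr z2 z1 p (h3 p hq)).1

lemma DS_lastw_congr (w w' : ℕ → Option (A × Γ)) (a : A) (τ : ℕ) (h : ∀ σ < τ, w σ = w' σ) :
    lastw w a τ = lastw w' a τ := by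
  induction τ with
  | zero => rfl
  | succ τ ih =>
    rw [lastw, lastw, ih (fun σ hσ => h σ (by omega)), h τ (Nat.lt_succ_self τ)]

lemma DS_lastw_mix (w w' v : ℕ → Option (A × Γ)) (a : A) (τ : ℕ)
    (hv : ∀ σ < τ, v σ = w σ ∨ v σ = w' σ) (hl : lastw w a τ = lastw w' a τ) :
    lastw v a τ = lastw w a τ := by
  induction τ with
  | zero => rfl
  | succ τ ih =>
    rw [lastw, lastw] at hl
    rw [lastw, lastw]
    by_cases h1 : ∃ x, w τ = some (a, x)
    · rw [if_pos h1] at hl
      have h2 : ∃ x, w' τ = some (a, x) := by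
        by_contra hcon
        rw [if_neg hcon] at hl
        have := lastw_lt w' a τ τ hl.symm
        omega
      have h3 : ∃ x, v τ = some (a, x) := by
        rcases hv τ (Nat.lt_succ_self τ) with h | h
        · rw [h]; exact h1
        · rw [h]; exact h2
      rw [if_pos h1, if_pos h3]
    · rw [if_neg h1] at hl
      have h2 : ¬ ∃ x, w' τ = some (a, x) := by
        intro hcon
        rw [if_pos hcon] at hl
        have := lastw_lt w a τ τ hl
        omega
      rw [if_neg h2] at hl
      have h3 : ¬ ∃ x, v τ = some (a, x) := by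
        rcases hv τ (Nat.lt_succ_self τ) with h | h
        · rw [h]; exact h1
        · rw [h]; exact h2
      rw [if_neg h1, if_neg h3]
      exact ih (fun σ hσ => hv σ (by omega)) hl

variable (N : FM Unit Unit Unit Q A Γ) (b : Bool)

lemma DS_recd_congr (q q' : ℕ → Q) (w w' : ℕ → Option (A × Γ)) (τ : ℕ) (hq : q τ = q' τ)
    (hw : ∀ σ ≤ τ, w σ = w' σ) : N.recd b q w τ = N.recd b q' w' τ := by
  cases b with
  | true =>
    simp only [FM.recd, if_true]
    rw [hw τ le_rfl]
  | false =>
    simp only [FM.recd, Bool.false_eq_true, if_false]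
    rw [hq]
    congr 1
    funext a
    rw [DS_lastw_congr w w' a τ (fun σ hσ => hw σ hσ.le),
      memo_congr N.init w w' τ (fun σ hσ => hw σ hσ.le)]

lemma DS_recd_mix (t L : ℕ) (χ : ℕ → Bool) (q q' : ℕ → Q) (w w' : ℕ → Option (A × Γ))
    (hrec : ∀ τ < t, N.recd b q w τ = N.recd b q' w' τ) (τ : ℕ) (hτ : τ < t) :
    N.recd b (mixf χ L q q') (mixf χ L w w') τ = N.recd b q w τ := by
  have hmx : ∀ σ, mixf χ L w w' σ = w σ ∨ mixf χ L w w' σ = w' σ := by
    intro σ
    rw [mixf]
    split_ifs
    · exact Or.inl rfl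
    · exact Or.inr rfl
  have h0 := hrec τ hτ
  cases b with
  | true =>
    simp only [FM.recd, if_true] at h0 ⊢
    rcases hmx τ with h | h
    · rw [h]
    · rw [h]; exact h0.symm
  | false =>
    have hq : N.rd τ (mixf χ L q q' τ) = N.rd τ (q τ) ∨
        N.rd τ (mixf χ L q q' τ) = N.rd τ (q' τ) := by
      rw [mixf]
      split_ifs
      · exact Or.inl rfl
      · exact Or.inr rfl
    simp only [FM.recd, Bool.false_eq_true, if_false] at h0 ⊢
    rcases h1 : N.rd τ (q τ) with _ | a
    · rw [h1] at h0 hq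
      simp only [Option.map_none] at h0
      have h2 : N.rd τ (q' τ) = none := by
        rcases h3 : N.rd τ (q' τ) with _ | a'
        · rfl
        · rw [h3] at h0; simp at h0
      rw [h2] at hq
      have h3 : N.rd τ (mixf χ L q q' τ) = none := by
        rcases hq with h | h <;> exact h
      rw [h3]
      rfl
    · rw [h1] at h0 hq
      rcases h3 : N.rd τ (q' τ) with _ | a'
      · rw [h3] at h0; simp at h0
      · rw [h3] at h0 hq
        simp only [Option.map_some, Option.some.injEq, Prod.mk.injEq] at h0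
        obtain ⟨h4, rfl, h5⟩ := h0
        have h6 : N.rd τ (mixf χ L q q' τ) = some a := by
          rcases hq with h | h <;> exact h
        rw [h6]
        simp only [Option.map_some]
        rw [DS_lastw_mix w w' (mixf χ L w w') a τ (fun σ _ => hmx σ) h4,
          memo_mix N.init w w' (mixf χ L w w') a τ (fun σ _ => hmx σ) h4 h5]

end DSpre

section DShit

variable {K U Q A Γ : Type} [Fintype K] [Fintype U] [DecidableEq K] [DecidableEq U]

/-- The coordinates read in segment `j`. -/
noncomputable def DS_hit (M : DFM K U Q A Γ) (L : ℕ) (z : K → Perm U) (j : ℕ) :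
    Finset (K × U) := by
  classical
  exact Finset.univ.filter fun i => ∃ τ, τ / L = j ∧ ∃ p, M.qu τ (M.run z τ) = some p ∧
    qsrc z p = i

lemma DS_mem_hit {M : DFM K U Q A Γ} {L : ℕ} {z : K → Perm U} {j : ℕ} {i : K × U} :
    i ∈ DS_hit M L z j ↔ ∃ τ, τ / L = j ∧ ∃ p, M.qu τ (M.run z τ) = some p ∧ qsrc z p = i := by
  classical
  simp [DS_hit]

lemma DS_hit_card (M : DFM K U Q A Γ) (L : ℕ) (hL : 0 < L) (z : K → Perm U) (j : ℕ) :
    (DS_hit M L z j).card ≤ L := by
  classical
  have h1 : ∀ i ∈ DS_hit M L z j, ∃ τ, τ / L = j ∧ ∃ q, M.qu τ (M.run z τ) = some q ∧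
    qsrc z q = i := fun i hi => DS_mem_hit.1 hi
  choose! f hf using h1
  calc (DS_hit M L z j).card ≤ (Finset.Ico (j * L) (j * L + L)).card := by
        refine Finset.card_le_card_of_injOn f ?_ ?_
        · intro i hi
          have h2 := (hf i hi).1
          rw [Finset.mem_coe, Finset.mem_Ico]
          have h3 := Nat.div_mul_le_self (f i) L
          have h4 := Nat.lt_div_mul_add (a := f i) hL
          rw [h2] at h3 h4
          exact ⟨h3, h4⟩
        · intro i hi i' hi' hff
          obtain ⟨_, q, hq, hs⟩ := hf i hi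
          obtain ⟨_, q', hq', hs'⟩ := hf i' hi'
          rw [hff, hq'] at hq
          obtain rfl := Option.some.inj hq
          rw [← hs, ← hs']
    _ = L := by simp

/-- The transcript. -/
noncomputable def DS_tr (M : DFM K U Q A Γ) (b : Bool) (L r : ℕ) (z : K → Perm U) :
    Q × (Fin r → Q) × Finset (Σ _ : ℕ, Option ℕ × A × Γ) :=
  (DS_q M z (r * L), fun j => DS_q M z ((j + 1) * L),
    grph (r * L) ((DS_fm M).recd b (DS_q M z) (DS_w M z)))

variable (M : DFM K U Q A Γ) (b : Bool) (L r : ℕ) (sd : K → Bool)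

/-- The run on a mixed input follows the two runs. -/
lemma DS_mix (hL : 0 < L) (χ : ℕ → Bool) (z z' : K → Perm U) (F : Finset (K × U))
    (hoff : ∀ i, i ∉ F → TR.val z i = TR.val z' i) (htr : DS_tr M b L r z = DS_tr M b L r z')
    (h1 : ∀ j < r, χ j = true → ∀ i ∈ DS_hit M L z j, sd i.1 = false → i ∉ F)
    (h2 : ∀ j < r, χ j = false → ∀ i ∈ DS_hit M L z' j, sd i.1 = true → i ∉ F) :
    ∀ τ ≤ r * L, DS_q M (mix sd z z') τ = mixf χ L (DS_q M z) (DS_q M z') τ ∧
      ∀ σ < τ, DS_w M (mix sd z z') σ = mixf χ L (DS_w M z) (DS_w M z') σ ∧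
        (χ (σ / L) = true → M.qu σ (M.run (mix sd z z') σ) = M.qu σ (M.run z σ)) ∧
        (χ (σ / L) = false → M.qu σ (M.run (mix sd z z') σ) = M.qu σ (M.run z' σ)) := by
  simp only [DS_tr, Prod.mk.injEq] at htr
  obtain ⟨_, hbd, hgr⟩ := htr
  have hrec : ∀ τ < r * L, (DS_fm M).recd b (DS_q M z) (DS_w M z) τ =
      (DS_fm M).recd b (DS_q M z') (DS_w M z') τ := fun τ hτ => grph_inj hgr τ hτ
  intro τ
  induction τ with
  | zero =>
    intro _
    refine ⟨?_, fun σ hσ => absurd hσ (by omega)⟩
    rw [mixf]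
    split_ifs <;> rfl
  | succ τ ih =>
    intro hτ
    have hτ' : τ < r * L := by omega
    obtain ⟨ihq, ihw⟩ := ih hτ'.le
    have hj : τ / L < r := (Nat.div_lt_iff_lt_mul hL).2 hτ'
    have hseg : DS_q M z (τ + 1) = DS_q M z' (τ + 1) ∨ (τ + 1) / L = τ / L := by
      by_cases hm : L ∣ τ + 1
      · left
        obtain ⟨j, hj'⟩ := hm
        have hj0 : j ≠ 0 := by rintro rfl; omega
        obtain ⟨j', rfl⟩ := Nat.exists_eq_succ_of_ne_zero hj0
        have hj'r : j' < r := by
          have h3 : L * (j' + 1) ≤ L * r := by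
            rw [mul_comm L r]
            have := hj'
            simp only [Nat.succ_eq_add_one] at this
            omega
          have := Nat.le_of_mul_le_mul_left h3 hL
          omega
        have := congrFun hbd ⟨j', hj'r⟩
        simp only at this
        rw [hj', Nat.succ_eq_add_one, mul_comm L (j' + 1)]
        exact this
      · right
        rw [Nat.succ_div, if_neg hm, add_zero]
    -- the contents of the registers
    have hmem : (M.run (mix sd z z') τ).2 =
        memo M.init (mixf χ L (DS_w M z) (DS_w M z')) τ := by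
      rw [DS_memo]
      exact memo_congr _ _ _ _ fun σ hσ => (ihw σ hσ).1
    obtain ⟨hv1, hv2⟩ := val_mix (DS_fm M) b (r * L) L χ (DS_q M z) (DS_q M z') (DS_w M z)
      (DS_w M z') hrec τ hτ'
    by_cases hc : χ (τ / L) = true
    · have hq0 : (M.run (mix sd z z') τ).1 = (M.run z τ).1 := by
        have := ihq
        rw [mixf_true hc] at this
        exact this
      have hval : M.val τ (M.run (mix sd z z') τ) = M.val τ (M.run z τ) := by
        rw [DS_val M z τ, ← hv1]
        unfold DFM.val FM.val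
        rw [hmem, hq0]
        rfl
      obtain ⟨e1, e2⟩ := DS_mv M (mix sd z z') z τ _ _ hq0 hval (by
        intro p hp
        cases hs : sd (qsrc z p).1 with
        | true => exact val_mix_true hs
        | false =>
          rw [val_mix_false hs]
          exact (hoff _ (h1 _ hj hc _ (DS_mem_hit.2 ⟨τ, rfl, p, hp, rfl⟩) hs)).symm)
      have hnext : DS_q M (mix sd z z') (τ + 1) = DS_q M z (τ + 1) := by
        show (M.mv (mix sd z z') τ (M.run (mix sd z z') τ)).1 = (M.mv z τ (M.run z τ)).1
        rw [e2]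
      have hwr : DS_w M (mix sd z z') τ = DS_w M z τ := congrArg Prod.snd e2
      refine ⟨?_, ?_⟩
      · rw [hnext]
        rcases hseg with h | h
        · rw [mixf, h]; simp
        · rw [mixf, h, if_pos hc]
      · intro σ hσ
        rcases Nat.lt_succ_iff_lt_or_eq.1 hσ with h | rfl
        · exact ihw σ h
        · refine ⟨by rw [hwr, mixf_true hc], fun _ => e1, fun h => ?_⟩
          rw [hc] at h
          exact absurd h (by decide)
    · have hc' : χ (τ / L) = false := by simpa using hc
      have hq0 : (M.run (mix sd z z') τ).1 = (M.run z' τ).1 := by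
        have := ihq
        rw [mixf_false hc'] at this
        exact this
      have hval : M.val τ (M.run (mix sd z z') τ) = M.val τ (M.run z' τ) := by
        rw [DS_val M z' τ, ← hv2]
        unfold DFM.val FM.val
        rw [hmem, hq0]
        rfl
      obtain ⟨e1, e2⟩ := DS_mv M (mix sd z z') z' τ _ _ hq0 hval (by
        intro p hp
        cases hs : sd (qsrc z' p).1 with
        | false => exact val_mix_false hs
        | true =>
          rw [val_mix_true hs]
          exact hoff _ (h2 _ hj hc' _ (DS_mem_hit.2 ⟨τ, rfl, p, hp, rfl⟩) hs))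
      have hnext : DS_q M (mix sd z z') (τ + 1) = DS_q M z' (τ + 1) := by
        show (M.mv (mix sd z z') τ (M.run (mix sd z z') τ)).1 = (M.mv z' τ (M.run z' τ)).1
        rw [e2]
      have hwr : DS_w M (mix sd z z') τ = DS_w M z' τ := congrArg Prod.snd e2
      refine ⟨?_, ?_⟩
      · rw [hnext]
        rcases hseg with h | h
        · rw [mixf, h]; simp
        · rw [mixf, h, if_neg hc]
      · intro σ hσ
        rcases Nat.lt_succ_iff_lt_or_eq.1 hσ with h | rfl
        · exact ihw σ h
        · refine ⟨by rw [hwr, mixf_false hc'], fun h => absurd h hc, fun _ => e1⟩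

/-- The class of a transcript is closed under mixing. -/
lemma DS_cl (hL : 0 < L) (z z' : K → Perm U) (F : Finset (K × U))
    (hoff : ∀ i, i ∉ F → TR.val z i = TR.val z' i) (htr : DS_tr M b L r z = DS_tr M b L r z')
    (c : Fin r → Bool)
    (h1 : ∀ j, c j = true → ∀ i ∈ DS_hit M L z j, sd i.1 = false → i ∉ F)
    (h2 : ∀ j, c j = false → ∀ i ∈ DS_hit M L z' j, sd i.1 = true → i ∉ F) :
    DS_tr M b L r (mix sd z z') = DS_tr M b L r z ∧
    ∀ j : Fin r, DS_hit M L (mix sd z z') j =
      if c j = true then DS_hit M L z j else DS_hit M L z' j := by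
  set χ : ℕ → Bool := fun j => if h : j < r then c ⟨j, h⟩ else true with hχ
  have hχc : ∀ j : Fin r, χ j = c j := by
    intro j
    simp [hχ]
  have hrun := DS_mix M b L r sd hL χ z z' F hoff htr
    (fun j hj hc => h1 ⟨j, hj⟩ (by rw [← hχc]; exact hc))
    (fun j hj hc => h2 ⟨j, hj⟩ (by rw [← hχc]; exact hc))
  have htr0 := htr
  simp only [DS_tr, Prod.mk.injEq] at htr0
  obtain ⟨hend, hbd, hgr⟩ := htr0
  have hrec : ∀ τ < r * L, (DS_fm M).recd b (DS_q M z) (DS_w M z) τ =
      (DS_fm M).recd b (DS_q M z') (DS_w M z') τ := fun τ hτ => grph_inj hgr τ hτ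
  have hst : ∀ τ ≤ r * L, DS_q M z τ = DS_q M z' τ → DS_q M (mix sd z z') τ = DS_q M z τ := by
    intro τ hτ h
    rw [(hrun τ hτ).1, mixf, ← h]
    simp
  refine ⟨?_, ?_⟩
  · unfold DS_tr
    refine Prod.ext ?_ (Prod.ext ?_ ?_)
    · exact hst _ le_rfl hend
    · funext j
      have hle : ((j : ℕ) + 1) * L ≤ r * L := Nat.mul_le_mul_right _ j.2
      exact hst _ hle (congrFun hbd j)
    · show grph (r * L) _ = grph (r * L) _
      have hall : ∀ τ < r * L, (DS_fm M).recd b (DS_q M (mix sd z z')) (DS_w M (mix sd z z')) τ =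
          (DS_fm M).recd b (DS_q M z) (DS_w M z) τ := by
        intro τ hτ
        rw [← DS_recd_mix (DS_fm M) b (r * L) L χ (DS_q M z) (DS_q M z') (DS_w M z) (DS_w M z')
          hrec τ hτ]
        exact DS_recd_congr _ _ _ _ _ _ _ (hrun τ hτ.le).1
          (fun σ hσ => ((hrun (τ + 1) hτ).2 σ (by omega)).1)
      ext ⟨τ, x⟩
      simp only [grph, Finset.mem_sigma, Finset.mem_range, Option.mem_toFinset]
      exact and_congr_right fun hτ => by rw [hall τ hτ]
  · intro j
    have hlt : ∀ τ, τ / L = j → τ < r * L := fun τ hτ =>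
      (Nat.div_lt_iff_lt_mul hL).1 (hτ ▸ j.2)
    cases hcj : c j with
    | true =>
      rw [if_pos rfl]
      ext i
      rw [DS_mem_hit, DS_mem_hit]
      refine exists_congr fun τ => and_congr_right fun hτ => exists_congr fun p => ?_
      have hχτ : χ (τ / L) = true := by rw [hτ, hχc, hcj]
      rw [((hrun (τ + 1) (hlt τ hτ)).2 τ (Nat.lt_succ_self τ)).2.1 hχτ]
      refine and_congr_right fun hq => ?_
      rw [(q_congr z (mix sd z z') p ?_).2]
      cases hs : sd (qsrc z p).1 with
      | true => exact val_mix_true hs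
      | false =>
        rw [val_mix_false hs]
        exact (hoff _ (h1 j hcj _ (DS_mem_hit.2 ⟨τ, hτ, p, hq, rfl⟩) hs)).symm
    | false =>
      rw [if_neg (by decide)]
      ext i
      rw [DS_mem_hit, DS_mem_hit]
      refine exists_congr fun τ => and_congr_right fun hτ => exists_congr fun p => ?_
      have hχτ : χ (τ / L) = false := by rw [hτ, hχc, hcj]
      rw [((hrun (τ + 1) (hlt τ hτ)).2 τ (Nat.lt_succ_self τ)).2.2 hχτ]
      refine and_congr_right fun hq => ?_
      rw [(q_congr z' (mix sd z z') p ?_).2]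
      cases hs : sd (qsrc z' p).1 with
      | false => exact val_mix_false hs
      | true =>
        rw [val_mix_true hs]
        exact hoff _ (h2 j hcj _ (DS_mem_hit.2 ⟨τ, hτ, p, hq, rfl⟩) hs)

/-- The number of the records. -/
lemma DS_rec_card (z : K → Perm U) (t : ℕ) :
    (grph t ((DS_fm M).recd b (DS_q M z) (DS_w M z))).card = M.cnt (fun _ => False) b z t := by
  rw [grph_card]
  unfold DFM.cnt
  congr 1
  ext τ
  refine Finset.mem_filter.trans (Iff.trans ?_ (@Finset.mem_filter _ _ (_) _ _).symm)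
  refine and_congr_right fun _ => ?_
  cases b with
  | true =>
    simp only [FM.recd, DFM.acs, if_true, DS_w]
    rcases (M.mv z τ (M.run z τ)).2 with _ | ⟨a, v⟩ <;> simp
  | false =>
    simp only [FM.recd, DFM.acs, Bool.false_eq_true, if_false, DS_q]
    show Option.map _ (M.rd τ (M.run z τ).1) ≠ none ↔ _
    rcases M.rd τ (M.run z τ).1 with _ | a <;> simp

end DShit

/-- Module DS. -/
theorem t_DS : S_DS := by
  classical
  intro K U Q A Γ _ _ _ _ _ _ _ M b L r F hL hF
  refine ⟨Q × (Fin r → Q) × Finset (Σ _ : ℕ, Option ℕ × A × Γ),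
    { hit := fun z j => DS_hit M L z j
      tr := DS_tr M b L r
      tg := Finset.univ ×ˢ (Finset.univ ×ˢ smallSets (recSpace A Γ (r * L)) F)
      mem_tg := ?_
      cl := ?_ }, Prod.fst, ?_, ?_, ?_, ?_⟩
  · intro z
    unfold DS_tr
    rw [Finset.mem_product, Finset.mem_product, mem_smallSets]
    refine ⟨Finset.mem_univ _, Finset.mem_univ _, grph_sub _ _ _ _ _, ?_⟩
    show (grph (r * L) ((DS_fm M).recd b (DS_q M z) (DS_w M z))).card ≤ F
    rw [DS_rec_card]
    exact hF z
  · intro sd z z' F0 hoff htr c h1 h2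
    exact DS_cl M b L r sd hL z z' F0 hoff htr c h1 h2
  · intro z
    rfl
  · intro z j
    exact DS_hit_card M L hL z j
  · intro z
    calc ∑ j : Fin r, (DS_hit M L z j).card ≤ ∑ _j : Fin r, L :=
          Finset.sum_le_sum fun j _ => DS_hit_card M L hL z j
      _ = r * L := by simp
  · have h := smallSets_card (recSpace A Γ (r * L)) F
    rw [recSpace_card] at h
    show (Finset.univ ×ˢ (Finset.univ ×ˢ smallSets (recSpace A Γ (r * L)) F)).card ≤ _
    rw [Finset.card_product, Finset.card_product, Finset.card_univ, Finset.card_univ,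
      Fintype.card_fun, Fintype.card_fin, ← mul_assoc, pow_succ']
    exact Nat.mul_le_mul_left _ h

end Pool.Agent.RAC
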