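import Mathlib
import Pool.Agent.RAC.Stmts

/-!
# Module ENC: the runs of the deterministic machine and of the machine on graphs agree
-/

set_option autoImplicit false
set_option linter.unusedSectionVars false

namespace Pool.Agent.RAC

open Finset Equiv Pool.Agent.TS Pool.Agent.TR Pool.Agent.HR Pool.Agent.ACC Pool.Agent.HM

section Enc

variable {J B U : Type} {t d w pad : ℕ} (eJ : J ≃ Fin t) (eB : B ≃ Fin d) (eU : U ≃ Fin w)
  {Q A Γ Ω : Type}

/-- The content read is the same if the machine has not answered. -/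
private lemma enc_val (E : B × U → B × U → Prop)
    (M : RMachine (t * w + (d * w + (d * w + pad))) Q A Γ Ω) (ω : Ω) (i : ℕ) (p : Q × (A → Γ))
    (h : ¬ (M.output p.1).isSome) :
    (dfm eJ eB eU E M ω).val i p = (M.rd ω i p.1).map p.2 := by
  unfold DFM.val
  simp only [dfm]
  rw [if_neg h]

/-- A machine that has answered does nothing. -/
private lemma enc_mv_some (E : B × U → B × U → Prop)
    (M : RMachine (t * w + (d * w + (d * w + pad))) Q A Γ Ω) (ω : Ω)
    (z : Bool × (J × B) → Perm U) (i : ℕ) (p : Q × (A → Γ))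
    (h : (M.output p.1).isSome) :
    (dfm eJ eB eU E M ω).mv z i p = (p.1, none) := by
  have hs : ∀ γ a, (dfm eJ eB eU E M ω).step i p.1 γ a = (p.1, none) := by
    intro γ a
    simp only [dfm]
    rw [if_pos h]
  unfold DFM.mv
  rw [hs]

/-- The moves agree if the machine has not answered. -/
private lemma enc_mv (E : B × U → B × U → Prop)
    (M : RMachine (t * w + (d * w + (d * w + pad))) Q A Γ Ω) (ω : Ω)
    (z : Bool × (J × B) → Perm U) (i : ℕ) (p : Q × (A → Γ))
    (h : ¬ (M.output p.1).isSome) :
    (dfm eJ eB eU E M ω).mv z i p = M.move ω (theGraph eJ eB eU pad E (toInp z)) i p := by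
  unfold DFM.mv DFM.qu
  rw [enc_val eJ eB eU E M ω i p h]
  unfold RMachine.move
  simp only [dfm]
  rw [if_neg h]
  split_ifs with h2
  · congr 1
    apply answer_eq
    exact (map_conv h2.choose _).symm.trans (h2.choose_spec.trans (map_conv z _))
  · exact absurd ⟨z, rfl⟩ h2

private lemma enc_run (E : B × U → B × U → Prop)
    (M : RMachine (t * w + (d * w + (d * w + pad))) Q A Γ Ω) (ω : Ω)
    (z : Bool × (J × B) → Perm U) (i : ℕ) :
    (dfm eJ eB eU E M ω).run z i = M.run ω (theGraph eJ eB eU pad E (toInp z)) i := by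
  induction i with
  | zero => rfl
  | succ i ih =>
    show (((dfm eJ eB eU E M ω).mv z i ((dfm eJ eB eU E M ω).run z i)).1,
      write ((dfm eJ eB eU E M ω).run z i).2
        ((dfm eJ eB eU E M ω).mv z i ((dfm eJ eB eU E M ω).run z i)).2) =
      if (M.output (M.run ω (theGraph eJ eB eU pad E (toInp z)) i).1).isSome then
        M.run ω (theGraph eJ eB eU pad E (toInp z)) i
      else ((M.move ω (theGraph eJ eB eU pad E (toInp z)) i
          (M.run ω (theGraph eJ eB eU pad E (toInp z)) i)).1,
        write (M.run ω (theGraph eJ eB eU pad E (toInp z)) i).2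
          (M.move ω (theGraph eJ eB eU pad E (toInp z)) i
            (M.run ω (theGraph eJ eB eU pad E (toInp z)) i)).2)
    rw [ih]
    by_cases h1 : (M.output (M.run ω (theGraph eJ eB eU pad E (toInp z)) i).1).isSome
    · rw [enc_mv_some eJ eB eU E M ω z i _ h1, if_pos h1]
      rfl
    · rw [enc_mv eJ eB eU E M ω z i _ h1, if_neg h1]

end Enc

theorem t_ENC : S_ENC := by
  intro J B U t d w pad eJ eB eU Q A Γ Ω E M ω z i
  refine ⟨enc_run eJ eB eU E M ω z i, fun b => ?_⟩
  rw [enc_run eJ eB eU E M ω z i]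
  unfold DFM.acs RMachine.access RMachine.out
  by_cases h1 : (M.output (M.run ω (theGraph eJ eB eU pad E (toInp z)) i).1).isSome
  · rw [if_pos h1, enc_mv_some eJ eB eU E M ω z i _ h1]
    have hr : (dfm eJ eB eU E M ω).rd i
        (M.run ω (theGraph eJ eB eU pad E (toInp z)) i).1 = none := by
      simp only [dfm]
      rw [if_pos h1]
    rw [hr]
    cases b <;> rfl
  · rw [if_neg h1, enc_mv eJ eB eU E M ω z i _ h1]
    have hr : (dfm eJ eB eU E M ω).rd i
        (M.run ω (theGraph eJ eB eU pad E (toInp z)) i).1 =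
        M.rd ω i (M.run ω (theGraph eJ eB eU pad E (toInp z)) i).1 := by
      simp only [dfm]
      rw [if_neg h1]
    rw [hr]

end Pool.Agent.RAC
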