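import Mathlib
import Pool.Agent.RAC.Stmts

/-!
# Project RAC, module HM: the main numerical condition
-/

set_option autoImplicit false

namespace Pool.Agent.RAC

open Finset Equiv Pool.Agent.TS Pool.Agent.TR Pool.Agent.HR Pool.Agent.ACC Pool.Agent.HM

/-- The basic size relations. -/
private lemma hm_size (D q V : ℕ) (hD : 8 ≤ D) (hV : V = 320 * D) (hq : 121 * V ^ K0 ≤ q) :
    (V : ℝ) ^ K0 ≤ ((q : ℝ) - 1) / 120 ∧ (10 : ℝ) ^ 12 * D ≤ Real.sqrt (((q : ℝ) - 1) / 120) ∧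
      (10 : ℝ) ^ 12 * D ≤ q ∧ 144 * (D : ℝ) ^ 4 ≤ q ∧ 1 ≤ q := by
  have hDR : (8 : ℝ) ≤ D := by exact_mod_cast hD
  have hVR : (V : ℝ) = 320 * D := by exact_mod_cast hV
  have hV1 : (1 : ℝ) ≤ V := by rw [hVR]; linarith
  have hqR : 121 * (V : ℝ) ^ K0 ≤ q := by exact_mod_cast hq
  have hVK1 : (1 : ℝ) ≤ (V : ℝ) ^ K0 := one_le_pow₀ hV1
  have hK : 10 ≤ K0 := by unfold K0; norm_num
  have hV10 : (V : ℝ) ^ 10 ≤ (V : ℝ) ^ K0 := pow_le_pow_right₀ hV1 hK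
  have hL : (V : ℝ) ^ K0 ≤ ((q : ℝ) - 1) / 120 := by
    rw [le_div_iff₀ (by norm_num)]
    linarith
  have hD1 : (1 : ℝ) ≤ D := by linarith
  have hV5 : (10 : ℝ) ^ 12 * D ≤ (V : ℝ) ^ 5 := by
    have h1 : (V : ℝ) ^ 5 = 3355443200000 * (D : ℝ) ^ 5 := by
      rw [hVR]
      ring
    have h2 : (D : ℝ) ≤ (D : ℝ) ^ 5 := by
      calc (D : ℝ) = (D : ℝ) ^ 1 := (pow_one _).symm
        _ ≤ (D : ℝ) ^ 5 := pow_le_pow_right₀ hD1 (by norm_num)
    rw [h1]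
    have h3 : (0 : ℝ) ≤ D := by linarith
    calc (10 : ℝ) ^ 12 * D ≤ 3355443200000 * D := by
          apply mul_le_mul_of_nonneg_right (by norm_num) h3
      _ ≤ 3355443200000 * (D : ℝ) ^ 5 := by linarith
  refine ⟨hL, ?_, ?_, ?_, ?_⟩
  · refine hV5.trans (Real.le_sqrt_of_sq_le ?_)
    calc ((V : ℝ) ^ 5) ^ 2 = (V : ℝ) ^ 10 := by ring
      _ ≤ _ := hV10.trans hL
  · have h4 : (V : ℝ) ^ 5 ≤ (V : ℝ) ^ K0 := pow_le_pow_right₀ hV1 (le_trans (by norm_num) hK)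
    have h5 : (V : ℝ) ^ K0 ≤ 121 * (V : ℝ) ^ K0 := by linarith
    exact hV5.trans (h4.trans (h5.trans hqR))
  · have h4 : (V : ℝ) ^ 4 ≤ (V : ℝ) ^ K0 := pow_le_pow_right₀ hV1 (le_trans (by norm_num) hK)
    have h5 : (V : ℝ) ^ 4 = 10485760000 * (D : ℝ) ^ 4 := by
      rw [hVR]
      ring
    have h6 : (0 : ℝ) ≤ (D : ℝ) ^ 4 := by positivity
    linarith
  · have h7 : (1 : ℝ) ≤ q := by linarith
    exact_mod_cast h7

/-- `6 D^2 log q ≤ q`. -/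
private lemma hm_log (D q : ℕ) (h4 : 144 * (D : ℝ) ^ 4 ≤ q) (hq : 1 ≤ q) :
    6 * (D : ℝ) ^ 2 * Real.log q ≤ q := by
  have hq0 : (0 : ℝ) < q := by exact_mod_cast hq
  have hs : Real.sqrt q ^ 2 = q := Real.sq_sqrt hq0.le
  have hs0 : 0 < Real.sqrt q := Real.sqrt_pos.mpr hq0
  have h1 : 12 * (D : ℝ) ^ 2 ≤ Real.sqrt q := by
    apply Real.le_sqrt_of_sq_le
    calc (12 * (D : ℝ) ^ 2) ^ 2 = 144 * (D : ℝ) ^ 4 := by ring
      _ ≤ _ := h4
  have h2 : Real.log q = 2 * Real.log (Real.sqrt q) := by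
    rw [Real.log_sqrt hq0.le]
    ring
  have h3 : Real.log (Real.sqrt q) ≤ Real.sqrt q := by
    have := Real.log_le_sub_one_of_pos hs0
    linarith
  have h5 : (0 : ℝ) ≤ (D : ℝ) ^ 2 := by positivity
  calc 6 * (D : ℝ) ^ 2 * Real.log q = 12 * (D : ℝ) ^ 2 * Real.log (Real.sqrt q) := by
        rw [h2]
        ring
    _ ≤ 12 * (D : ℝ) ^ 2 * Real.sqrt q := by
        apply mul_le_mul_of_nonneg_left h3 (by positivity)
    _ ≤ Real.sqrt q * Real.sqrt q := mul_le_mul_of_nonneg_right h1 hs0.le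
    _ = q := by rw [← sq, hs]

/-- The last factor is at most one. -/
private lemma hm_prod (t Bc D q V fF h0 cX : ℕ) (ht : 0 < t) (hB : 0 < Bc) (hD : 8 ≤ D)
    (hV : V = 320 * D) (hq : 121 * V ^ K0 ≤ q) (hf0 : 0 < fF) (hcX : 1 ≤ cX)
    (hh1 : ((t : ℝ) * Bc * q ^ 3 / D) / (6 * 10 ^ 9) ≤ h0)
    (hh2 : (h0 : ℝ) ≤ ((t : ℝ) * Bc * q ^ 3 / D) / (3 * 10 ^ 9))
    (hf2 : (fF : ℝ) ≤ 5 * ((t : ℝ) * Bc * q ^ 3 / D))
    (hlc : Real.log cX ≤ ((t : ℝ) * Bc * q ^ 3 / D) / (24 * 10 ^ 9) *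
      Real.log (((q : ℝ) - 1) / 120)) :
    HR.nDesc fF V cX (2 * (t * Bc) * q ^ 3) *
        (fF * (2 ^ fF * ((Real.exp 1 / Real.sqrt (((q : ℝ) - 1) / 120)) ^ h0 *
          ((q ^ 3 : ℕ) : ℝ) ^ (2 * (D * ((q - 1) * q)) * (t * Bc))))) ≤ 1 := by
  obtain ⟨hL, hsq, hqD, hq4, hq1⟩ := hm_size D q V hD hV hq
  have hDR : (8 : ℝ) ≤ D := by exact_mod_cast hD
  have hVR : (V : ℝ) = 320 * D := by exact_mod_cast hV
  have hV3 : (3 : ℝ) ≤ V := by rw [hVR]; linarith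
  have hV1 : (1 : ℝ) ≤ V := by linarith
  have hVK1 : (1 : ℝ) ≤ (V : ℝ) ^ K0 := one_le_pow₀ hV1
  set Λ : ℝ := ((q : ℝ) - 1) / 120 with hΛ
  have hΛ1 : 1 ≤ Λ := hVK1.trans hL
  have hΛ0 : 0 < Λ := by linarith
  set lV : ℝ := Real.log V with hlV
  set lΛ : ℝ := Real.log Λ with hlΛ
  have hlV1 : 1 ≤ lV := by
    have h1 : Real.exp 1 ≤ V := (Real.exp_one_lt_three.le).trans hV3
    rw [hlV, Real.le_log_iff_exp_le (by linarith)]
    exact h1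
  have hlog : 500000000000 * lV ≤ lΛ := by
    have h1 : Real.log ((V : ℝ) ^ K0) ≤ Real.log Λ := Real.log_le_log (by linarith) hL
    rw [Real.log_pow] at h1
    have h2 : ((K0 : ℕ) : ℝ) = 500000000000 := by
      unfold K0
      norm_num
    rw [h2] at h1
    exact h1
  have htR : (1 : ℝ) ≤ t := by exact_mod_cast ht
  have hBR : (1 : ℝ) ≤ Bc := by exact_mod_cast hB
  have hqR : (1 : ℝ) ≤ q := by exact_mod_cast hq1
  set ν : ℝ := (t : ℝ) * Bc * q ^ 3 / D with hν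
  have hν0 : 0 ≤ ν := by positivity
  have hD0 : (0 : ℝ) < D := by linarith
  have hm : ((2 * (D * ((q - 1) * q)) * (t * Bc) : ℕ) : ℝ) * Real.log (((q ^ 3 : ℕ) : ℝ)) ≤ ν := by
    have e1 : Real.log (((q ^ 3 : ℕ) : ℝ)) = 3 * Real.log q := by
      push_cast
      rw [Real.log_pow]
      norm_num
    have hlq0 : 0 ≤ Real.log q := Real.log_nonneg hqR
    have e2 : ((2 * (D * ((q - 1) * q)) * (t * Bc) : ℕ) : ℝ) ≤ 2 * (D * ((q : ℝ) * q)) * (t * Bc) := by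
      have : 2 * (D * ((q - 1) * q)) * (t * Bc) ≤ 2 * (D * (q * q)) * (t * Bc) := by
        gcongr
        omega
      calc ((2 * (D * ((q - 1) * q)) * (t * Bc) : ℕ) : ℝ)
          ≤ ((2 * (D * (q * q)) * (t * Bc) : ℕ) : ℝ) := by exact_mod_cast this
        _ = _ := by push_cast; ring
    rw [e1]
    calc ((2 * (D * ((q - 1) * q)) * (t * Bc) : ℕ) : ℝ) * (3 * Real.log q)
        ≤ 2 * (D * ((q : ℝ) * q)) * (t * Bc) * (3 * Real.log q) := by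
          apply mul_le_mul_of_nonneg_right e2
          positivity
      _ = (6 * (D : ℝ) ^ 2 * Real.log q) * ((t : ℝ) * Bc * q ^ 2 / D) := by
          field_simp
          ring
      _ ≤ q * ((t : ℝ) * Bc * q ^ 2 / D) := by
          apply mul_le_mul_of_nonneg_right (hm_log D q hq4 hq1)
          positivity
      _ = ν := by
          rw [hν]
          ring
  have hx : 2 * ((2 * (t * Bc) * q ^ 3 : ℕ) : ℝ) / V = ν / 80 := by
    push_cast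
    rw [hVR, hν]
    field_simp
    ring
  have hprod := prod_le_one (cX : ℝ) V Λ ((q ^ 3 : ℕ) : ℝ)
    (2 * ((2 * (t * Bc) * q ^ 3 : ℕ) : ℝ) / V) 1 fF h0
    (2 * (D * ((q - 1) * q)) * (t * Bc)) (by exact_mod_cast hcX) hV1 hΛ0 (by
      push_cast
      exact one_le_pow₀ hqR) hf0 (by
      rw [hx]
      have hA : (1 : ℕ) * Real.log cX ≤ ν / (24 * 10 ^ 9) * lΛ := by
        push_cast
        rw [one_mul]
        exact hlc
      have hB1 : (fF : ℝ) * lV ≤ 5 * ν * lV := mul_le_mul_of_nonneg_right hf2 (by linarith)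
      have hC : (h0 : ℝ) * (1 / 2 * lΛ - 1) ≥ ν / (12 * 10 ^ 9) * lΛ - ν / (3 * 10 ^ 9) := by
        have hl0 : 0 ≤ lΛ := by linarith
        have h1 : ν / (6 * 10 ^ 9) * (1 / 2 * lΛ) ≤ h0 * (1 / 2 * lΛ) :=
          mul_le_mul_of_nonneg_right hh1 (by linarith)
        have h2 : ν / (6 * 10 ^ 9) * (1 / 2 * lΛ) = ν / (12 * 10 ^ 9) * lΛ := by ring
        have h3 : (h0 : ℝ) * (1 / 2 * lΛ - 1) = h0 * (1 / 2 * lΛ) - h0 := by ring
        rw [h3]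
        linarith
      have hE : ν / (24 * 10 ^ 9) * (500000000000 * lV) ≤ ν / (24 * 10 ^ 9) * lΛ :=
        mul_le_mul_of_nonneg_left hlog (by positivity)
      have hF : ν * 1 ≤ ν * lV := mul_le_mul_of_nonneg_left hlV1 hν0
      have hG : ν / (12 * 10 ^ 9) * lΛ = ν / (24 * 10 ^ 9) * lΛ + ν / (24 * 10 ^ 9) * lΛ := by ring
      have hH : ν / (24 * 10 ^ 9) * (500000000000 * lV) = (500 / 24) * (ν * lV) := by ring
      nlinarith [hA, hB1, hC, hE, hF, hG, hH, hm, hf2, hν0])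
  unfold HR.nDesc
  rw [pow_one] at hprod
  exact hprod

theorem t_HM : S_HM := by
  intro t Bc D q V fF h0 cX ht hB hD hV hq hf0 hcX hh1 hh2 hf1 hf2 hlc
  obtain ⟨hL, hsq, hqD, hq4, hq1⟩ := hm_size D q V hD hV hq
  have hR := hm_prod t Bc D q V fF h0 cX ht hB hD hV hq hf0 hcX hh1 hh2 hf2 hlc
  set R : ℝ := HR.nDesc fF V cX (2 * (t * Bc) * q ^ 3) *
        (fF * (2 ^ fF * ((Real.exp 1 / Real.sqrt (((q : ℝ) - 1) / 120)) ^ h0 *
          ((q ^ 3 : ℕ) : ℝ) ^ (2 * (D * ((q - 1) * q)) * (t * Bc))))) with hRdef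
  have hDR : (8 : ℝ) ≤ D := by exact_mod_cast hD
  have hD0 : (0 : ℝ) < D := by linarith
  have hVR : (V : ℝ) = 320 * D := by exact_mod_cast hV
  have htR : (1 : ℝ) ≤ t := by exact_mod_cast ht
  have hBR : (1 : ℝ) ≤ Bc := by exact_mod_cast hB
  have hqR : (1 : ℝ) ≤ q := by exact_mod_cast hq1
  set N : ℝ := (t : ℝ) * Bc * q ^ 3 with hN
  have hN0 : 0 ≤ N := by positivity
  have hNq : (q : ℝ) ≤ N := by
    have h1 : (1 : ℝ) ≤ (t : ℝ) * Bc := one_le_mul_of_one_le_of_one_le htR hBR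
    have h2 : (q : ℝ) ≤ (q : ℝ) ^ 3 := by
      calc (q : ℝ) = (q : ℝ) ^ 1 := (pow_one _).symm
        _ ≤ (q : ℝ) ^ 3 := pow_le_pow_right₀ hqR (by norm_num)
    calc (q : ℝ) ≤ (q : ℝ) ^ 3 := h2
      _ = 1 * (q : ℝ) ^ 3 := (one_mul _).symm
      _ ≤ (t : ℝ) * Bc * (q : ℝ) ^ 3 := mul_le_mul_of_nonneg_right h1 (by positivity)
  have hN12 : (10 : ℝ) ^ 12 * D ≤ N := hqD.trans hNq
  have e1 : (t : ℝ) * Bc * D * (q ^ 3 : ℕ) = N * D := by
    push_cast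
    rw [hN]
    ring
  have e2 : 2 * ((t : ℝ) * Bc) * (q ^ 3 : ℕ) = 2 * N := by
    push_cast
    rw [hN]
    ring
  rw [e1, e2]
  have hs0 : 0 < Real.sqrt (((q : ℝ) - 1) / 120) :=
    lt_of_lt_of_le (by positivity) hsq
  set W : ℝ := Real.sqrt (((q : ℝ) - 1) / 120) with hW
  have h2 : 2 * N / W ≤ 2 * N / ((10 : ℝ) ^ 12 * D) := by
    apply div_le_div_of_nonneg_left (by positivity) (by positivity) hsq
  have hV2 : 480 * (V : ℝ) ^ 2 = 49152000 * (D : ℝ) ^ 2 := by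
    rw [hVR]
    ring
  rw [hV2]
  have hD2 : (0 : ℝ) ≤ 49152000 * (D : ℝ) ^ 2 := by positivity
  have k1 : 49152000 * (D : ℝ) ^ 2 * h0 ≤ 49152000 / (3 * 10 ^ 9) * (N * D) := by
    calc 49152000 * (D : ℝ) ^ 2 * h0 ≤ 49152000 * (D : ℝ) ^ 2 * (N / D / (3 * 10 ^ 9)) :=
          mul_le_mul_of_nonneg_left hh2 hD2
      _ = _ := by
          field_simp
  have k2 : 49152000 * (D : ℝ) ^ 2 * (2 * N / W) ≤ 98304000 / 10 ^ 12 * (N * D) := by
    calc 49152000 * (D : ℝ) ^ 2 * (2 * N / W) ≤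
          49152000 * (D : ℝ) ^ 2 * (2 * N / ((10 : ℝ) ^ 12 * D)) :=
          mul_le_mul_of_nonneg_left h2 hD2
      _ = _ := by
          field_simp
          ring
  have k3 : 49152000 * (D : ℝ) ^ 2 * R ≤ 49152000 / 10 ^ 12 * (N * D) := by
    calc 49152000 * (D : ℝ) ^ 2 * R ≤ 49152000 * (D : ℝ) ^ 2 * 1 :=
          mul_le_mul_of_nonneg_left hR hD2
      _ = 49152000 / 10 ^ 12 * ((10 : ℝ) ^ 12 * D * D) := by ring
      _ ≤ 49152000 / 10 ^ 12 * (N * D) := by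
          apply mul_le_mul_of_nonneg_left _ (by norm_num)
          exact mul_le_mul_of_nonneg_right hN12 hD0.le
  have hND : 0 ≤ N * D := by positivity
  have e3 : 49152000 * (D : ℝ) ^ 2 * ((h0 : ℝ) + 2 * N / W + R) =
      49152000 * (D : ℝ) ^ 2 * h0 + 49152000 * (D : ℝ) ^ 2 * (2 * N / W) +
        49152000 * (D : ℝ) ^ 2 * R := by ring
  rw [e3]
  nlinarith [k1, k2, k3, hND]

end Pool.Agent.RAC
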