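import Mathlib
import Pool.Agent.RAC.Stmts

/-!
# The main theorem from the last modules
-/

set_option autoImplicit false

open MeasureTheory

namespace Pool.Agent.RAC

open Finset Equiv

theorem t_MAIN0 (h1 : S_SIZ) (h2 : S_CHO) : S_MAIN := by
  intro κ ε hε
  obtain ⟨ε', hε'⟩ : ∃ ε' : ℝ, ε' = min ε 1 := ⟨_, rfl⟩
  have he0 : 0 < ε' := by rw [hε']; exact lt_min hε one_pos
  have he1 : ε' ≤ 1 := by rw [hε']; exact min_le_right _ _
  have hee : ε' ≤ ε := by rw [hε']; exact min_le_left _ _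
  obtain ⟨c, hc, s₀, hs3, h⟩ := h2 κ ε' he0 he1
  refine ⟨c / 204800, by positivity, s₀, ?_⟩
  intro s φ hs hφ
  obtain ⟨gg, D, q, m, hq, hm, hD, hC, hsz, hk⟩ := h s φ hs hφ
  have : Fact q.Prime := ⟨hq⟩
  obtain ⟨n, δ, hnδ, hslow⟩ := h1 κ s φ ((s : ℝ) ^ (1 - ε')) gg D q m (hs3.trans hs) hm hD hC hsz
  refine ⟨n, δ, hnδ, ?_⟩
  intro Q A Γ Ω _ _ _ _ μ _ M g f b T hg hQ hA hΓ hf hnear hdet hexp
  have hs1 : (1 : ℝ) ≤ s := by
    have : 1 ≤ s := by omega
    exact_mod_cast this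
  have hT := hslow Q A Γ Ω μ M g f b T hg hQ hA hΓ hf
    (hnear.trans (Real.rpow_le_rpow_of_exponent_le hs1 (by linarith))) hdet hexp
  refine le_trans ?_ hT
  have hs0 : (0 : ℝ) ≤ s := by linarith
  calc c / 204800 * s * (min (Real.log s) (Real.log φ) /
          Real.log (min (Real.log s) (Real.log φ)))
      = s / 204800 * (c * (min (Real.log s) (Real.log φ) /
          Real.log (min (Real.log s) (Real.log φ)))) := by ring
    _ ≤ s / 204800 * ((gg : ℝ) + 2) := mul_le_mul_of_nonneg_left hk (by positivity)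
    _ = ((gg : ℝ) + 2) * s / 204800 := by ring

end Pool.Agent.RAC
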