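import Mathlib
import Pool.Agent.RAC.Stmts
import Pool.Agent.Lib_helper21.TR.Params

/-! # Module PAR: the lower bound for given parameters -/

set_option autoImplicit false
set_option linter.unusedSectionVars false

open MeasureTheory

namespace Pool.Agent.RAC

open Finset Equiv Pool.Agent.TS Pool.Agent.TR Pool.Agent.HR Pool.Agent.ACC Pool.Agent.HM

private lemma par_w {D K k ν kL f : ℝ} (hD : 0 < D) (hkK : 8 * (k * K) ≤ D) (hf0 : 0 < f)
    (hf : 17 / 4 * ν ≤ f) (hkL : 640 * (1 + kL) ≤ ν) :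
    (2 * D + 8 * k * K) / (320 * D) + (2 + ν / 20 + 2 * kL) / f ≤ 1 / 40 := by
  have h1 : (2 * D + 8 * k * K) / (320 * D) ≤ 3 / 320 := by
    rw [div_le_div_iff₀ (by positivity) (by norm_num)]
    nlinarith
  have h2 : (2 + ν / 20 + 2 * kL) / f ≤ 1 / 80 := by
    rw [div_le_iff₀ hf0]
    linarith
  linarith

private lemma par_few {D k N X : ℝ} (hk : 0 < k) (hN : 0 ≤ N) (hkD : 8 * k ≤ D)
    (hX : 320 * X ≤ k * N) : 2 * (D * X / k) + 12 * X ≤ 1 / 40 * (N * D) := by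
  have hD : 0 < D := by linarith
  have h1 : D * X / k ≤ D * N / 320 := by
    rw [div_le_div_iff₀ hk (by norm_num)]
    nlinarith [mul_le_mul_of_nonneg_left hX hD.le]
  have h2 : k * N * 8 ≤ N * D := by nlinarith
  nlinarith

private lemma par_log1 {κ k D S0 ls Bc r L N lΛ : ℝ} (hκ : 0 ≤ κ) (hS0 : 0 ≤ S0)
    (hls : 0 ≤ ls) (hD : 0 < D) (hBc : 0 < Bc) (hN : 0 ≤ N) (hr : 1 ≤ r) (hlΛ : 0 ≤ lΛ)
    (hL : Bc ≤ 6 * D ^ 4 * L) (hX : 320 * (r * L) ≤ k * N)
    (hc : 4 * 10 ^ 9 * ((κ + 4) * k * D ^ 5 * S0 * ls) ≤ Bc * lΛ) :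
    (r + 1) * (2 * (κ + 4) * S0 * ls) ≤ N / D / (48 * 10 ^ 9) * lΛ := by
  have h1 : r * Bc ≤ 6 * D ^ 4 * (r * L) := by
    calc r * Bc ≤ r * (6 * D ^ 4 * L) := mul_le_mul_of_nonneg_left hL (by linarith)
      _ = 6 * D ^ 4 * (r * L) := by ring
  have h2 : 320 * (r * Bc) ≤ 6 * D ^ 4 * (k * N) := by
    have := mul_le_mul_of_nonneg_left hX (show (0 : ℝ) ≤ 6 * D ^ 4 by positivity)
    linarith
  have h3 : (r + 1) * (2 * (κ + 4) * S0 * ls) ≤ 4 * r * ((κ + 4) * S0 * ls) := by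
    have : 0 ≤ (κ + 4) * S0 * ls := by positivity
    nlinarith
  refine h3.trans ?_
  have h4 : N / D / (48 * 10 ^ 9) * lΛ = N * lΛ / (D * (48 * 10 ^ 9)) := by
    field_simp
  rw [h4, le_div_iff₀ (by positivity)]
  have h5 : (4 * r * ((κ + 4) * S0 * ls) * (D * (48 * 10 ^ 9))) * Bc ≤ (N * lΛ) * Bc := by
    have h6 : 0 ≤ (κ + 4) * S0 * ls * D := by positivity
    have h7 := mul_le_mul_of_nonneg_left h2 h6
    have h8 := mul_le_mul_of_nonneg_left hc hN
    have h9 : 0 ≤ N * (Bc * lΛ) := by positivity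
    nlinarith
  exact le_of_mul_le_mul_right h5 hBc

private lemma par_log2 {κ k D ls φ X N lΛ : ℝ} (hκ : 0 ≤ κ) (hφ : 0 < φ)
    (hls : 0 ≤ ls) (hD : 0 < D) (hN : 0 ≤ N) (hlΛ : 0 ≤ lΛ) (hX : 320 * X ≤ k * N)
    (hc : 2 * 10 ^ 8 * ((κ + 3) * k * D * ls) ≤ φ * lΛ) :
    X / φ * ((κ + 3) * ls) ≤ N / D / (48 * 10 ^ 9) * lΛ := by
  have h4 : N / D / (48 * 10 ^ 9) * lΛ = N * lΛ / (D * (48 * 10 ^ 9)) := by
    field_simp
  rw [h4, div_mul_eq_mul_div, div_le_div_iff₀ hφ (by positivity)]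
  have h6 : 0 ≤ (κ + 3) * ls * D := by positivity
  have h7 := mul_le_mul_of_nonneg_left hX h6
  have h8 := mul_le_mul_of_nonneg_left hc hN
  have h9 : 0 ≤ N * (φ * lΛ) := by positivity
  nlinarith

open Classical in
/-- The lower bound for given parameters. -/
theorem t_PAR (h1 : S_COMB) (h2 : S_HM) (h3 : S_CX) : S_PAR := by
  intro κ s φ S0 gg D q m t pad d w _ _ σ eB eU dg' hσ hsp hs3 hm ht hcond hsz hdeg
    Q A Γ Ω _ _ _ _ μ _ M g f b T hg hQ hA hΓ hf hnear hdet hexp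
  obtain ⟨hgg, hDk, hqD, hφ1, hS01, hc6, hc7⟩ := hcond
  -- cardinalities
  have cB : Fintype.card (Fin m × ZMod D) = m * D := by
    rw [Fintype.card_prod, Fintype.card_fin, ZMod.card]
  have cU : Fintype.card (Blk q 0 × Inn q) = q ^ 3 := by rw [card_BI q 0]
  have cC : Fintype.card (ZMod D) = D := ZMod.card D
  have cCU : Fintype.card (Gen q) = (q - 1) * q := card_gen
  have hq2 : 2 ≤ q := (Fact.out : q.Prime).two_le
  obtain ⟨Bc, hBc⟩ : ∃ Bc : ℕ, Bc = m * D := ⟨_, rfl⟩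
  rw [← hBc] at cB hc6 hsz
  have hD0 : 0 < D := Nat.pos_of_ne_zero (NeZero.ne D)
  have hBc0 : 0 < Bc := by rw [hBc]; positivity
  -- the number k and its power
  obtain ⟨k, hk⟩ : ∃ k : ℝ, k = (gg : ℝ) + 2 := ⟨_, rfl⟩
  obtain ⟨K, hK⟩ : ∃ K : ℝ, K = ((gg : ℝ) + 2) ^ (gg + 2) := ⟨_, rfl⟩
  have hggR : (2 : ℝ) ≤ gg := by exact_mod_cast hgg
  have hk4 : 4 ≤ k := by rw [hk]; linarith
  have hK1 : 1 ≤ K := by rw [hK]; exact one_le_pow₀ (by linarith)
  have hkK : 8 * (k * K) ≤ D := by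
    have h4 : (8 : ℝ) * ((gg : ℝ) + 2) ^ (gg + 3) ≤ D := by exact_mod_cast hDk
    calc 8 * (k * K) = 8 * ((gg : ℝ) + 2) ^ (gg + 3) := by rw [hk, hK]; ring
      _ ≤ D := h4
  have hk0 : 0 < k := by linarith
  have hkD : 8 * k ≤ D := by
    refine le_trans ?_ hkK
    have : k * 1 ≤ k * K := mul_le_mul_of_nonneg_left hK1 hk0.le
    linarith
  have hD32 : (32 : ℝ) ≤ D := by linarith
  have hD8 : 8 ≤ D := by
    have : (8 : ℝ) ≤ D := by linarith
    exact_mod_cast this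
  have hD0R : (0 : ℝ) < D := by linarith
  -- the number V
  obtain ⟨V, hV⟩ : ∃ V : ℕ, V = 320 * D := ⟨_, rfl⟩
  rw [← hV] at hqD
  have hVR : (V : ℝ) = 320 * D := by rw [hV]; push_cast; ring
  obtain ⟨W, hW⟩ : ∃ W : ℝ, W = (V : ℝ) ^ K0 := ⟨_, rfl⟩
  have hqW : 121 * W ≤ q := by rw [hW]; exact_mod_cast hqD
  have hK0 : 10 ≤ K0 := by unfold K0; norm_num
  have hV1 : (1 : ℝ) ≤ V := by rw [hVR]; linarith
  have hW10 : (V : ℝ) ^ 10 ≤ W := by
    rw [hW]
    exact pow_le_pow_right₀ hV1 hK0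
  have hW1 : 1 ≤ W := le_trans (one_le_pow₀ hV1) hW10
  obtain ⟨hs1, hs2, -⟩ := num_sizes (q := (q : ℝ)) (by linarith : (2 : ℝ) ≤ D) hVR hW10
    (by linarith)
  clear hW
  -- sizes
  have hqR : (10 : ℝ) ^ 12 ≤ q := by
    refine le_trans ?_ hs2
    have : (1 : ℝ) ≤ D := by linarith
    linarith only [this]
  have hBcR : (1 : ℝ) ≤ Bc := by exact_mod_cast hBc0
  have hBcmD : (Bc : ℝ) = m * D := by rw [hBc]; push_cast; ring
  have hmR : (1 : ℝ) ≤ m := by exact_mod_cast hm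
  have htR : (1 : ℝ) ≤ t := by exact_mod_cast ht
  obtain ⟨N, hN⟩ : ∃ N : ℝ, N = t * Bc * (q : ℝ) ^ 3 := ⟨_, rfl⟩
  have hq3 : (q : ℝ) ≤ (q : ℝ) ^ 3 := le_self_pow₀ (by linarith) (by norm_num)
  have hNq : Bc * (q : ℝ) ^ 3 ≤ N := by
    rw [hN, mul_assoc]
    exact le_mul_of_one_le_left (by positivity) htR
  have hNq' : Bc * (q : ℝ) ≤ N :=
    (mul_le_mul_of_nonneg_left hq3 (by linarith)).trans hNq
  have hN0 : 0 < N := lt_of_lt_of_le (by positivity) hNq'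
  have hqN : (q : ℝ) ≤ N := by
    refine le_trans ?_ hNq'
    exact le_mul_of_one_le_left (by linarith) hBcR
  have hNs : N ≤ s := by
    rw [hN]
    exact_mod_cast hsz
  have hν : m * (q : ℝ) ≤ N / D := by
    rw [le_div_iff₀ hD0R]
    calc m * (q : ℝ) * D = Bc * q := by rw [hBcmD]; ring
      _ ≤ N := hNq'
  have hqν : (q : ℝ) ≤ N / D := by
    refine le_trans ?_ hν
    exact le_mul_of_one_le_left (by linarith) hmR
  have hν0 : 0 < N / D := by positivity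
  -- logarithms
  have hls1 : 1 ≤ Real.log s := by
    rw [Real.le_log_iff_exp_le (by linarith)]
    have h4 := Real.exp_one_lt_d9
    have h5 : (3 : ℝ) ≤ s := by exact_mod_cast hs3
    linarith
  obtain ⟨Λ, hΛ⟩ : ∃ Λ : ℝ, Λ = ((q : ℝ) - 1) / 120 := ⟨_, rfl⟩
  rw [← hΛ] at hc6 hc7
  have hΛ1 : 1 ≤ Λ := by
    rw [hΛ, le_div_iff₀ (by norm_num)]
    linarith
  have hΛs : Λ ≤ s := by
    rw [hΛ, div_le_iff₀ (by norm_num)]
    linarith
  have hlΛ0 : 0 ≤ Real.log Λ := Real.log_nonneg hΛ1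
  have hlΛs : Real.log Λ ≤ Real.log s := Real.log_le_log (by linarith) hΛs
  have hκ0 : (0 : ℝ) ≤ κ := Nat.cast_nonneg κ
  -- m D ≥ 3 D ^ 4
  have hBc4 : 3 * (D : ℝ) ^ 4 ≤ Bc := by
    have h4 : Bc * Real.log Λ ≤ Bc * Real.log s :=
      mul_le_mul_of_nonneg_left hlΛs (by linarith)
    have h5 : (D : ℝ) ^ 5 * Real.log s ≤ ((κ : ℝ) + 4) * ((gg : ℝ) + 2) * D ^ 5 * S0 *
        Real.log s := by
      apply mul_le_mul_of_nonneg_right _ (by linarith)
      have h6 : (1 : ℝ) ≤ ((κ : ℝ) + 4) * ((gg : ℝ) + 2) := by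
        nlinarith only [hκ0, hggR, mul_nonneg hκ0 (by linarith only [hggR] : (0 : ℝ) ≤ gg)]
      calc (D : ℝ) ^ 5 = 1 * D ^ 5 * 1 := by ring
        _ ≤ ((κ : ℝ) + 4) * ((gg : ℝ) + 2) * D ^ 5 * S0 := by gcongr
    have h7 : (4 * 10 ^ 9 * (D : ℝ) ^ 5) * Real.log s ≤ Bc * Real.log s := by
      linarith only [hc6, h4, h5]
    have h8 := le_of_mul_le_mul_right h7 (by linarith)
    have h9 : (D : ℝ) ^ 4 * 1 ≤ (D : ℝ) ^ 4 * D := mul_le_mul_of_nonneg_left (by linarith)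
      (by positivity)
    have h10 : (D : ℝ) ^ 5 = (D : ℝ) ^ 4 * D := by ring
    have h11 : 0 ≤ (D : ℝ) ^ 4 := by positivity
    linarith only [h8, h9, h10, h11]
  -- the parameters
  obtain ⟨L, hL0, hL1, hL2⟩ := exists_half ((Bc : ℝ) / (3 * (D : ℝ) ^ 4)) (by
    rw [le_div_iff₀ (by positivity), one_mul]
    exact hBc4)
  have hL0R : (1 : ℝ) ≤ L := by exact_mod_cast hL0
  have hL3 : 3 * (D : ℝ) ^ 4 * L ≤ Bc := by
    rw [le_div_iff₀ (by positivity)] at hL2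
    linarith
  have hL4 : (Bc : ℝ) ≤ 6 * (D : ℝ) ^ 4 * L := by
    rw [div_div, div_le_iff₀ (by positivity)] at hL1
    linarith
  have hkL : k * L ≤ m := by
    have h4 : k * L * D ≤ m * D := by
      rw [← hBcmD]
      refine le_trans ?_ hL3
      have h5 : k * D ≤ 3 * (D : ℝ) ^ 4 := by
        have h6 : k * D ≤ D * D := mul_le_mul_of_nonneg_right (by linarith) hD0R.le
        have h7 : (D : ℝ) * D ≤ D ^ 4 := by
          calc (D : ℝ) * D = D ^ 2 := by ring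
            _ ≤ D ^ 4 := pow_le_pow_right₀ (by linarith) (by norm_num)
        have h8 : 0 ≤ (D : ℝ) ^ 4 := by positivity
        linarith
      calc k * L * D = (k * D) * L := by ring
        _ ≤ (3 * (D : ℝ) ^ 4) * L := mul_le_mul_of_nonneg_right h5 (by linarith)
    exact le_of_mul_le_mul_right h4 hD0R
  have hLBc : (L : ℝ) ≤ Bc := by
    refine le_trans ?_ hL3
    have h4 : (1 : ℝ) ≤ 3 * (D : ℝ) ^ 4 := by
      have : (1 : ℝ) ≤ (D : ℝ) ^ 4 := one_le_pow₀ (by linarith)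
      linarith
    exact le_mul_of_one_le_left (by linarith) h4
  obtain ⟨r, hr0, hr1, hr2⟩ := exists_half (k * N / (320 * L)) (by
    rw [le_div_iff₀ (by positivity), one_mul]
    have h4 : 320 * (L : ℝ) ≤ Bc * q := by
      calc 320 * (L : ℝ) ≤ q * Bc := mul_le_mul (by linarith) hLBc (by linarith) (by linarith)
        _ = Bc * q := by ring
    have h5 : N ≤ k * N := le_mul_of_one_le_left hN0.le (by linarith)
    linarith)
  have hr0R : (1 : ℝ) ≤ r := by exact_mod_cast hr0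
  have hrL : 320 * ((r : ℝ) * L) ≤ k * N := by
    rw [le_div_iff₀ (by positivity)] at hr2
    linarith
  have hrL' : k * N ≤ 640 * ((r : ℝ) * L) := by
    rw [div_div, div_le_iff₀ (by positivity)] at hr1
    linarith
  obtain ⟨h0, hh00, hh01, hh02⟩ := exists_half ((N / D) / (3 * 10 ^ 9)) (by
    rw [le_div_iff₀ (by norm_num)]
    linarith)
  obtain ⟨fF, hf0, hf1, hf2⟩ : ∃ fF : ℕ, 0 < fF ∧ 17 / 4 * (N / D) ≤ fF ∧
      (fF : ℝ) ≤ 5 * (N / D) := by
    have h4 : (0 : ℝ) ≤ 5 * (N / D) := by positivity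
    have h5 := Nat.floor_le h4
    have h6 := Nat.lt_floor_add_one (5 * (N / (D : ℝ)))
    refine ⟨⌊5 * (N / (D : ℝ))⌋₊, ?_, by linarith, h5⟩
    apply Nat.floor_pos.2
    linarith
  have hgR : (1 : ℝ) ≤ g := by exact_mod_cast hg
  have hφg : 0 < φ * g := by positivity
  have hφg1 : 1 ≤ φ * g := one_le_mul_of_one_le_of_one_le hφ1 hgR
  have hX0 : (0 : ℝ) ≤ ((r * L : ℕ) : ℝ) := Nat.cast_nonneg _
  have hXc : ((r * L : ℕ) : ℝ) = (r : ℝ) * L := by push_cast; ring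
  obtain ⟨F, hF1, hF2⟩ : ∃ F : ℕ, (F : ℝ) ≤ ((r * L : ℕ) : ℝ) / (2 * (φ * g)) ∧
      ((r * L : ℕ) : ℝ) ≤ 2 * (φ * g) * (F + 1) := by
    have h4 : (0 : ℝ) ≤ ((r * L : ℕ) : ℝ) / (2 * (φ * g)) := by positivity
    refine ⟨⌊((r * L : ℕ) : ℝ) / (2 * (φ * g))⌋₊, Nat.floor_le h4, ?_⟩
    have h5 := Nat.lt_floor_add_one (((r * L : ℕ) : ℝ) / (2 * (φ * g)))
    rw [div_lt_iff₀ (by positivity)] at h5
    linarith
  have hFX : F ≤ r * L := by
    have h4 : (F : ℝ) ≤ ((r * L : ℕ) : ℝ) := by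
      refine hF1.trans (div_le_self hX0 ?_)
      linarith
    exact_mod_cast h4
  have hXs : r * L + 1 ≤ s ^ 2 := by
    have hks : k ≤ s := by
      have : (D : ℝ) ≤ q := by
        have : (D : ℝ) ≤ 10 ^ 12 * D := by linarith
        linarith
      linarith
    have h4 : k * N ≤ s * s := mul_le_mul hks hNs hN0.le (by linarith)
    have h5 : (3 : ℝ) ≤ s := by exact_mod_cast hs3
    have h6 : (9 : ℝ) ≤ s * s := by nlinarith only [h5]
    have h7 : ((r * L : ℕ) : ℝ) + 1 ≤ (s : ℝ) ^ 2 := by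
      rw [hXc, sq]
      linarith only [hrL, h4, h6]
    exact_mod_cast h7
  obtain ⟨near, hnr⟩ : ∃ near : ℕ, near = Nat.card {a : A // f a < φ * g} := ⟨_, rfl⟩
  rw [← hnr] at hnear
  obtain ⟨hcX1, hcXl⟩ := h3 κ s (Fintype.card Q) (Fintype.card Γ) (Fintype.card A) near L r F g
    S0 φ hs3 hg hQ hA hΓ hnear hS01 (by linarith) hXs hFX hF1
  have hlog : Real.log (cTr (Fintype.card Q) (Fintype.card Γ) (Fintype.card A) near L r F) ≤
      N / D / (24 * 10 ^ 9) * Real.log Λ := by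
    rw [← hk] at hc6 hc7
    have e1 := par_log1 hκ0 (by linarith : 0 ≤ S0) (by linarith : 0 ≤ Real.log s) hD0R
      (by linarith : (0 : ℝ) < Bc) hN0.le hr0R hlΛ0 hL4 hrL hc6
    have e2 := par_log2 hκ0 (by linarith : 0 < φ) (by linarith : 0 ≤ Real.log s) hD0R hN0.le hlΛ0
      hrL hc7
    rw [hXc] at hcXl
    have e3 : N / D / (24 * 10 ^ 9) * Real.log Λ = N / D / (48 * 10 ^ 9) * Real.log Λ +
        N / D / (48 * 10 ^ 9) * Real.log Λ := by ring
    rw [e3]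
    exact hcXl.trans (add_le_add e1 e2)
  have hNν : ((t : ℝ) * Bc * q ^ 3 / D) = N / D := by rw [hN]
  have hHM := h2 t Bc D q V fF h0 _ ht hBc0 hD8 hV hqD hf0 hcX1
    (by rw [hNν]; refine le_trans (le_of_eq ?_) hh01; ring)
    (by rw [hNν]; exact hh02) (by rw [hNν]; exact hf1) (by rw [hNν]; exact hf2)
    (by rw [hNν, ← hΛ]; exact hlog)
  rw [← hΛ] at hHM
  have hcomb := h1 (Fin t) (Fin m × ZMod D) (Blk q 0 × Inn q) (ZMod D) (Gen q) Q A Γ Ω μ σ
    (3 * D ^ 4) (gen : Gen q → Blk q 0 × Inn q) t d w pad (Equiv.refl (Fin t)) eB eU M dg' f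
    (fun a => f a < φ * g) (φ * g) b T near ((((0 : ℕ) : ℝ) + 2) * q) L r (gg + 2) gg V fF h0 F Λ
    hσ hsp gen_inj0 hdet hexp hφg hf (fun a ha => not_lt.1 ha) hnr.symm hdeg (by positivity)
    (fun ψ hψ => char_sum_gen ψ hψ) hL0 hr0 (by omega) hgg le_rfl (by
      have h4 : ((gg : ℝ) + 2) ^ (gg + 2) ≤ V := by
        rw [← hK, hVR]
        have h5 : K ≤ k * K := le_mul_of_one_le_left (by linarith) (by linarith)
        linarith
      exact_mod_cast h4) hf0 (by linarith) (by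
      rw [cB]
      have h4 : 3 * (D : ℝ) ^ 4 * L ≤ Bc := hL3
      exact_mod_cast h4) hF2 (by rw [cU]; positivity) (by rw [Fintype.card_fin]; exact ht)
    (by rw [cB]; exact hBc0) (by rw [cC]; exact hD0)
    (by rw [cCU]; exact Nat.mul_pos (by omega) (by omega))
    (by
      rw [cCU, cU]
      push_cast [Nat.cast_sub (show 1 ≤ q by omega)]
      have h4 : 120 * (((q : ℝ) - 1) * q) ≤ q * (q * q) := by
        have h5 : ((q : ℝ) - 1) * q ≤ q * q :=
          mul_le_mul_of_nonneg_right (by linarith) (by linarith)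
        have h6 : 120 * ((q : ℝ) * q) ≤ q * (q * q) :=
          mul_le_mul_of_nonneg_right (by linarith) (by positivity)
        linarith
      have e : (q : ℝ) ^ 3 = q * (q * q) := by ring
      rw [e]
      exact h4)
    (by
      rw [cCU, hΛ]
      push_cast [Nat.cast_sub (show 1 ≤ q by omega)]
      apply le_of_eq
      ring)
    (by
      rw [Fintype.card_fin, cB, cC, cU, hXc]
      have h4 := par_few hk0 hN0.le hkD hrL
      have e : 1 / 40 * (N * D) = 1 / 40 * ((t : ℝ) * Bc * D * ((q ^ 3 : ℕ) : ℝ)) := by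
        rw [hN]; push_cast; ring
      rw [← e]
      push_cast
      rw [← hk]
      exact h4)
    (by
      rw [Fintype.card_fin, cB, cC, cU]
      have h4 := par_w (f := (fF : ℝ)) (kL := k * L) (ν := N / D) hD0R hkK
        (by exact_mod_cast hf0) hf1 (by
          have : 640 * (1 + k * L) ≤ m * q := by
            have h5 : (1 : ℝ) + k * L ≤ 2 * m := by linarith
            have h6 : m * (1280 : ℝ) ≤ m * q := mul_le_mul_of_nonneg_left (by linarith)
              (by linarith)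
            linarith
          linarith)
      refine le_trans (le_of_eq ?_) h4
      rw [hK, hVR]
      have e : 8 * (2 * ((t : ℝ) * Bc) * ((q ^ 3 : ℕ) : ℝ)) / (320 * D) = N / D / 20 := by
        rw [hN]; push_cast; field_simp; ring
      rw [e, hk]
      push_cast
      ring)
    (by
      rw [cC, cCU, cU]
      push_cast [Nat.cast_sub (show 1 ≤ q by omega)]
      have h4 : 40 * (D : ℝ) ≤ q := by linarith
      have h5 : ((q : ℝ) - 1) * q ≤ q * q :=
        mul_le_mul_of_nonneg_right (by linarith) (by linarith)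
      calc 40 * ((D : ℝ) * (((q : ℝ) - 1) * q)) = (40 * D) * (((q : ℝ) - 1) * q) := by ring
        _ ≤ q * (q * q) := mul_le_mul h4 h5 (by
            apply mul_nonneg <;> linarith) (by linarith)
        _ = (q : ℝ) ^ 3 := by ring)
    (by
      rw [Fintype.card_fin, cC, cCU, cB, cU]
      exact hHM)
  have e : ((gg : ℝ) + 2) * (t * (m * D) * (q : ℝ) ^ 3) = k * N := by
    rw [hk, hN, hBcmD]
  rw [e]
  rw [hXc] at hcomb
  linarith

end Pool.Agent.RAC
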