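import Mathlib
import Pool.Agent.RAC.Stmts

/-!
# Module RND: the probability of the event `AE` (helper20)
-/

set_option autoImplicit false
set_option linter.unusedSectionVars false

open MeasureTheory

namespace Pool.Agent.RAC

open Finset Pool.Agent.TS Pool.Agent.TR Pool.Agent.ACC

section Runs

variable {n : ℕ} {Q A Γ Ω : Type} (M : RMachine n Q A Γ Ω)

theorem rnd_run_stable (ω : Ω) (G : SimpleGraph (Fin n)) (t t' : ℕ) (h : t ≤ t')
    (hs : (M.out ω G t).isSome) : M.run ω G t' = M.run ω G t := by
  induction t', h using Nat.le_induction with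
  | base => rfl
  | succ t' _ ih =>
    show (if (M.output (M.run ω G t').1).isSome then M.run ω G t' else _) = _
    have hs' : (M.output (M.run ω G t).1).isSome := hs
    rw [ih, if_pos hs']

theorem rnd_out_none (ω : Ω) (G : SimpleGraph (Fin n)) (t t' : ℕ) (h : t ≤ t')
    (hs : M.out ω G t' = none) : M.out ω G t = none := by
  by_contra hcon
  have h1 : (M.out ω G t).isSome := Option.ne_none_iff_isSome.1 hcon
  unfold RMachine.out at hs hcon
  rw [rnd_run_stable M ω G t t' h h1] at hs
  exact hcon hs

theorem rnd_out_some (ω : Ω) (G : SimpleGraph (Fin n)) (t t' : ℕ) (b b' : Bool)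
    (hs : M.out ω G t = some b) (hs' : M.out ω G t' = some b') : b = b' := by
  rcases le_total t t' with h | h
  · have := rnd_run_stable M ω G t t' h (by rw [hs]; rfl)
    unfold RMachine.out at hs hs'
    rw [this, hs] at hs'
    exact Option.some.inj hs'
  · have := rnd_run_stable M ω G t' t h (by rw [hs']; rfl)
    unfold RMachine.out at hs hs'
    rw [this, hs'] at hs
    exact (Option.some.inj hs).symm

variable [Fintype Q] [Fintype A] [MeasurableSpace Ω] (μ : Measure Ω) [IsProbabilityMeasure μ]
  (G : SimpleGraph (Fin n))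

theorem rnd_meas_out (hm : ∀ t x, MeasurableSet {ω | (M.run ω G t).1 = x})
    (t : ℕ) (o : Option Bool) : MeasurableSet {ω | M.out ω G t = o} := by
  classical
  have : {ω | M.out ω G t = o} =
      ⋃ x ∈ (Finset.univ.filter fun x : Q => M.output x = o), {ω | (M.run ω G t).1 = x} := by
    ext ω
    simp [RMachine.out]
  rw [this]
  exact Finset.measurableSet_biUnion _ fun x _ => hm t x

/-- The event that there is an expensive access at time `t`. -/
def rndS (P : A → Prop) (b : Bool) (t : ℕ) : Set Ω :=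
  {ω | ∃ a, M.access b ω G t = some a ∧ ¬ P a}

theorem rnd_meas_S (ha : ∀ b t y, MeasurableSet {ω | M.access b ω G t = y}) (P : A → Prop)
    (b : Bool) (t : ℕ) : MeasurableSet (rndS M G P b t) := by
  have e : rndS M G P b t = ⋃ a : {a : A // ¬ P a}, {ω | M.access b ω G t = some a.1} := by
    ext ω
    simp only [rndS, Set.mem_ofPred_eq, Set.mem_iUnion]
    constructor
    · rintro ⟨a, h1, h2⟩
      exact ⟨⟨a, h2⟩, h1⟩
    · rintro ⟨⟨a, h2⟩, h1⟩
      exact ⟨a, h1, h2⟩
  rw [e]
  exact MeasurableSet.iUnion fun a => ha b t _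

open Classical in
theorem rnd_fcnt_succ (P : A → Prop) (b : Bool) (ω : Ω) (N : ℕ) :
    fcnt M P b ω G (N + 1) = fcnt M P b ω G N + if ω ∈ rndS M G P b N then 1 else 0 := by
  unfold fcnt
  rw [Finset.card_filter, Finset.card_filter, Finset.sum_range_succ]
  congr 1
  by_cases h : ∃ a, M.access b ω G N = some a ∧ ¬ P a
  · rw [if_pos h, if_pos (show ω ∈ rndS M G P b N from h)]
  · rw [if_neg h, if_neg (show ¬ ω ∈ rndS M G P b N from h)]

theorem rnd_meas_fcnt (ha : ∀ b t y, MeasurableSet {ω | M.access b ω G t = y}) (P : A → Prop)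
    (b : Bool) (N j : ℕ) : MeasurableSet {ω | fcnt M P b ω G N = j} := by
  classical
  induction N generalizing j with
  | zero =>
    have : {ω : Ω | fcnt M P b ω G 0 = j} = {_ω | 0 = j} := by
      ext ω
      simp [fcnt]
    rw [this]
    exact MeasurableSet.const _
  | succ N ih =>
    have hc := rnd_meas_S M G ha P b N
    rcases j with _ | j
    · have : {ω | fcnt M P b ω G (N + 1) = 0} =
          {ω | fcnt M P b ω G N = 0} ∩ (rndS M G P b N)ᶜ := by
        ext ω
        simp only [Set.mem_ofPred_eq, Set.mem_inter_iff, Set.mem_compl_iff, rnd_fcnt_succ]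
        split_ifs with h <;> simp [h]
      rw [this]
      exact (ih 0).inter hc.compl
    · have : {ω | fcnt M P b ω G (N + 1) = j + 1} =
          ({ω | fcnt M P b ω G N = j} ∩ rndS M G P b N) ∪
          ({ω | fcnt M P b ω G N = j + 1} ∩ (rndS M G P b N)ᶜ) := by
        ext ω
        simp only [Set.mem_ofPred_eq, Set.mem_inter_iff, Set.mem_compl_iff, Set.mem_union,
          rnd_fcnt_succ]
        split_ifs with h <;> simp [h]
      rw [this]
      exact ((ih j).inter hc).union ((ih (j + 1)).inter hc.compl)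

theorem rnd_meas_le (ha : ∀ b t y, MeasurableSet {ω | M.access b ω G t = y}) (P : A → Prop)
    (b : Bool) (N F : ℕ) : MeasurableSet {ω | fcnt M P b ω G N ≤ F} := by
  have : {ω | fcnt M P b ω G N ≤ F} = ⋃ j ∈ range (F + 1), {ω | fcnt M P b ω G N = j} := by
    ext ω
    simp only [Set.mem_ofPred_eq, Set.mem_iUnion, Finset.mem_range, exists_prop,
      exists_eq_right', Nat.lt_succ_iff]
  rw [this]
  exact Finset.measurableSet_biUnion _ fun j _ => rnd_meas_fcnt M G ha P b N j

theorem rnd_term_nonneg (f : A → ℝ) (hf : ∀ a, 0 ≤ f a) (b : Bool) (ω : Ω) (t : ℕ) :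
    0 ≤ (M.access b ω G t).elim 0 f := by
  cases M.access b ω G t with
  | none => exact le_rfl
  | some a => exact hf a

theorem rnd_cost_none (f : A → ℝ) (hf : ∀ a, 0 ≤ f a) (b : Bool) (ω : Ω) (N : ℕ)
    (h : M.out ω G N = none) : (N : ℝ) ≤ M.cost f b ω G N := by
  unfold RMachine.cost
  calc (N : ℝ) = ∑ _t ∈ Finset.range N, (1 : ℝ) := by simp
    _ ≤ _ := by
      refine Finset.sum_le_sum fun t ht => ?_
      rw [if_pos (rnd_out_none M ω G t N (Finset.mem_range.1 ht).le h)]
      have := rnd_term_nonneg M G f hf b ω t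
      linarith

theorem rnd_cost_far (f : A → ℝ) (hf : ∀ a, 0 ≤ f a) (P : A → Prop) (φ' : ℝ)
    (hP : ∀ a, ¬ P a → φ' ≤ f a) (b : Bool) (ω : Ω) (N : ℕ) :
    φ' * fcnt M P b ω G N ≤ M.cost f b ω G N := by
  classical
  unfold RMachine.cost fcnt
  rw [Finset.card_filter]
  push_cast
  rw [Finset.mul_sum]
  refine Finset.sum_le_sum fun t _ => ?_
  have h0 : (0 : ℝ) ≤ if M.out ω G t = none then 1 else 0 := by split_ifs <;> norm_num
  have h1 := rnd_term_nonneg M G f hf b ω t
  by_cases h : ∃ a, M.access b ω G t = some a ∧ ¬ P a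
  · obtain ⟨a, h2, h3⟩ := h
    rw [if_pos ⟨a, h2, h3⟩, mul_one, h2]
    have := hP a h3
    simp only [Option.elim_some]
    linarith
  · rw [if_neg h, mul_zero]
    linarith

/-- Markov's inequality for a cost which is at least `c` on a set. -/
theorem rnd_markov (g : Ω → ℝ) (S : Set Ω) (hS : MeasurableSet S) (c T : ℝ) (hc : 0 ≤ c)
    (hT0 : 0 ≤ T) (hg : ∀ ω ∈ S, c ≤ g ω)
    (hT : ∫⁻ ω, ENNReal.ofReal (g ω) ∂μ ≤ ENNReal.ofReal T) : c * μ.real S ≤ T := by
  have h1 : ENNReal.ofReal c * μ S ≤ ENNReal.ofReal T := by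
    refine le_trans ?_ hT
    calc ENNReal.ofReal c * μ S = ∫⁻ ω, S.indicator (fun _ => ENNReal.ofReal c) ω ∂μ :=
          (lintegral_indicator_const hS _).symm
      _ ≤ _ := by
          apply lintegral_mono
          intro ω
          by_cases h : ω ∈ S
          · rw [Set.indicator_of_mem h]
            exact ENNReal.ofReal_le_ofReal (hg ω h)
          · rw [Set.indicator_of_notMem h]
            exact zero_le
  have h2 := ENNReal.toReal_mono ENNReal.ofReal_ne_top h1
  rw [ENNReal.toReal_mul, ENNReal.toReal_ofReal hT0, ENNReal.toReal_ofReal hc] at h2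
  exact h2

theorem rnd_prob_free (hG : G.CliqueFree 3)
    (hd : 2 / 3 ≤ μ.real {ω | ∃ t b, M.out ω G t = some b ∧
      (b = true ↔ ¬ G.CliqueFree 3)}) (m : ℕ)
    (h2 : μ.real {ω | M.out ω G m = none} ≤ 1 / 20) :
    37 / 60 ≤ μ.real {ω | M.out ω G m = some false} := by
  have h3 : μ.real {ω | ∃ t b, M.out ω G t = some b ∧ (b = true ↔ ¬ G.CliqueFree 3)} ≤
      μ.real ({ω | M.out ω G m = some false} ∪
        {ω | M.out ω G m = none}) := by
    apply measureReal_mono
    · rintro ω ⟨t, b, hb, hb'⟩
      have hbf : b = false := by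
        cases b
        · rfl
        · exact absurd hG (hb'.1 rfl)
      subst hbf
      rcases ho : M.out ω G m with _ | b'
      · exact Or.inr ho
      · left
        have := rnd_out_some M ω G t m false b' hb ho
        rw [← this] at ho
        exact ho
    · exact measure_ne_top _ _
  have h4 := measureReal_union_le (μ := μ) {ω | M.out ω G m = some false}
        {ω | M.out ω G m = none}
  linarith

theorem rnd_prob_tri (hG : ¬ G.CliqueFree 3)
    (hm : ∀ t x, MeasurableSet {ω | (M.run ω G t).1 = x})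
    (hd : 2 / 3 ≤ μ.real {ω | ∃ t b, M.out ω G t = some b ∧
      (b = true ↔ ¬ G.CliqueFree 3)}) (m : ℕ) :
    μ.real {ω | M.out ω G m = some false} ≤ 1 / 3 := by
  have h1 : μ.real {ω | ∃ t b, M.out ω G t = some b ∧ (b = true ↔ ¬ G.CliqueFree 3)} ≤
      μ.real ({ω | M.out ω G m = some false}ᶜ) := by
    apply measureReal_mono
    · rintro ω ⟨t, b, hb, hb'⟩ hω
      have hbt : b = true := hb'.2 hG
      subst hbt
      have := rnd_out_some M ω G t m true false hb hω
      exact absurd this (by decide)
    · exact measure_ne_top _ _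
  rw [measureReal_compl (rnd_meas_out M G hm m (some false)), probReal_univ] at h1
  linarith

end Runs

theorem t_RND : S_RND := by
  intro n Q A Γ Ω _ _ _ _ μ _ M f P φ' b G N F hφ hf hP hN hNF hm ha hd hT
  have hN' : (0 : ℝ) < N := by exact_mod_cast hN
  have hT0 : (0 : ℝ) ≤ N / 20 := by positivity
  have hF0 : (0 : ℝ) < F + 1 := by positivity
  have hmS := rnd_meas_le M G ha P b N F
  refine ⟨hmS.inter (rnd_meas_out M G hm N (some false)), ?_, ?_⟩
  · intro hG
    have h1 := rnd_markov μ (fun ω => M.cost f b ω G N) {ω | M.out ω G N = none}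
      (rnd_meas_out M G hm N none) N (N / 20) hN'.le hT0
      (fun ω hω => rnd_cost_none M G f hf b ω N hω) (hT N)
    have h1' : μ.real {ω | M.out ω G N = none} ≤ 1 / 20 := by
      by_contra hcon
      push Not at hcon
      have := mul_lt_mul_of_pos_left hcon hN'
      linarith
    have h2 := rnd_prob_free M μ G hG hd N h1'
    have h3 := rnd_markov μ (fun ω => M.cost f b ω G N) ({ω | fcnt M P b ω G N ≤ F}ᶜ)
      hmS.compl (φ' * (F + 1)) (N / 20) (by positivity) hT0
      (fun ω hω => by
        have h4 : F + 1 ≤ fcnt M P b ω G N := by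
          have : ¬ fcnt M P b ω G N ≤ F := hω
          omega
        have h5 : ((F : ℝ) + 1) ≤ fcnt M P b ω G N := by exact_mod_cast h4
        exact (mul_le_mul_of_nonneg_left h5 hφ.le).trans
          (rnd_cost_far M G f hf P φ' hP b ω N)) (hT N)
    have h3' : μ.real ({ω | fcnt M P b ω G N ≤ F}ᶜ) ≤ 1 / 10 := by
      by_contra hcon
      push Not at hcon
      have hpos : (0 : ℝ) < φ' * (F + 1) := by positivity
      have := mul_lt_mul_of_pos_left hcon hpos
      linarith
    have h5 : μ.real {ω | M.out ω G N = some false} ≤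
        μ.real (AE M P b G N F ∪ {ω | fcnt M P b ω G N ≤ F}ᶜ) := by
      apply measureReal_mono
      · intro ω hω
        by_cases h : fcnt M P b ω G N ≤ F
        · exact Or.inl ⟨h, hω⟩
        · exact Or.inr h
      · exact measure_ne_top _ _
    have h6 := measureReal_union_le (μ := μ) (AE M P b G N F) ({ω | fcnt M P b ω G N ≤ F}ᶜ)
    linarith
  · intro hG
    refine le_trans ?_ (rnd_prob_tri M μ G hG hm hd N)
    apply measureReal_mono
    · exact Set.inter_subset_right
    · exact measure_ne_top _ _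

end Pool.Agent.RAC
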