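import Mathlib
import Pool.Agent.RAC.Stmts

/-!
# Triangle-free inputs for the block graph of a family of permutations
-/

set_option autoImplicit false
set_option linter.unusedSectionVars false
set_option linter.unusedVariables false

namespace Pool.Agent.RAC

open Finset Equiv Pool.Agent.TS Pool.Agent.TR

section

variable {J B U C : Type} (σ : C → Perm B) (hσ : Simp σ) (adj : U → U → Prop)

lemma TFC_iff (z : Bool × (J × B) → Perm U) :
    TFree (ES σ adj) (toInp z).1 (toInp z).2 ↔
      ∀ ℓ : ((J × B) × C) × U, ¬ tri (HS J σ hσ) adj z ℓ := by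
  constructor
  · rintro h ⟨⟨⟨j, b⟩, c⟩, u⟩ ht
    exact h j u b (σ c b) ⟨c, rfl, by simpa [tri, HS, BG.pt, TR.val, toInp] using ht⟩
  · rintro h j u b b' ⟨c, hc, ha⟩
    simp only at hc
    subst hc
    exact h ⟨⟨⟨j, b⟩, c⟩, u⟩ (by simpa [tri, HS, BG.pt, TR.val, toInp] using ha)

variable [Fintype J] [Fintype B] [Fintype U] [Fintype C] [DecidableEq J] [DecidableEq B]
  [DecidableEq U] [DecidableEq C]

open Classical in
lemma TFC_row (d1 : ℕ) (hd' : ∀ x, (Finset.univ.filter fun y => adj x y).card ≤ d1)
    (π : J × B → Perm U) (κ : J × B) (u : U) :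
    (Finset.univ.filter fun v => forb (ES σ adj) π κ u v).card ≤ Fintype.card C * d1 := by
  have h1 : (Finset.univ.filter fun v => forb (ES σ adj) π κ u v) ⊆
      (Finset.univ : Finset C).biUnion fun c => Finset.univ.filter fun v =>
        adj (π (κ.1, (σ c).symm κ.2) u) v := by
    intro v hv
    obtain ⟨b, c, hc, ha⟩ := (Finset.mem_filter.1 hv).2
    simp only at hc ha
    rw [Finset.mem_biUnion]
    refine ⟨c, Finset.mem_univ _, ?_⟩
    rw [Finset.mem_filter]
    refine ⟨Finset.mem_univ _, ?_⟩
    have : (σ c).symm κ.2 = b := by rw [hc]; simp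
    rw [this]
    exact ha
  refine (Finset.card_le_card h1).trans (Finset.card_biUnion_le.trans ?_)
  calc _ ≤ ∑ _c : C, d1 := Finset.sum_le_sum fun c _ => hd' _
    _ = _ := by rw [Finset.sum_const, smul_eq_mul, Finset.card_univ]

open Classical in
lemma TFC_col (d1 : ℕ) (hd : ∀ y, (Finset.univ.filter fun x => adj x y).card ≤ d1)
    (π : J × B → Perm U) (κ : J × B) (v : U) :
    (Finset.univ.filter fun u => forb (ES σ adj) π κ u v).card ≤ Fintype.card C * d1 := by
  have h1 : (Finset.univ.filter fun u => forb (ES σ adj) π κ u v) ⊆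
      (Finset.univ : Finset C).biUnion fun c => Finset.univ.filter fun u =>
        adj (π (κ.1, (σ c).symm κ.2) u) v := by
    intro u hu
    obtain ⟨b, c, hc, ha⟩ := (Finset.mem_filter.1 hu).2
    simp only at hc ha
    rw [Finset.mem_biUnion]
    refine ⟨c, Finset.mem_univ _, ?_⟩
    rw [Finset.mem_filter]
    refine ⟨Finset.mem_univ _, ?_⟩
    have : (σ c).symm κ.2 = b := by rw [hc]; simp
    rw [this]
    exact ha
  refine (Finset.card_le_card h1).trans (Finset.card_biUnion_le.trans ?_)
  calc _ ≤ ∑ _c : C, d1 := by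
        refine Finset.sum_le_sum fun c _ => le_trans ?_ (hd v)
        refine Finset.card_le_card_of_injOn (fun u => π (κ.1, (σ c).symm κ.2) u) ?_ ?_
        · intro u hu
          simpa using hu
        · intro u _ u' _ h
          exact (π (κ.1, (σ c).symm κ.2)).injective h
    _ = _ := by rw [Finset.sum_const, smul_eq_mul, Finset.card_univ]

open Classical in
lemma TFC_count (d1 : ℕ) (hd : ∀ y, (Finset.univ.filter fun x => adj x y).card ≤ d1)
    (hd' : ∀ x, (Finset.univ.filter fun y => adj x y).card ≤ d1)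
    (h2 : 2 * (Fintype.card C * d1) ≤ Fintype.card U) :
    Fintype.card (Bool × (J × B) → Perm U) ≤
      (Fintype.card U) ^ (2 * (Fintype.card C * d1) * Fintype.card (J × B)) *
      (Finset.univ.filter fun z : Bool × (J × B) → Perm U =>
        ∀ ℓ : ((J × B) × C) × U, ¬ tri (HS J σ hσ) adj z ℓ).card := by
  have h1 := tf_count (J := J) (ES σ adj) (Fintype.card C * d1)
    (fun π κ u _ => by
      have := TFC_row σ adj d1 hd' π κ u
      convert this)
    (fun π κ v _ => by
      have := TFC_col σ adj d1 hd π κ v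
      convert this) h2
  have h3 : Fintype.card (Bool × (J × B) → Perm U) = Fintype.card (Inp J B U) :=
    Fintype.card_congr inpEquiv
  have h4 : (tfSet J (ES σ adj)).card = (Finset.univ.filter fun z : Bool × (J × B) → Perm U =>
        ∀ ℓ : ((J × B) × C) × U, ¬ tri (HS J σ hσ) adj z ℓ).card := by
    symm
    refine Finset.card_nbij' toInp ofInp ?_ ?_ ?_ ?_
    · intro z hz
      rw [Finset.mem_coe, Finset.mem_filter] at hz
      rw [Finset.mem_coe, mem_tfSet]
      exact (TFC_iff σ hσ adj z).2 hz.2
    · intro p hp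
      rw [Finset.mem_coe, mem_tfSet] at hp
      rw [Finset.mem_coe, Finset.mem_filter]
      refine ⟨Finset.mem_univ _, (TFC_iff σ hσ adj (ofInp p)).1 ?_⟩
      rw [toInp_ofInp]
      exact hp
    · intro z _
      exact ofInp_toInp z
    · intro p _
      exact toInp_ofInp p
  rw [h3, ← h4]
  exact h1

open Classical in
lemma TFC_edges (d1 : ℕ) (hd' : ∀ x, (Finset.univ.filter fun y => adj x y).card ≤ d1) :
    ((Finset.univ : Finset ((B × U) × (B × U))).filter fun x => ES σ adj x.1 x.2).card ≤
      Fintype.card B * Fintype.card U * (Fintype.card C * d1) := by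
  have h1 : (Finset.univ.filter fun p : (B × U) × (B × U) => ES σ adj p.1 p.2).card =
      ∑ x : B × U, (Finset.univ.filter fun y => ES σ adj x y).card := by
    simp only [Finset.card_filter]
    rw [Fintype.sum_prod_type
      (f := fun p : (B × U) × (B × U) => if ES σ adj p.1 p.2 then 1 else 0)]
  have h2 : ∀ x : B × U, (Finset.univ.filter fun y => ES σ adj x y).card ≤
      Fintype.card C * d1 := by
    intro x
    have h3 : (Finset.univ.filter fun y => ES σ adj x y) ⊆
        (Finset.univ : Finset C).biUnion fun c =>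
          (Finset.univ.filter fun v => adj x.2 v).image fun v => (σ c x.1, v) := by
      intro y hy
      obtain ⟨c, hc, ha⟩ := (Finset.mem_filter.1 hy).2
      rw [Finset.mem_biUnion]
      refine ⟨c, Finset.mem_univ _, Finset.mem_image.2 ⟨y.2, ?_, Prod.ext hc.symm rfl⟩⟩
      exact Finset.mem_filter.2 ⟨Finset.mem_univ _, ha⟩
    refine (Finset.card_le_card h3).trans (Finset.card_biUnion_le.trans ?_)
    calc _ ≤ ∑ _c : C, d1 :=
          Finset.sum_le_sum fun c _ => Finset.card_image_le.trans (hd' _)
      _ = _ := by rw [Finset.sum_const, smul_eq_mul, Finset.card_univ]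
  rw [h1]
  calc _ ≤ ∑ _x : B × U, Fintype.card C * d1 := Finset.sum_le_sum fun x _ => h2 x
    _ = _ := by rw [Finset.sum_const, Finset.card_univ, Fintype.card_prod, smul_eq_mul]

open Classical in
lemma TFC_key (κ : Bool × (J × B)) :
    ((Finset.univ : Finset ((J × B) × C)).filter fun ε =>
      (HS J σ hσ).ky true ε = κ).card ≤ Fintype.card C := by
  rw [← Finset.card_univ]
  refine Finset.card_le_card_of_injOn (fun ε => ε.2) (fun _ _ => Finset.mem_coe.2
    (Finset.mem_univ _)) ?_
  rintro ⟨⟨j, b⟩, c⟩ h1 ⟨⟨j', b'⟩, c'⟩ h2 hc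
  rw [Finset.mem_coe, Finset.mem_filter] at h1 h2
  have e1 := h1.2
  have e2 := h2.2
  simp only [HS, if_true] at e1 e2 hc
  subst e1
  simp only [Prod.mk.injEq, true_and] at e2
  rw [e2.1, e2.2, hc]

end

theorem t_TFC : S_TFC := by
  classical
  intro J B U C _ _ _ _ _ _ _ _ σ hσ adj d1 hd hd'
  have hd2 : ∀ y, (Finset.univ.filter fun x => adj x y).card ≤ d1 := fun y => by
    have := hd y
    convert this
  have hd2' : ∀ x, (Finset.univ.filter fun y => adj x y).card ≤ d1 := fun x => by
    have := hd' x
    convert this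
  refine ⟨fun z => TFC_iff σ hσ adj z, fun h => ?_, ?_, fun κ => ?_⟩
  · have := TFC_count (J := J) σ hσ adj d1 hd2 hd2' h
    convert this
  · have := TFC_edges σ adj d1 hd2'
    convert this
  · have := TFC_key (J := J) σ hσ κ
    convert this

end Pool.Agent.RAC
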