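import Mathlib
import Pool.Agent.RAC.Main0
import Pool.Agent.RAC.Perm
import Pool.Agent.RAC.Lift
import Pool.Agent.RAC.Exp
import Pool.Agent.RAC.Both
import Pool.Agent.RAC.Good
import Pool.Agent.RAC.Tfc
import Pool.Agent.RAC.Ds
import Pool.Agent.RAC.Cap
import Pool.Agent.RAC.Enc
import Pool.Agent.RAC.Rnd
import Pool.Agent.RAC.Comb
import Pool.Agent.RAC.Hm
import Pool.Agent.RAC.Cx
import Pool.Agent.RAC.Par
import Pool.Agent.RAC.Siz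
import Pool.Agent.RAC.Cho

/-!
# The main theorem
-/

set_option autoImplicit false

open MeasureTheory

namespace Pool.Agent.RAC

theorem t_MAIN : S_MAIN :=
  t_MAIN0 (t_SIZ (t_PAR (t_COMB (t_GOOD t_BOTH) t_TFC t_DS t_CAP t_ENC t_RND) t_HM t_CX)
    (t_EXP (t_LIFT t_PERM)) t_TFC) t_CHO

/-- The main theorem. -/
theorem main_bound (κ : ℕ) (ε : ℝ) (hε : 0 < ε) : ∃ c : ℝ, 0 < c ∧ ∃ s₀ : ℕ, ∀ (s : ℕ) (φ : ℝ),
    s₀ ≤ s → (s₀ : ℝ) ≤ φ → ∃ (n : ℕ) (δ : Fin n → ℕ), 2 * n + ∑ v, δ v = 2 * s ∧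
      ∀ (Q A Γ Ω : Type) [Fintype Q] [Fintype A] [Fintype Γ] [MeasurableSpace Ω]
        (μ : Measure Ω) [IsProbabilityMeasure μ] (M : RMachine n Q A Γ Ω) (g : ℕ) (f : A → ℝ)
        (b : Bool) (T : ℝ), 1 ≤ g → Fintype.card Q ≤ s ^ κ → Fintype.card A ≤ s ^ κ →
        Fintype.card Γ ≤ s ^ (κ * g) → (∀ a, 0 ≤ f a) →
        (Nat.card {a : A // f a < φ * g} : ℝ) * g ≤ (s : ℝ) ^ (1 - ε) →
        M.DetectsTriangles μ δ → M.ExpectedCostLE μ δ f b T →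
        c * s * (min (Real.log s) (Real.log φ) / Real.log (min (Real.log s) (Real.log φ))) ≤ T :=
  t_MAIN κ ε hε

end Pool.Agent.RAC
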