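import Mathlib
import Pool.Agent.RAC.Stmts

/-!
# RAC: graphs of every size (helper70)
-/

set_option autoImplicit false
set_option linter.unusedSectionVars false

open MeasureTheory

namespace Pool.Agent.RAC

open Finset Equiv Pool.Agent.TS Pool.Agent.TR Pool.Agent.HR Pool.Agent.ACC Pool.Agent.HM

set_option synthInstance.maxSize 100000 in
theorem t_SIZ (h1 : S_PAR) (h2 : S_EXP) (h3 : S_TFC) : S_SIZ := by
  classical
  intro κ s φ S0 gg D q m hq hs3 hm hD hcond hs
  have : NeZero D := ⟨hD.ne'⟩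
  have hq2 : 2 ≤ q := (Fact.out : q.Prime).two_le
  have hgg : 2 ≤ gg := hcond.1
  have hD8 : 8 ≤ D := by
    refine le_trans ?_ hcond.2.1
    exact Nat.le_mul_of_pos_right _ (by positivity)
  obtain ⟨σ, hσ, hsp⟩ := h2 m D
  have cB : Fintype.card (Fin m × ZMod D) = m * D := by
    rw [Fintype.card_prod, Fintype.card_fin, ZMod.card]
  have cU : Fintype.card (Blk q 0 × Inn q) = q ^ 3 := by rw [card_BI q 0]
  have cC : Fintype.card (ZMod D) = D := ZMod.card D
  have cCU : Fintype.card (Gen q) ≤ q ^ 2 := by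
    rw [card_gen, sq]
    exact Nat.mul_le_mul_right _ (Nat.sub_le _ _)
  set b := m * D * q ^ 3 with hb
  have hb0 : 0 < b := by positivity
  obtain ⟨t, ht⟩ : ∃ t, t = s / (8 * b) := ⟨_, rfl⟩
  have hbs : 16 * (b * (D * q ^ 2)) ≤ s := by
    have : b * (D * q ^ 2) = m * D * D * q ^ 5 := by rw [hb]; ring
    rw [this]; exact hs
  have hpq : 4 ≤ D * q ^ 2 := by
    have : 4 ≤ q ^ 2 := by nlinarith
    exact this.trans (Nat.le_mul_of_pos_left _ hD)
  have hb4 : 64 * b ≤ s := by
    refine le_trans ?_ hbs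
    calc 64 * b = 16 * (b * 4) := by ring
      _ ≤ 16 * (b * (D * q ^ 2)) := Nat.mul_le_mul_left _ (Nat.mul_le_mul_left _ hpq)
  have ht1 : t * (8 * b) ≤ s := by rw [ht]; exact Nat.div_mul_le_self _ _
  have ht2 : s < (t + 1) * (8 * b) := by
    rw [ht, mul_comm]; exact Nat.lt_mul_div_succ _ (by positivity)
  have ht0 : 0 < t := by
    by_contra hcon
    have : t = 0 := by omega
    rw [this] at ht2
    omega
  have ht1' : 8 * (t * b) ≤ s := by
    refine le_trans (le_of_eq ?_) ht1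
    ring
  have ht3 : s ≤ 16 * (t * b) := by
    have h5 : (t + 1) * (8 * b) ≤ (2 * t) * (8 * b) := Nat.mul_le_mul_right _ (by omega)
    have h6 : (2 * t) * (8 * b) = 16 * (t * b) := by ring
    omega
  set eB : (Fin m × ZMod D) ≃ Fin (m * D) := Fintype.equivFinOfCardEq cB with heB
  set eU : (Blk q 0 × Inn q) ≃ Fin (q ^ 3) := Fintype.equivFinOfCardEq cU with heU
  set E : (Fin m × ZMod D) × (Blk q 0 × Inn q) →
      (Fin m × ZMod D) × (Blk q 0 × Inn q) → Prop :=
    ES σ (adjU (gen : Gen q → Blk q 0 × Inn q)) with hE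
  set cE := (Finset.univ.filter fun x : ((Fin m × ZMod D) × (Blk q 0 × Inn q)) ×
    ((Fin m × ZMod D) × (Blk q 0 × Inn q)) => E x.1 x.2).card with hcE
  have hcEle : cE ≤ b * (D * q ^ 2) := by
    have h := (h3 (Fin t) (Fin m × ZMod D) (Blk q 0 × Inn q) (ZMod D) σ hσ
      (adjU (gen : Gen q → Blk q 0 × Inn q)) (Fintype.card (Gen q))
      (fun y => by convert adjU_col (gen : Gen q → Blk q 0 × Inn q) y)
      (fun x => by convert adjU_row (gen : Gen q → Blk q 0 × Inn q) x)).2.2.1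
    rw [cB, cU, cC, ← hE] at h
    have h' : cE ≤ m * D * q ^ 3 * (D * Fintype.card (Gen q)) := by
      rw [hcE]; convert h
    exact h'.trans (Nat.mul_le_mul_left _ (Nat.mul_le_mul_left _ cCU))
  set base := t * q ^ 3 + 2 * (m * D * q ^ 3) + 2 * (t * (m * D) * q ^ 3) + cE with hbase
  have e3 : t * (m * D) * q ^ 3 = t * b := by rw [hb]; ring
  have hbase_le : base ≤ s := by
    have e1 : t * q ^ 3 ≤ t * b := by
      apply Nat.mul_le_mul_left
      rw [hb]
      exact Nat.le_mul_of_pos_left _ (by positivity)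
    rw [hbase, e3, ← hb]
    omega
  set pad := s - base with hpad
  refine ⟨t * q ^ 3 + (m * D * q ^ 3 + (m * D * q ^ 3 + pad)),
    fun v => dg (Equiv.refl (Fin t)) eB eU pad E ((enc (Equiv.refl (Fin t)) eB eU pad).symm v),
    ?_, ?_⟩
  · rw [(enc (Equiv.refl (Fin t)) eB eU pad).symm.sum_comp
      (fun x => dg (Equiv.refl (Fin t)) eB eU pad E x), sum_dg, cB, cU, ← hcE, Fintype.card_fin]
    omega
  · have h := h1 κ s φ S0 gg D q m t pad (m * D) (q ^ 3) σ eB eU
      (fun v => dg (Equiv.refl (Fin t)) eB eU pad E ((enc (Equiv.refl (Fin t)) eB eU pad).symm v)) hσ hsp hs3 hm ht0 hcond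
      (by rw [e3]; omega) (by
        intro z v
        obtain ⟨x, rfl⟩ := (enc (Equiv.refl (Fin t)) eB eU pad).surjective v
        rw [adjList_graph, length_lst]
        simp only [Equiv.symm_apply_apply]
        rfl)
    have hx : ((gg : ℝ) + 2) * s / 204800 ≤
        ((gg : ℝ) + 2) * (t * (m * D) * (q : ℝ) ^ 3) / 12800 := by
      have h5 : (s : ℝ) ≤ 16 * (t * (m * D) * (q : ℝ) ^ 3) := by
        have : (s : ℝ) ≤ ((16 * (t * b) : ℕ) : ℝ) := by exact_mod_cast ht3
        rw [hb] at this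
        push_cast at this
        refine this.trans (le_of_eq ?_)
        ring
      have h6 : (0 : ℝ) ≤ (gg : ℝ) + 2 := by positivity
      have h7 := mul_le_mul_of_nonneg_left h5 h6
      linarith
    intro Q A Γ Ω _ _ _ _ μ _ M g f b' T hg hQ hA hΓ hf hnear hdet hexp
    exact hx.trans (h Q A Γ Ω μ M g f b' T hg hQ hA hΓ hf hnear hdet hexp)

end Pool.Agent.RAC
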